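import Mathlib

/-!
# Khovanskii-type bounds: definitions

`n` functions of `n` real variables, their nondegenerate common zeros, functions of logarithmic
type, the bound, chains; computation trees with free multiplications and divisions.
-/

set_option autoImplicit false

namespace Pool.Agent.Lib.MP_641cb6_lc.KH

open Set MvPolynomial

/-- the Jacobian matrix of `n` functions of `n` variables -/
noncomputable def jac {n : ℕ} (F : Fin n → (Fin n → ℝ) → ℝ) (x : Fin n → ℝ) :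
    Matrix (Fin n) (Fin n) ℝ :=
  Matrix.of fun i j => fderiv ℝ (F i) x (Pi.single j 1)

/-- the nondegenerate common zeros in `U` -/
def nz {n : ℕ} (U : Set (Fin n → ℝ)) (F : Fin n → (Fin n → ℝ) → ℝ) : Set (Fin n → ℝ) :=
  {x | x ∈ U ∧ (∀ i, F i x = 0) ∧ (jac F x).det ≠ 0}

/-- on `{w ≠ 0}` the gradient of `g` consists of polynomials of degree at most `D` divided by
`w` -/
def LogType {n : ℕ} (w : MvPolynomial (Fin n) ℝ) (D : ℕ) (g : (Fin n → ℝ) → ℝ) : Prop :=
  ∃ q : Fin n → MvPolynomial (Fin n) ℝ, (∀ j, (q j).totalDegree ≤ D) ∧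
    ∀ x, eval x w ≠ 0 → HasFDerivAt g
      (∑ j, (eval x (q j) / eval x w) • (ContinuousLinearMap.proj j : (Fin n → ℝ) →L[ℝ] ℝ)) x

/-- `g` is a polynomial of degree at most `d` -/
def PolyType {n : ℕ} (d : ℕ) (g : (Fin n → ℝ) → ℝ) : Prop :=
  ∃ p : MvPolynomial (Fin n) ℝ, p.totalDegree ≤ d ∧ ∀ x, g x = eval x p

/-- the bound for `k` functions of logarithmic type and `n - k` polynomials of degree at most
`d` -/
def bd (n W D : ℕ) : ℕ → ℕ → ℕ
  | 0, d => (d + 1) ^ n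
  | k + 1, d => 3 * bd n W D k (n * (D + d) + 2 * W + 2)

/-- the boundary function of `{w ≠ 0}` -/
noncomputable def bdry {n : ℕ} (w : MvPolynomial (Fin n) ℝ) (W : ℕ) (x : Fin n → ℝ) : ℝ :=
  eval x w ^ 2 / (1 + ∑ i, x i ^ 2) ^ (W + 1)

/-- `p 0, ..., p (r - 1)` are functions with values different from `0` and `1` on `V`, and
`log |p i| - log |1 - p i|` is an affine combination of `log |b|` and `log |p j|`, `j < i`
(`Real.log` is `log |.|`). -/
structure RChain (r : ℕ) (V : Set ℝ) (p : Fin r → ℝ → ℝ) : Prop where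
  smooth : ∀ i, ContDiffOn ℝ 1 (p i) V
  ne_zero : ∀ i, ∀ b ∈ V, p i b ≠ 0
  ne_one : ∀ i, ∀ b ∈ V, p i b ≠ 1
  rel : ∀ i, ∃ (C A₀ : ℝ) (A : Fin r → ℝ), (∀ j, i ≤ j → A j = 0) ∧ ∀ b ∈ V,
    Real.log (p i b) - Real.log (1 - p i b) =
      C + A₀ * Real.log b + ∑ j, A j * Real.log (p j b)

/-- affine combinations of `log |b|` and `log |p j|` -/
noncomputable def lam {r : ℕ} (p : Fin r → ℝ → ℝ) (c a₀ : ℝ) (a : Fin r → ℝ) (b : ℝ) : ℝ :=
  c + a₀ * Real.log b + ∑ j, a j * Real.log (p j b)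

/-- `φ 0 = X` and each of `φ 1, ..., φ s` is a sum of two multiples of products of powers of the
earlier ones. -/
def IsChain (φ : ℕ → Polynomial ℝ) (s : ℕ) : Prop :=
  φ 0 = Polynomial.X ∧ ∀ l, 1 ≤ l → l ≤ s → ∃ (κ κ' : ℝ) (α α' : ℕ → ℕ),
    φ l = Polynomial.C κ * ∏ j ∈ Finset.range l, φ j ^ α j +
      Polynomial.C κ' * ∏ j ∈ Finset.range l, φ j ^ α' j

/-- the set where the nonzero ones among `φ 0, ..., φ (l - 1)` do not vanish -/
def good (φ : ℕ → Polynomial ℝ) (l : ℕ) : Set ℝ := {b | ∀ j < l, φ j ≠ 0 → (φ j).eval b ≠ 0}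

end Pool.Agent.Lib.MP_641cb6_lc.KH
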