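import Mathlib

/-!
# Computation trees with free multiplications, divisions and tests
-/

set_option autoImplicit false

namespace Pool.Agent.Lib.MP_641cb6_lc.KH

/-- An instruction of a computation tree with constants from `F`; `i`, `j` are numbers of values
computed before. -/
inductive Instr (F : Type)
  /-- a constant -/
  | const (c : F)
  /-- the product of two values -/
  | mul (i j : ℕ)
  /-- the quotient of two values (`0` if the divisor is `0`); branches on whether the divisor is
  `0` -/
  | div (i j : ℕ)
  /-- the combination `c u + d v` of two values `u`, `v`: one addition -/
  | add (c d : F) (i j : ℕ)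
  /-- a branch on a property of a value -/
  | test (i : ℕ)
  /-- a leaf with an answer -/
  | answer (b : Bool)

/-- A computation tree, possibly infinite: `T h` is the instruction that is executed after the
outcomes `h` of the steps made so far (the latest outcome comes first; steps without branching
have the outcome `true`). -/
def CompTree (F : Type) : Type := List Bool → Instr F

/-- The state of a computation: the outcomes so far, the values computed so far (the input
included) and the number of additions made so far. -/
structure State (K : Type) where
  hist : List Bool
  vals : List K
  cost : ℕ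

/-- the value number `i` (`0` if there is none) -/
def State.val {K : Type} [Zero K] (s : State K) (i : ℕ) : K := s.vals.getD i 0

/-- One step of the computation; a test branches on whether `P` holds for the value. -/
noncomputable def CompTree.step {F K : Type} [Field F] [Field K] [Algebra F K] (P : K → Prop)
    (T : CompTree F) (s : State K) : State K :=
  open Classical in
  match T s.hist with
  | .const c => ⟨true :: s.hist, s.vals ++ [algebraMap F K c], s.cost⟩
  | .mul i j => ⟨true :: s.hist, s.vals ++ [s.val i * s.val j], s.cost⟩
  | .div i j => ⟨decide (s.val j = 0) :: s.hist, s.vals ++ [s.val i / s.val j], s.cost⟩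
  | .add c d i j => ⟨true :: s.hist, s.vals ++ [c • s.val i + d • s.val j], s.cost + 1⟩
  | .test i => ⟨decide (P (s.val i)) :: s.hist, s.vals, s.cost⟩
  | .answer _ => s

/-- The state after `k` steps on the input `x = (a, b)`, `a` in `K ^ n` and `b` in `K`: the value
number `i` is `a i` for `i < n` and `b` for `i = n`. -/
noncomputable def CompTree.run {F K : Type} [Field F] [Field K] [Algebra F K] (P : K → Prop)
    (T : CompTree F) {n : ℕ} (x : (Fin n → K) × K) : ℕ → State K
  | 0 => ⟨[], List.ofFn x.1 ++ [x.2], 0⟩
  | k + 1 => T.step P (CompTree.run P T x k)

/-- The tree decides the set `S`: on every input a leaf is reached after finitely many steps, and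
its answer is `true` iff the input is in `S`. -/
def CompTree.Decides {F K : Type} [Field F] [Field K] [Algebra F K] (P : K → Prop)
    (T : CompTree F) {n : ℕ} (S : Set ((Fin n → K) × K)) : Prop :=
  ∀ x, ∃ (k : ℕ) (b : Bool), T (T.run P x k).hist = .answer b ∧ (b = true ↔ x ∈ S)

/-- The instances `(x, z)` such that `z` is a product of powers of the `x i` with exponents less
than `2 ^ m`. -/
def PowerProduct (K : Type) [Field K] (n m : ℕ) : Set ((Fin n → K) × K) :=
  {p | ∃ e : Fin n → ℕ, (∀ i, e i < 2 ^ m) ∧ p.2 = ∏ i, p.1 i ^ e i}

end Pool.Agent.Lib.MP_641cb6_lc.KH
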