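import Pool.Agent.Lib.MP_641cb6_lc.Real
import Pool.Agent.Lib.MP_641cb6_lc.KH.Comp

/-!
# Families of decision trees and joint decisions
-/

set_option autoImplicit false

namespace Pool.Agent.Lib.MP_641cb6_lc.KH

open Topology Filter Set

/-- Finitely many computation trees decide the set `S` jointly: every tree halts on every input,
and the Boolean function `Φ` applied to their answers tells whether the input is in `S`. -/
def DecidesJointly {F K : Type} [Field F] [Field K] [Algebra F K] (P : K → Prop) {n N : ℕ}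
    (T : Fin N → CompTree F) (Φ : (Fin N → Bool) → Prop) (S : Set ((Fin n → K) × K)) : Prop :=
  ∀ x, ∃ (k : Fin N → ℕ) (b : Fin N → Bool),
    (∀ w, T w ((T w).run P x (k w)).hist = .answer (b w)) ∧ (Φ b ↔ x ∈ S)

/-- The instances `(a, b)` such that `b` is a sum of `y i` for which the `m`-th iterate of
`t ↦ 2 t ^ 2 - 1` maps `y i` to `a i`. -/
def IterSum (K : Type) [Field K] (n m : ℕ) : Set ((Fin n → K) × K) :=
  {p | ∃ y : Fin n → K, (∀ i, (fun t : K => 2 * t ^ 2 - 1)^[m] (y i) = p.1 i) ∧ p.2 = ∑ i, y i}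

/-- a test of the family vanishes on the whole boundary but not identically -/
theorem exists_test_fam {n m N : ℕ} {T : Fin N → DecTree ((Fin n → ℝ) × ℝ)}
    (hT : ∀ w h g, T w h = .test g → AnalyticOnNhd ℝ g univ)
    {O : Set (Fin n → ℝ)} (hO : IsOpen O) (hOne : O.Nonempty) {S : Set ((Fin n → ℝ) × ℝ)}
    (hS1 : ∀ t ∈ O, par n m t ∈ S)
    (hS2 : ∀ t ∈ O, ∀ᶠ δ in 𝓝[>] (0 : ℝ), ((par n m t).1, (par n m t).2 + δ) ∉ S)
    {Φ : (Fin N → Bool) → Prop}
    (hdec : ∀ x, ∃ (k : Fin N → ℕ) (b : Fin N → Bool),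
      (∀ w, T w ((T w).run x (k w)) = .answer (b w)) ∧ (Φ b ↔ x ∈ S)) :
    ∃ w x k g, T w ((T w).run x k) = .test g ∧ (∃ x, g x ≠ 0) ∧ ∀ t, g (par n m t) = 0 := by
  classical
  let G : Fin N → List Bool → (Fin n → ℝ) × ℝ → ℝ := fun w h => match T w h with
    | .test g => g
    | .answer _ => fun _ => 0
  have hG : ∀ w h g, T w h = .test g → G w h = g := fun w h g hh => by simp only [G, hh]
  have hGa : ∀ w h, AnalyticOnNhd ℝ (G w h) univ := by
    intro w h
    cases hh : T w h with
    | test g => rw [hG w h g hh]; exact hT w h g hh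
    | answer b =>
      have : G w h = fun _ => 0 := by simp only [G, hh]
      rw [this]
      exact analyticOnNhd_const
  have hGp : ∀ w h, AnalyticOnNhd ℝ (fun t => G w h (par n m t)) univ := fun w h =>
    (hGa w h).comp (par_analytic n m) (mapsTo_univ _ _)
  let A : Fin N × List Bool → Set (Fin n → ℝ) := fun p =>
    if ∃ t, G p.1 p.2 (par n m t) ≠ 0 then {t | G p.1 p.2 (par n m t) ≠ 0} else univ
  have hAo : ∀ p, IsOpen (A p) := by
    intro p
    simp only [A]
    split_ifs
    · exact isOpen_ne_fun (cont_of_analytic (hGp _ _)) continuous_const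
    · exact isOpen_univ
  have hAd : ∀ p, Dense (A p) := by
    intro p
    simp only [A]
    split_ifs with h1
    · exact dense_ne_zero (hGp _ _) h1
    · exact dense_univ
  have hdense := dense_iInter_of_isOpen hAo hAd
  obtain ⟨t, ht, htA⟩ := hdense.inter_open_nonempty _ hO hOne
  rw [mem_iInter] at htA
  set z := par n m t with hz
  obtain ⟨k, b, hk, hb⟩ := hdec z
  by_contra hcon
  push Not at hcon
  have hloc : ∀ w, ∀ᶠ x in 𝓝 z, (T w).run x (k w) = (T w).run z (k w) := fun w =>
    run_locally_const (T := T w) (z := z) (k := k w)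
      (fun h g hg => cont_of_analytic (hT w h g hg)) (by
        intro j _ g hg
        by_contra h1
        push Not at h1
        obtain ⟨h1, h2⟩ := h1
        obtain ⟨s, hs⟩ := hcon w z j g hg h2
        have h3 := htA (w, (T w).run z j)
        simp only [A] at h3
        rw [if_pos ⟨s, by rw [hG _ _ g hg]; exact hs⟩] at h3
        apply h3
        rw [hG _ _ g hg]
        exact h1)
  have hbz : Φ b := hb.2 (hS1 t ht)
  have hlim : Tendsto (fun δ : ℝ => ((z.1, z.2 + δ) : (Fin n → ℝ) × ℝ)) (𝓝[>] 0) (𝓝 z) := by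
    have h1 : Continuous fun δ : ℝ => ((z.1, z.2 + δ) : (Fin n → ℝ) × ℝ) := by fun_prop
    have h2 := h1.tendsto 0
    simp only [add_zero] at h2
    exact h2.mono_left nhdsWithin_le_nhds
  have hev := (hlim.eventually (eventually_all.2 hloc)).and (hS2 t ht)
  obtain ⟨δ, hδ, hδ0⟩ := hev.exists
  obtain ⟨k', b', hk', hb'⟩ := hdec (z.1, z.2 + δ)
  have h5 : b' = b := by
    funext w
    have h6 : T w ((T w).run (z.1, z.2 + δ) (k w)) = .answer (b w) := by
      rw [hδ w, hk w]
    exact DecTree.answer_unique (hk' w) h6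
  rw [h5] at hb'
  exact hδ0 (hb'.1 hbz)

/-- an analytic function that vanishes on the boundary has many zeros on a line -/
theorem line_of_vanish {n m : ℕ} {g : (Fin n → ℝ) × ℝ → ℝ} (hga : AnalyticOnNhd ℝ g univ)
    (hne : ∃ x, g x ≠ 0) (hvan : ∀ t, g (par n m t) = 0) :
    ∃ a : Fin n → ℝ, (∃ b, g (a, b) ≠ 0) ∧ 2 ^ (m * n) ≤ {b | g (a, b) = 0}.encard := by
  obtain ⟨⟨a0, b0⟩, hne⟩ := hne
  -- a point with coordinates in `(-1, 1)` where `g` does not vanish
  have hpos : IsOpen {p : (Fin n → ℝ) × ℝ | ∀ i, p.1 i ∈ Ioo (-1 : ℝ) 1} := by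
    have : {p : (Fin n → ℝ) × ℝ | ∀ i, p.1 i ∈ Ioo (-1 : ℝ) 1} =
        Prod.fst ⁻¹' (Set.pi univ fun _ : Fin n => Ioo (-1 : ℝ) 1) := by
      ext t; simp
    rw [this]
    exact (isOpen_set_pi finite_univ fun _ _ => isOpen_Ioo).preimage continuous_fst
  obtain ⟨⟨a1, b1⟩, h1, h2⟩ := (dense_ne_zero hga ⟨_, hne⟩).inter_open_nonempty _ hpos
    ⟨(fun _ => 0, 0), fun i => by simp⟩
  have h1' : ∀ i, a1 i ∈ Ioo (-1 : ℝ) 1 := h1
  have h2' : g (a1, b1) ≠ 0 := h2
  -- an open set of parameters
  let U : Set (Fin n → ℝ) := {t | g ((fun i => Real.cos (2 ^ m * t i)), b1) ≠ 0}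
  have hU : IsOpen U := by
    refine isOpen_ne_fun ?_ continuous_const
    exact (cont_of_analytic hga).comp (by fun_prop)
  have hUne : U.Nonempty := by
    refine ⟨fun i => Real.arccos (a1 i) / 2 ^ m, ?_⟩
    show g ((fun i => Real.cos (2 ^ m * (Real.arccos (a1 i) / 2 ^ m))), b1) ≠ 0
    have : (fun i => Real.cos (2 ^ m * (Real.arccos (a1 i) / 2 ^ m))) = a1 := by
      funext i
      rw [mul_div_cancel₀ _ (by positivity)]
      exact Real.cos_arccos (h1' i).1.le (h1' i).2.le
    rw [this]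
    exact h2'
  -- parameters with different sums
  let V : (Fin n → Fin (2 ^ m)) × (Fin n → Fin (2 ^ m)) → Set (Fin n → ℝ) := fun p =>
    if p.1 = p.2 then univ else
      {t | ∑ i, (Real.cos (t i + sh m (p.1 i)) - Real.cos (t i + sh m (p.2 i))) ≠ 0}
  have hVo : ∀ p, IsOpen (V p) := by
    intro p
    simp only [V]
    split_ifs
    · exact isOpen_univ
    · exact isOpen_ne_fun (by fun_prop) continuous_const
  have hVd : ∀ p, Dense (V p) := by
    intro p
    simp only [V]
    split_ifs with hp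
    · exact dense_univ
    · refine dense_ne_zero ?_ ?_
      · intro t _
        refine Finset.analyticAt_fun_sum _ fun i _ => ?_
        have e1 := cos_analytic i 1 (sh m (p.1 i)) t
        have e2 := cos_analytic i 1 (sh m (p.2 i)) t
        simp only [one_mul] at e1 e2
        exact e1.sub e2
      · obtain ⟨i, hi⟩ := Function.ne_iff.1 hp
        by_contra hcon
        push Not at hcon
        have e1 := hcon fun j => if j = i then -sh m (p.2 i) else 0
        have e2 := hcon fun j => if j = i then -sh m (p.2 i) + Real.pi else 0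
        rw [← Finset.add_sum_erase _ _ (Finset.mem_univ i)] at e1 e2
        have e3 : ∀ c : ℝ, ∑ j ∈ Finset.univ.erase i,
            (Real.cos ((if j = i then c else 0) + sh m (p.1 j)) -
              Real.cos ((if j = i then c else 0) + sh m (p.2 j))) =
            ∑ j ∈ Finset.univ.erase i, (Real.cos (0 + sh m (p.1 j)) -
              Real.cos (0 + sh m (p.2 j))) := by
          intro c
          refine Finset.sum_congr rfl fun j hj => ?_
          rw [if_neg (Finset.ne_of_mem_erase hj)]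
        rw [e3] at e1 e2
        simp only [if_true] at e1 e2
        have e4 : -sh m (p.2 i) + Real.pi + sh m (p.1 i) =
            (sh m (p.1 i) - sh m (p.2 i)) + Real.pi := by ring
        have e5 : -sh m (p.2 i) + Real.pi + sh m (p.2 i) = 0 + Real.pi := by ring
        have e6 : -sh m (p.2 i) + sh m (p.1 i) = sh m (p.1 i) - sh m (p.2 i) := by ring
        have e7 : -sh m (p.2 i) + sh m (p.2 i) = 0 := by ring
        rw [e4, e5, Real.cos_add_pi, Real.cos_add_pi, Real.cos_zero] at e2
        rw [e6, e7, Real.cos_zero] at e1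
        exact sh_ne hi (by linarith)
  obtain ⟨t, htU, htV⟩ := (dense_iInter_of_isOpen hVo hVd).inter_open_nonempty _ hU hUne
  rw [mem_iInter] at htV
  refine ⟨fun i => Real.cos (2 ^ m * t i), ⟨b1, htU⟩, ?_⟩
  let F : (Fin n → Fin (2 ^ m)) → ℝ := fun k => ∑ i, Real.cos (t i + sh m (k i))
  have hFinj : Function.Injective F := by
    intro k l h
    by_contra hne
    have h3 := htV (k, l)
    simp only [V, hne, if_false] at h3
    apply h3
    simp only [F] at h
    rw [Finset.sum_sub_distrib, h, sub_self]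
  have hsub : range F ⊆ {b | g ((fun i => Real.cos (2 ^ m * t i)), b) = 0} := by
    rintro _ ⟨k, rfl⟩
    have h3 := hvan fun i => t i + sh m (k i)
    have h4 : par n m (fun i => t i + sh m (k i)) =
        ((fun i => Real.cos (2 ^ m * t i)), F k) := by
      unfold par
      congr 1
      funext i
      exact cos_sh m (k i) (t i)
    rw [h4] at h3
    exact h3
  calc (2 : ℕ∞) ^ (m * n) = (univ : Set (Fin n → Fin (2 ^ m))).encard := by
        rw [Set.encard_univ, ENat.card_eq_coe_fintype_card]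
        simp [pow_mul]
    _ = (range F).encard := by rw [← image_univ, hFinj.encard_image]
    _ ≤ _ := encard_le_encard hsub

/-- the open set of parameters -/
def pset (n m : ℕ) : Set (Fin n → ℝ) := {t | ∀ i, 0 < t i ∧ 2 ^ m * t i < Real.pi}

theorem pset_open (n m : ℕ) : IsOpen (pset n m) := by
  have : pset n m = Set.pi univ fun _ => {s : ℝ | 0 < s ∧ 2 ^ m * s < Real.pi} := by
    ext t; simp [pset]
  rw [this]
  refine isOpen_set_pi finite_univ fun _ _ => ?_
  exact (isOpen_lt continuous_const continuous_id).inter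
    (isOpen_lt (continuous_const.mul continuous_id) continuous_const)

theorem pset_nonempty (n m : ℕ) : (pset n m).Nonempty := ⟨fun _ => Real.pi / 2 ^ m / 2, fun i => by
  have := Real.pi_pos
  refine ⟨by positivity, ?_⟩
  rw [mul_div_assoc', mul_div_cancel₀ _ (by positivity)]
  linarith⟩

theorem rootSum_above {n m : ℕ} (t : Fin n → ℝ) (ht : t ∈ pset n m) :
    ∀ᶠ δ in 𝓝[>] (0 : ℝ), ((par n m t).1, (par n m t).2 + δ) ∉ RootSum n m := by
  filter_upwards [self_mem_nhdsWithin] with δ hδ
  have : (0 : ℝ) < δ := hδ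
  exact not_mem_above ht (by
    show ∑ i, Real.cos (t i) < ∑ i, Real.cos (t i) + δ
    linarith)

/-- the real points of `IterSum ℂ n m` -/
def realIter (n m : ℕ) : Set ((Fin n → ℝ) × ℝ) :=
  {p | (((fun i => ((p.1 i : ℝ) : ℂ)), ((p.2 : ℝ) : ℂ)) : (Fin n → ℂ) × ℂ) ∈ IterSum ℂ n m}

theorem iter_ofReal (m : ℕ) (y : ℝ) :
    (fun t : ℂ => 2 * t ^ 2 - 1)^[m] ((y : ℝ) : ℂ) = ((dbl^[m] y : ℝ) : ℂ) := by
  induction m generalizing y with
  | zero => rfl
  | succ m ih =>
    rw [Function.iterate_succ_apply, Function.iterate_succ_apply, ← ih]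
    congr 1
    simp only [dbl]
    push_cast
    ring

theorem par_realIter {n m : ℕ} (t : Fin n → ℝ) : par n m t ∈ realIter n m := by
  refine ⟨fun i => ((Real.cos (t i) : ℝ) : ℂ), fun i => ?_, ?_⟩
  · rw [iter_ofReal, dbl_iter_cos]
    rfl
  · show (((∑ i, Real.cos (t i) : ℝ)) : ℂ) = _
    push_cast
    rfl

theorem iter_fiber_finite (m : ℕ) (c : ℂ) :
    {y : ℂ | (fun t : ℂ => 2 * t ^ 2 - 1)^[m] y = c}.Finite := by
  induction m with
  | zero => simp
  | succ m ih =>
    have h1 : {y : ℂ | (fun t : ℂ => 2 * t ^ 2 - 1)^[m + 1] y = c} =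
        (fun t : ℂ => 2 * t ^ 2 - 1) ⁻¹' {y : ℂ | (fun t : ℂ => 2 * t ^ 2 - 1)^[m] y = c} := by
      ext y
      rw [mem_preimage, Set.mem_ofPred_eq, Set.mem_ofPred_eq, Function.iterate_succ_apply]
    rw [h1]
    refine ih.preimage' fun b _ => ?_
    obtain ⟨r, hr⟩ := IsAlgClosed.exists_pow_nat_eq ((b + 1) / 2) (by norm_num : 0 < 2)
    refine (Set.toFinite {r, -r}).subset ?_
    intro y hy
    have hy' : 2 * y ^ 2 - 1 = b := hy
    have : (y - r) * (y + r) = 0 := by
      have h2 : r ^ 2 = (b + 1) / 2 := hr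
      have h3 : y ^ 2 = (b + 1) / 2 := by rw [← hy']; ring
      linear_combination h3 - h2
    rcases mul_eq_zero.1 this with h | h
    · left
      exact sub_eq_zero.1 h
    · right
      exact eq_neg_of_add_eq_zero_left h

theorem realIter_above {n m : ℕ} (t : Fin n → ℝ) :
    ∀ᶠ δ in 𝓝[>] (0 : ℝ), ((par n m t).1, (par n m t).2 + δ) ∉ realIter n m := by
  set a : Fin n → ℂ := fun i => (((par n m t).1 i : ℝ) : ℂ) with ha
  have h1 : (Set.pi univ fun i => {y : ℂ | (fun t : ℂ => 2 * t ^ 2 - 1)^[m] y = a i}).Finite :=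
    Set.Finite.pi fun i => iter_fiber_finite m (a i)
  have h2 : ((fun y : Fin n → ℂ => ∑ i, y i) ''
      (Set.pi univ fun i => {y : ℂ | (fun t : ℂ => 2 * t ^ 2 - 1)^[m] y = a i})).Finite :=
    h1.image _
  have h3 : {δ : ℝ | ((par n m t).1, (par n m t).2 + δ) ∈ realIter n m}.Finite := by
    refine Set.Finite.of_injOn (f := fun δ : ℝ => ((((par n m t).2 + δ : ℝ)) : ℂ)) ?_ ?_ h2
    · rintro δ ⟨y, hy, hs⟩
      exact ⟨y, fun i _ => hy i, hs.symm⟩
    · intro δ _ δ' _ h
      have := Complex.ofReal_injective h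
      linarith
  have h4 : ({δ : ℝ | ((par n m t).1, (par n m t).2 + δ) ∈ realIter n m} \ {0})ᶜ ∈ 𝓝 (0 : ℝ) :=
    (h3.subset sdiff_subset).isClosed.isOpen_compl.mem_nhds fun h => h.2 rfl
  filter_upwards [mem_nhdsWithin_of_mem_nhds h4, self_mem_nhdsWithin] with δ hδ hδ'
  intro h
  exact hδ ⟨h, ne_of_gt hδ'⟩

end Pool.Agent.Lib.MP_641cb6_lc.KH
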