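import Pool.Agent.Lib.MP_641cb6_lc.KH.Defs

/-!
# Board kh_modules: module PZ

The system `f i x + ε * x i ^ (d + 1) = 0` with `deg f i ≤ d` and `ε ≠ 0` has at most
`(d + 1) ^ n` real solutions.
-/

set_option autoImplicit false

namespace Pool.Agent.Lib.MP_641cb6_lc.KH

open Set MvPolynomial

namespace PZ

variable {n d : ℕ}

/-- The span of the reduced monomials, as functions on the finite set `Z`. -/
noncomputable def red (d : ℕ) (Z : Finset (Fin n → ℝ)) : Submodule ℝ (Z → ℝ) :=
  Submodule.span ℝ (Set.range fun m : Fin n → Fin (d + 1) => fun z : Z =>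
    ∏ i, z.1 i ^ (m i : ℕ))

theorem mono_mem (f : Fin n → MvPolynomial (Fin n) ℝ) (hf : ∀ i, (f i).totalDegree ≤ d)
    {ε : ℝ} (hε : ε ≠ 0) (Z : Finset (Fin n → ℝ))
    (hZ : ∀ z ∈ Z, ∀ i, eval z (f i) + ε * z i ^ (d + 1) = 0) :
    ∀ (N : ℕ) (m : Fin n → ℕ), ∑ i, m i ≤ N →
      (fun z : Z => ∏ i, z.1 i ^ m i) ∈ red d Z := by
  intro N
  induction N using Nat.strong_induction_on with
  | _ N ih =>
    intro m hm
    by_cases hall : ∀ i, m i < d + 1
    · refine Submodule.subset_span ⟨fun i => ⟨m i, hall i⟩, ?_⟩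
      rfl
    · push Not at hall
      obtain ⟨i, hi⟩ := hall
      obtain ⟨e, he⟩ := Nat.exists_eq_add_of_le hi
      -- the reduced exponent
      set m' : Fin n → ℕ := Function.update m i e with hm'
      have hprod : ∀ (z : Fin n → ℝ) (k : Fin n → ℕ), ∏ j, z j ^ (m' j + k j) =
          (∏ j, z j ^ m' j) * ∏ j, z j ^ k j := by
        intro z k
        rw [← Finset.prod_mul_distrib]
        exact Finset.prod_congr rfl fun j _ => pow_add _ _ _
      have hsplit : ∀ z : Fin n → ℝ, ∏ j, z j ^ m j = (∏ j, z j ^ m' j) * z i ^ (d + 1) := by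
        intro z
        have h1 : ∏ j, z j ^ m j = z i ^ m i * ∏ j ∈ Finset.univ.erase i, z j ^ m j :=
          (Finset.mul_prod_erase _ _ (Finset.mem_univ i)).symm
        have h2 : ∏ j, z j ^ m' j = z i ^ m' i * ∏ j ∈ Finset.univ.erase i, z j ^ m' j :=
          (Finset.mul_prod_erase _ _ (Finset.mem_univ i)).symm
        have h3 : ∏ j ∈ Finset.univ.erase i, z j ^ m' j =
            ∏ j ∈ Finset.univ.erase i, z j ^ m j := by
          refine Finset.prod_congr rfl fun j hj => ?_
          rw [hm', Function.update_of_ne (Finset.ne_of_mem_erase hj)]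
        have h4 : m' i = e := by rw [hm', Function.update_self]
        rw [h1, h2, h3, h4, he, pow_add]
        ring
      have hsum : ∑ j, m j = (∑ j, m' j) + (d + 1) := by
        have h1 : ∑ j, m j = m i + ∑ j ∈ Finset.univ.erase i, m j :=
          (Finset.add_sum_erase _ _ (Finset.mem_univ i)).symm
        have h2 : ∑ j, m' j = m' i + ∑ j ∈ Finset.univ.erase i, m' j :=
          (Finset.add_sum_erase _ _ (Finset.mem_univ i)).symm
        have h3 : ∑ j ∈ Finset.univ.erase i, m' j = ∑ j ∈ Finset.univ.erase i, m j := by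
          refine Finset.sum_congr rfl fun j hj => ?_
          rw [hm', Function.update_of_ne (Finset.ne_of_mem_erase hj)]
        have h4 : m' i = e := by rw [hm', Function.update_self]
        rw [h1, h2, h3, h4, he]
        ring
      have key : (fun z : Z => ∏ j, z.1 j ^ m j) =
          ∑ k ∈ (f i).support, (-(coeff k (f i) / ε)) •
            (fun z : Z => ∏ j, z.1 j ^ (m' j + k j)) := by
        funext z
        have h1 := hZ z.1 z.2 i
        rw [eval_eq'] at h1
        have h2 : z.1 i ^ (d + 1) = ∑ k ∈ (f i).support,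
            -(coeff k (f i) / ε) * ∏ j, z.1 j ^ k j := by
          have h3 : ∑ k ∈ (f i).support, -(coeff k (f i) / ε) * ∏ j, z.1 j ^ k j =
              -(∑ k ∈ (f i).support, coeff k (f i) * ∏ j, z.1 j ^ k j) / ε := by
            rw [← Finset.sum_neg_distrib, Finset.sum_div]
            refine Finset.sum_congr rfl fun k _ => ?_
            ring
          rw [h3, eq_div_iff hε]
          linarith
        rw [hsplit z.1, h2, Finset.mul_sum, Finset.sum_apply]
        refine Finset.sum_congr rfl fun k _ => ?_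
        rw [Pi.smul_apply, smul_eq_mul, hprod z.1 k]
        ring
      rw [key]
      refine Submodule.sum_mem _ fun k hk => Submodule.smul_mem _ _ ?_
      have hdeg : ∑ j, k j ≤ d := by
        have h1 := le_totalDegree hk
        rw [Finsupp.sum_fintype _ _ (fun _ => rfl)] at h1
        exact h1.trans (hf i)
      have hlt : ∑ j, (m' j + k j) < N := by
        rw [Finset.sum_add_distrib]
        omega
      exact ih _ hlt (fun j => m' j + k j) le_rfl

theorem poly_mem (f : Fin n → MvPolynomial (Fin n) ℝ) (hf : ∀ i, (f i).totalDegree ≤ d)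
    {ε : ℝ} (hε : ε ≠ 0) (Z : Finset (Fin n → ℝ))
    (hZ : ∀ z ∈ Z, ∀ i, eval z (f i) + ε * z i ^ (d + 1) = 0) (P : MvPolynomial (Fin n) ℝ) :
    (fun z : Z => eval z.1 P) ∈ red d Z := by
  have key : (fun z : Z => eval z.1 P) =
      ∑ k ∈ P.support, coeff k P • (fun z : Z => ∏ j, z.1 j ^ k j) := by
    funext z
    rw [eval_eq', Finset.sum_apply]
    refine Finset.sum_congr rfl fun k _ => ?_
    rw [Pi.smul_apply, smul_eq_mul]
  rw [key]
  exact Submodule.sum_mem _ fun k _ => Submodule.smul_mem _ _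
    (mono_mem f hf hε Z hZ _ (fun j => k j) le_rfl)

theorem exists_poly (Z : Finset (Fin n → ℝ)) (z₀ : Z) :
    ∃ P : MvPolynomial (Fin n) ℝ, ∀ z : Z, eval z.1 P = if z = z₀ then 1 else 0 := by
  classical
  have hne : ∀ z : Z, z ≠ z₀ → ∃ i, z₀.1 i - z.1 i ≠ 0 := by
    intro z hz
    by_contra h
    push Not at h
    apply hz
    apply Subtype.ext
    funext i
    linarith [h i]
  let g : Z → MvPolynomial (Fin n) ℝ := fun z =>
    if h : z = z₀ then 1 else
      C (1 / (z₀.1 (hne z h).choose - z.1 (hne z h).choose)) *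
        (X (hne z h).choose - C (z.1 (hne z h).choose))
  refine ⟨∏ z, g z, fun z => ?_⟩
  rw [map_prod]
  by_cases hz : z = z₀
  · rw [if_pos hz]
    refine Finset.prod_eq_one fun z' _ => ?_
    by_cases h' : z' = z₀
    · simp [g, h']
    · have h1 := (hne z' h').choose_spec
      simp only [g, dif_neg h', map_mul, map_sub, eval_C, eval_X, hz]
      rw [one_div, inv_mul_cancel₀ h1]
  · rw [if_neg hz]
    refine Finset.prod_eq_zero (Finset.mem_univ z) ?_
    simp [g, hz]

theorem card_le (f : Fin n → MvPolynomial (Fin n) ℝ) (hf : ∀ i, (f i).totalDegree ≤ d)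
    {ε : ℝ} (hε : ε ≠ 0) (Z : Finset (Fin n → ℝ))
    (hZ : ∀ z ∈ Z, ∀ i, eval z (f i) + ε * z i ^ (d + 1) = 0) :
    Z.card ≤ (d + 1) ^ n := by
  classical
  have htop : red d Z = ⊤ := by
    rw [eq_top_iff]
    intro g _
    have h1 : g = ∑ z : Z, g z • (fun z' : Z => if z' = z then (1 : ℝ) else 0) := by
      funext z'
      rw [Finset.sum_apply]
      simp only [Pi.smul_apply, smul_eq_mul]
      rw [Finset.sum_eq_single z']
      · simp
      · intro b _ hb
        rw [if_neg (Ne.symm hb), mul_zero]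
      · intro h
        exact absurd (Finset.mem_univ z') h
    rw [h1]
    refine Submodule.sum_mem _ fun z _ => Submodule.smul_mem _ _ ?_
    obtain ⟨P, hP⟩ := exists_poly Z z
    have h2 := poly_mem f hf hε Z hZ P
    have h3 : (fun z' : Z => eval z'.1 P) = fun z' : Z => if z' = z then (1 : ℝ) else 0 :=
      funext hP
    rw [h3] at h2
    exact h2
  have h1 : Module.finrank ℝ (red d Z) ≤ Fintype.card (Fin n → Fin (d + 1)) :=
    finrank_range_le_card _
  rw [htop, finrank_top, Module.finrank_fintype_fun_eq_card, Fintype.card_coe,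
    Fintype.card_fun, Fintype.card_fin, Fintype.card_fin] at h1
  exact h1

end PZ

theorem zeros_le {n d : ℕ} (f : Fin n → MvPolynomial (Fin n) ℝ) (hf : ∀ i, (f i).totalDegree ≤ d)
    {ε : ℝ} (hε : ε ≠ 0) :
    {x : Fin n → ℝ | ∀ i, eval x (f i) + ε * x i ^ (d + 1) = 0}.encard ≤ (d + 1) ^ n := by
  classical
  by_contra h
  rw [not_le] at h
  have h1 : (((d + 1) ^ n + 1 : ℕ) : ℕ∞) ≤
      {x : Fin n → ℝ | ∀ i, eval x (f i) + ε * x i ^ (d + 1) = 0}.encard := by
    have h2 := Order.add_one_le_of_lt h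
    push_cast
    exact h2
  obtain ⟨t, ht, htc⟩ := Set.exists_subset_encard_eq h1
  have hfin : t.Finite := Set.finite_of_encard_eq_coe htc
  have hc : hfin.toFinset.card ≤ (d + 1) ^ n :=
    PZ.card_le f hf hε hfin.toFinset fun z hz => ht (hfin.mem_toFinset.1 hz)
  have h3 : t.encard = hfin.toFinset.card := hfin.encard_eq_coe_toFinset_card
  rw [h3] at htc
  have h4 : hfin.toFinset.card = (d + 1) ^ n + 1 := by exact_mod_cast htc
  omega

end Pool.Agent.Lib.MP_641cb6_lc.KH
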