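import Pool.Agent.Lib.MP_641cb6_lc.KH.Loc

/-!
# PERT: persistence of nondegenerate zeros (helper57)
-/

set_option autoImplicit false

namespace Pool.Agent.Lib.MP_641cb6_lc.KH

open Set Topology MeasureTheory Filter

/-- a nondegenerate zero persists -/
theorem H57.persist {n : ℕ} {U : Set (Fin n → ℝ)} (hU : IsOpen U)
    {F H : Fin n → (Fin n → ℝ) → ℝ} (hF : ∀ i, ContDiffOn ℝ 1 (F i) U)
    (hH : ∀ i, ContDiffOn ℝ 1 (H i) U) {z : Fin n → ℝ} (hz : z ∈ nz U F)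
    {V : Set (Fin n → ℝ)} (hV : V ∈ 𝓝 z) :
    ∀ᶠ ε : ℝ in 𝓝 0, ∃ y ∈ V, ∀ i, F i y + ε * H i y = 0 := by
  obtain ⟨hzU, hz0, hd⟩ := hz
  obtain ⟨E, hED, hE⟩ := H57.strictE hU hF hzU hd
  have hHs := H57.strict hU hH hzU
  -- the map `(y, ε) ↦ (F y + ε H y, ε)`
  have hFp : HasStrictFDerivAt (fun p : (Fin n → ℝ) × ℝ => fun i => F i p.1)
      ((E : (Fin n → ℝ) →L[ℝ] (Fin n → ℝ)).comp (ContinuousLinearMap.fst ℝ _ ℝ)) (z, (0 : ℝ)) :=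
    HasStrictFDerivAt.comp (z, (0 : ℝ)) (g := fun y i => F i y) (f := Prod.fst) hE
      hasStrictFDerivAt_fst
  have hHp : HasStrictFDerivAt (fun p : (Fin n → ℝ) × ℝ => fun i => H i p.1)
      ((H57.D H z).comp (ContinuousLinearMap.fst ℝ _ ℝ)) (z, (0 : ℝ)) :=
    HasStrictFDerivAt.comp (z, (0 : ℝ)) (g := fun y i => H i y) (f := Prod.fst) hHs
      hasStrictFDerivAt_fst
  have hsnd : HasStrictFDerivAt (fun p : (Fin n → ℝ) × ℝ => p.2)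
      (ContinuousLinearMap.snd ℝ (Fin n → ℝ) ℝ) (z, (0 : ℝ)) := hasStrictFDerivAt_snd
  have hprod := (hFp.add (hsnd.smul hHp)).prodMk hsnd
  have hmap := hprod.map_nhds_eq_of_surj (by
    rw [LinearMap.range_eq_top]
    rintro ⟨u, e⟩
    refine ⟨(E.symm (u - e • fun i => H i z), e), ?_⟩
    simp)
  have hmem : {p : (Fin n → ℝ) × ℝ | p.1 ∈ V} ∈ 𝓝 (z, (0 : ℝ)) :=
    continuous_fst.continuousAt.preimage_mem_nhds hV
  have himg := Filter.image_mem_map (m := fun p : (Fin n → ℝ) × ℝ =>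
    (((fun i => F i p.1) + p.2 • fun i => H i p.1), p.2)) hmem
  have hmap' : Filter.map (fun p : (Fin n → ℝ) × ℝ =>
      (((fun i => F i p.1) + p.2 • fun i => H i p.1), p.2)) (𝓝 (z, (0 : ℝ))) =
      𝓝 ((0 : Fin n → ℝ), (0 : ℝ)) := by
    have e0 : (((fun i => F i z) + (0 : ℝ) • fun i => H i z), (0 : ℝ)) =
        ((0 : Fin n → ℝ), (0 : ℝ)) := by
      ext i
      · simp [hz0 i]
      · rfl
    rw [← e0]
    exact hmap
  rw [hmap'] at himg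
  have hcont : Filter.Tendsto (fun ε : ℝ => ((0 : Fin n → ℝ), ε)) (𝓝 0)
      (𝓝 ((0 : Fin n → ℝ), (0 : ℝ))) := by
    have : Continuous fun ε : ℝ => ((0 : Fin n → ℝ), ε) := by fun_prop
    exact this.tendsto 0
  filter_upwards [hcont himg] with ε hε
  obtain ⟨⟨y, ε'⟩, hy, hy2⟩ := hε
  have h1 := congrArg Prod.snd hy2
  have h2 := congrArg Prod.fst hy2
  simp only at h1 h2
  subst h1
  refine ⟨y, hy, fun i => ?_⟩
  have h3 := congrFun h2 i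
  simpa using h3

theorem perturb {n : ℕ} {U : Set (Fin n → ℝ)} (hU : IsOpen U) {F H : Fin n → (Fin n → ℝ) → ℝ}
    (hF : ∀ i, ContDiffOn ℝ 1 (F i) U) (hH : ∀ i, ContDiffOn ℝ 1 (H i) U)
    (Z : Finset (Fin n → ℝ)) (hZ : ↑Z ⊆ nz U F) :
    ∃ ε : ℝ, ε ≠ 0 ∧ (Z.card : ℕ∞) ≤ {x | x ∈ U ∧ ∀ i, F i x + ε * H i x = 0}.encard := by
  classical
  obtain ⟨W, hW, hdisj⟩ := (Z.finite_toSet).t2_separation
  have h1 : ∀ᶠ ε : ℝ in 𝓝 0, ∀ z ∈ Z, ∃ y ∈ U ∩ W z, ∀ i, F i y + ε * H i y = 0 := by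
    rw [Finset.eventually_all]
    intro z hz
    exact H57.persist hU hF hH (hZ hz)
      (Filter.inter_mem (hU.mem_nhds (hZ hz).1) ((hW z).2.mem_nhds (hW z).1))
  have h2 : ∀ᶠ ε : ℝ in 𝓝[≠] 0, ∀ z ∈ Z, ∃ y ∈ U ∩ W z, ∀ i, F i y + ε * H i y = 0 :=
    h1.filter_mono nhdsWithin_le_nhds
  obtain ⟨ε, h3, hε⟩ := (h2.and self_mem_nhdsWithin).exists
  refine ⟨ε, hε, ?_⟩
  choose! y hy hy0 using h3
  have hinj : InjOn y (Z : Set (Fin n → ℝ)) := by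
    intro a ha b hb hab
    by_contra hne
    exact (Set.disjoint_left.1 (hdisj ha hb hne)) (hy a ha).2 (hab ▸ (hy b hb).2)
  have h4 : (y '' (Z : Set (Fin n → ℝ))).encard = (Z.card : ℕ∞) := by
    rw [hinj.encard_image, Set.encard_coe_eq_coe_finsetCard]
  rw [← h4]
  refine Set.encard_le_encard ?_
  rintro _ ⟨z, hz, rfl⟩
  exact ⟨(hy z hz).1, hy0 z hz⟩

end Pool.Agent.Lib.MP_641cb6_lc.KH
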