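import Pool.Agent.Lib.MP_641cb6_lc.KH.Defs
import Pool.Agent.Lib.MP_641cb6_lc.KH.Comp
import Pool.Agent.Lib.MP_641cb6_lc.KH.PZ
import Pool.Agent.Lib.MP_641cb6_lc.KH.Pert

/-!
# FIN and BASE (helper97): sets all of whose finite subsets are small; polynomial systems
-/

set_option autoImplicit false

namespace Pool.Agent.Lib.MP_641cb6_lc.KH

open Set MvPolynomial

theorem encard_le_of_finset {α : Type} {s : Set α} {N : ℕ}
    (h : ∀ Z : Finset α, ↑Z ⊆ s → Z.card ≤ N) : s.encard ≤ N := by
  by_contra hlt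
  push Not at hlt
  have h1 : ((N + 1 : ℕ) : ℕ∞) ≤ s.encard := by
    push_cast
    exact Order.add_one_le_of_lt hlt
  obtain ⟨t, hts, ht⟩ := Set.exists_subset_encard_eq h1
  have hfin : t.Finite := Set.finite_of_encard_eq_coe ht
  have h2 := h hfin.toFinset (by rw [hfin.coe_toFinset]; exact hts)
  rw [hfin.encard_eq_coe_toFinset_card] at ht
  have h3 : hfin.toFinset.card = N + 1 := by exact_mod_cast ht
  omega

theorem contDiff_eval_mv {n : ℕ} (P : MvPolynomial (Fin n) ℝ) :
    ContDiff ℝ 1 fun x : Fin n → ℝ => eval x P := by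
  induction P using MvPolynomial.induction_on with
  | C a => simpa using contDiff_const
  | add p q hp hq => simpa using hp.add hq
  | mul_X p i hp => simpa using hp.mul (contDiff_apply ℝ ℝ i)

theorem base {n d : ℕ} (U : Set (Fin n → ℝ)) (p : Fin n → MvPolynomial (Fin n) ℝ)
    (hp : ∀ i, (p i).totalDegree ≤ d) :
    (nz U fun i x => eval x (p i)).encard ≤ (d + 1) ^ n := by
  have key : ∀ Z : Finset (Fin n → ℝ), ↑Z ⊆ nz U (fun i x => eval x (p i)) →
      Z.card ≤ (d + 1) ^ n := by
    intro Z hZ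
    have hZ' : ↑Z ⊆ nz (Set.univ) (fun i x => eval x (p i)) :=
      fun z hz => ⟨Set.mem_univ z, (hZ hz).2⟩
    obtain ⟨ε, hε, hcard⟩ := perturb (U := Set.univ) isOpen_univ
      (F := fun i x => eval x (p i)) (H := fun i x => x i ^ (d + 1))
      (fun i => (contDiff_eval_mv (p i)).contDiffOn)
      (fun i => ((contDiff_apply ℝ ℝ i).pow (d + 1)).contDiffOn) Z hZ'
    have h1 := zeros_le p hp hε
    have h2 : (Z.card : ℕ∞) ≤ (d + 1) ^ n := by
      refine hcard.trans (le_trans (Set.encard_le_encard ?_) h1)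
      rintro x ⟨-, hx⟩
      exact hx
    exact_mod_cast h2
  have := encard_le_of_finset key
  exact_mod_cast this

end Pool.Agent.Lib.MP_641cb6_lc.KH
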