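import Pool.Agent.Lib.MP_641cb6_lc.KH.Defs

/-!
# BDRY (helper17): the boundary function of `{w ≠ 0}`
-/

set_option autoImplicit false

namespace Pool.Agent.Lib.MP_641cb6_lc.KH

open Set MvPolynomial Topology

theorem bdry_contDiff_eval {n : ℕ} (P : MvPolynomial (Fin n) ℝ) :
    ContDiff ℝ 1 fun x : Fin n → ℝ => eval x P := by
  induction P using MvPolynomial.induction_on with
  | C a => simpa using contDiff_const
  | add p q hp hq => simpa using hp.add hq
  | mul_X p i hp => simpa using hp.mul (contDiff_apply ℝ ℝ i)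

theorem bdry_one_le {n : ℕ} (x : Fin n → ℝ) : 1 ≤ 1 + ∑ i, x i ^ 2 :=
  le_add_of_nonneg_right (Finset.sum_nonneg fun i _ => sq_nonneg (x i))

theorem bdry_pos {n : ℕ} (x : Fin n → ℝ) : 0 < 1 + ∑ i, x i ^ 2 :=
  lt_of_lt_of_le one_pos (bdry_one_le x)

theorem bdry_contDiff_sum {n : ℕ} : ContDiff ℝ 1 fun x : Fin n → ℝ => 1 + ∑ i, x i ^ 2 :=
  contDiff_const.add (ContDiff.sum fun i _ => (contDiff_apply ℝ ℝ i).pow 2)

/-- growth of a polynomial -/
theorem bdry_growth {n W : ℕ} (w : MvPolynomial (Fin n) ℝ) (hW : w.totalDegree ≤ W) :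
    ∃ C : ℝ, 0 ≤ C ∧ ∀ x : Fin n → ℝ, eval x w ^ 2 ≤ C * (1 + ∑ i, x i ^ 2) ^ W := by
  refine ⟨(∑ m ∈ w.support, |coeff m w|) ^ 2, sq_nonneg _, fun x => ?_⟩
  set s : ℝ := Real.sqrt (1 + ∑ i, x i ^ 2) with hs
  have hs1 : 1 ≤ s := by
    rw [hs]
    exact Real.one_le_sqrt.mpr (bdry_one_le x)
  have hs2 : s ^ 2 = 1 + ∑ i, x i ^ 2 := Real.sq_sqrt (bdry_pos x).le
  have hx : ∀ i, |x i| ≤ s := by
    intro i
    rw [hs]
    refine Real.le_sqrt_of_sq_le ?_
    rw [sq_abs]
    have h1 : x i ^ 2 ≤ ∑ i, x i ^ 2 :=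
      Finset.single_le_sum (f := fun i => x i ^ 2) (fun i _ => sq_nonneg (x i))
        (Finset.mem_univ i)
    linarith
  have h2 : |eval x w| ≤ (∑ m ∈ w.support, |coeff m w|) * s ^ W := by
    rw [eval_eq', Finset.sum_mul]
    refine (Finset.abs_sum_le_sum_abs _ _).trans (Finset.sum_le_sum fun m hm => ?_)
    rw [abs_mul]
    refine mul_le_mul_of_nonneg_left ?_ (abs_nonneg _)
    rw [Finset.abs_prod]
    calc ∏ i, |x i ^ m i| ≤ ∏ i, s ^ m i := by
          refine Finset.prod_le_prod (fun i _ => abs_nonneg _) fun i _ => ?_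
          rw [abs_pow]
          exact pow_le_pow_left₀ (abs_nonneg _) (hx i) _
      _ = s ^ (∑ i, m i) := Finset.prod_pow_eq_pow_sum _ _ _
      _ ≤ s ^ W := by
          refine pow_le_pow_right₀ hs1 (le_trans ?_ hW)
          have h3 := le_totalDegree hm
          rwa [Finsupp.sum_fintype _ _ (fun _ => rfl)] at h3
  calc eval x w ^ 2 = |eval x w| ^ 2 := (sq_abs _).symm
    _ ≤ ((∑ m ∈ w.support, |coeff m w|) * s ^ W) ^ 2 := pow_le_pow_left₀ (abs_nonneg _) h2 2
    _ = (∑ m ∈ w.support, |coeff m w|) ^ 2 * (1 + ∑ i, x i ^ 2) ^ W := by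
        rw [← hs2]
        ring

section BDRY

variable {n W : ℕ} (w : MvPolynomial (Fin n) ℝ)

theorem bdry_contDiff : ContDiff ℝ 1 (bdry w W) := by
  unfold bdry
  refine ContDiff.div ((bdry_contDiff_eval w).pow 2) (bdry_contDiff_sum.pow (W + 1)) fun x => ?_
  exact (pow_pos (bdry_pos x) _).ne'

theorem bdry_compact (hW : w.totalDegree ≤ W) {ε : ℝ} (hε : 0 < ε) :
    IsCompact {x | x ∈ {x : Fin n → ℝ | eval x w ≠ 0} ∧ ε ≤ bdry w W x} := by
  have h1 : {x | x ∈ {x : Fin n → ℝ | eval x w ≠ 0} ∧ ε ≤ bdry w W x} =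
      {x | ε ≤ bdry w W x} := by
    ext x
    refine ⟨fun h => h.2, fun h => ⟨?_, h⟩⟩
    intro h2
    have h3 : bdry w W x = 0 := by
      unfold bdry
      rw [h2]
      simp
    have h4 : ε ≤ bdry w W x := h
    linarith
  rw [h1]
  refine Metric.isCompact_of_isClosed_isBounded
    (isClosed_le continuous_const (bdry_contDiff w).continuous) ?_
  obtain ⟨C, hC0, hC⟩ := bdry_growth w hW
  refine (Metric.isBounded_closedBall (x := (0 : Fin n → ℝ)) (r := Real.sqrt (C / ε))).subset ?_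
  intro x hx
  have hx' : ε ≤ bdry w W x := hx
  unfold bdry at hx'
  rw [le_div_iff₀ (pow_pos (bdry_pos x) _)] at hx'
  have h5 : ε * (1 + ∑ i, x i ^ 2) ≤ C := by
    have h6 := hx'.trans (hC x)
    rw [pow_succ', ← mul_assoc] at h6
    exact le_of_mul_le_mul_right h6 (pow_pos (bdry_pos x) W)
  have h7 : 1 + ∑ i, x i ^ 2 ≤ C / ε := by
    rw [le_div_iff₀ hε]
    linarith
  rw [mem_closedBall_zero_iff]
  refine (pi_norm_le_iff_of_nonneg (Real.sqrt_nonneg _)).mpr fun i => ?_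
  rw [Real.norm_eq_abs]
  refine Real.le_sqrt_of_sq_le ?_
  rw [sq_abs]
  have h8 : x i ^ 2 ≤ ∑ i, x i ^ 2 :=
    Finset.single_le_sum (f := fun i => x i ^ 2) (fun i _ => sq_nonneg (x i)) (Finset.mem_univ i)
  linarith

theorem bdry_nz (F : Fin n → (Fin n → ℝ) → ℝ) (i₀ : Fin n) (t : ℝ) :
    nz {x | eval x w ≠ 0} (Function.update F i₀ fun x => bdry w W x - t) ⊆
      nz {x | eval x w ≠ 0} (Function.update F i₀
        fun x => eval x w ^ 2 - t * (1 + ∑ i, x i ^ 2) ^ (W + 1)) := by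
  rintro x ⟨hxU, hx0, hxd⟩
  have hpos : 0 < (1 + ∑ i, x i ^ 2) ^ (W + 1) := pow_pos (bdry_pos x) _
  have h0 : bdry w W x - t = 0 := by
    have := hx0 i₀
    simpa using this
  have hfun : (fun y : Fin n → ℝ => eval y w ^ 2 - t * (1 + ∑ i, y i ^ 2) ^ (W + 1)) =
      fun y => (1 + ∑ i, y i ^ 2) ^ (W + 1) * (bdry w W y - t) := by
    funext y
    have hy : 0 < (1 + ∑ i, y i ^ 2) ^ (W + 1) := pow_pos (bdry_pos y) _
    unfold bdry
    field_simp
  have hderiv : fderiv ℝ (fun y : Fin n → ℝ => eval y w ^ 2 - t * (1 + ∑ i, y i ^ 2) ^ (W + 1)) x =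
      ((1 + ∑ i, x i ^ 2) ^ (W + 1)) • fderiv ℝ (fun y => bdry w W y - t) x := by
    rw [hfun]
    have hA : DifferentiableAt ℝ (fun y : Fin n → ℝ => (1 + ∑ i, y i ^ 2) ^ (W + 1)) x :=
      ((bdry_contDiff_sum.pow (W + 1)).differentiable (by simp)) x
    have hB : DifferentiableAt ℝ (fun y : Fin n → ℝ => bdry w W y - t) x :=
      (((bdry_contDiff w).sub contDiff_const).differentiable (by simp)) x
    rw [fderiv_fun_mul hA hB, h0, zero_smul, add_zero]
  have hrow : jac (Function.update F i₀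
      fun x => eval x w ^ 2 - t * (1 + ∑ i, x i ^ 2) ^ (W + 1)) x =
      (jac (Function.update F i₀ fun x => bdry w W x - t) x).updateRow i₀
        (((1 + ∑ i, x i ^ 2) ^ (W + 1)) •
          (jac (Function.update F i₀ fun x => bdry w W x - t) x i₀)) := by
    ext i j
    by_cases hi : i = i₀
    · subst hi
      rw [Matrix.updateRow_self]
      unfold jac
      simp only [Matrix.of_apply, Function.update_self, Pi.smul_apply, smul_eq_mul]
      rw [hderiv]
      rfl
    · rw [Matrix.updateRow_ne hi]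
      unfold jac
      simp only [Matrix.of_apply, Function.update_of_ne hi]
  refine ⟨hxU, fun i => ?_, ?_⟩
  · by_cases hi : i = i₀
    · subst hi
      rw [Function.update_self]
      have h9 := congrFun hfun x
      rw [h9, h0, mul_zero]
    · rw [Function.update_of_ne hi]
      have := hx0 i
      rwa [Function.update_of_ne hi] at this
  · rw [hrow, Matrix.det_updateRow_smul, Matrix.updateRow_eq_self]
    exact mul_ne_zero hpos.ne' hxd

theorem bdry_poly (hW : w.totalDegree ≤ W) (t : ℝ) :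
    PolyType (2 * W + 2) fun x : Fin n → ℝ =>
      eval x w ^ 2 - t * (1 + ∑ i, x i ^ 2) ^ (W + 1) := by
  refine ⟨w ^ 2 - C t * (1 + ∑ i, X i ^ 2) ^ (W + 1), ?_, fun x => by simp⟩
  have h1 : (w ^ 2).totalDegree ≤ 2 * W + 2 := by
    have := totalDegree_pow w 2
    omega
  have h2 : (1 + ∑ i, X i ^ 2 : MvPolynomial (Fin n) ℝ).totalDegree ≤ 2 := by
    refine (totalDegree_add _ _).trans (max_le ?_ ?_)
    · rw [totalDegree_one]
      omega
    · refine totalDegree_finsetSum_le fun i _ => ?_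
      rw [totalDegree_X_pow]
  have h3 : (C t * (1 + ∑ i, X i ^ 2) ^ (W + 1) : MvPolynomial (Fin n) ℝ).totalDegree ≤
      2 * W + 2 := by
    refine (totalDegree_mul _ _).trans ?_
    rw [totalDegree_C, zero_add]
    refine (totalDegree_pow _ _).trans ?_
    calc (W + 1) * (1 + ∑ i, X i ^ 2 : MvPolynomial (Fin n) ℝ).totalDegree ≤ (W + 1) * 2 :=
          Nat.mul_le_mul_left _ h2
      _ = 2 * W + 2 := by ring
  exact (totalDegree_sub _ _).trans (max_le h1 h3)

end BDRY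

end Pool.Agent.Lib.MP_641cb6_lc.KH
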