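import Pool.Agent.Lib.MP_641cb6_lc.KH.Defs

/-!
# DET (helper17): the determinant of the Jacobian matrix times a power of `w` is a polynomial
-/

set_option autoImplicit false

namespace Pool.Agent.Lib.MP_641cb6_lc.KH

open Set MvPolynomial Topology

/-- the derivative of a polynomial function -/
theorem det_hasFDerivAt_eval {n : ℕ} (P : MvPolynomial (Fin n) ℝ) (x : Fin n → ℝ) :
    HasFDerivAt (fun y : Fin n → ℝ => eval y P)
      (∑ j, (eval x (pderiv j P)) • (ContinuousLinearMap.proj j : (Fin n → ℝ) →L[ℝ] ℝ)) x := by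
  induction P using MvPolynomial.induction_on with
  | C a =>
    have h1 : (fun y : Fin n → ℝ => eval y (C a : MvPolynomial (Fin n) ℝ)) = fun _ => a := by
      funext y
      simp
    rw [h1]
    have h2 : (∑ j, (eval x (pderiv j (C a : MvPolynomial (Fin n) ℝ))) •
        (ContinuousLinearMap.proj j : (Fin n → ℝ) →L[ℝ] ℝ)) = 0 := by
      simp
    rw [h2]
    exact hasFDerivAt_const a x
  | add p q hp hq =>
    have h1 : (fun y : Fin n → ℝ => eval y (p + q)) = fun y => eval y p + eval y q := by
      funext y
      simp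
    rw [h1]
    have h2 : (∑ j, (eval x (pderiv j (p + q))) •
        (ContinuousLinearMap.proj j : (Fin n → ℝ) →L[ℝ] ℝ)) =
        (∑ j, (eval x (pderiv j p)) • (ContinuousLinearMap.proj j : (Fin n → ℝ) →L[ℝ] ℝ)) +
        (∑ j, (eval x (pderiv j q)) • (ContinuousLinearMap.proj j : (Fin n → ℝ) →L[ℝ] ℝ)) := by
      rw [← Finset.sum_add_distrib]
      refine Finset.sum_congr rfl fun j _ => ?_
      rw [map_add, map_add, add_smul]
    rw [h2]
    exact hp.add hq
  | mul_X p i hp =>
    have h1 : (fun y : Fin n → ℝ => eval y (p * X i)) = fun y => eval y p * y i := by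
      funext y
      simp
    rw [h1]
    have h3 : HasFDerivAt (fun y : Fin n → ℝ => y i)
        (ContinuousLinearMap.proj i : (Fin n → ℝ) →L[ℝ] ℝ) x := hasFDerivAt_apply i x
    have h4 := hp.mul h3
    have h6 : (∑ j, (eval x (pderiv j (p * X i))) •
        (ContinuousLinearMap.proj j : (Fin n → ℝ) →L[ℝ] ℝ)) =
        eval x p • (ContinuousLinearMap.proj i : (Fin n → ℝ) →L[ℝ] ℝ) +
        x i • (∑ j, (eval x (pderiv j p)) •
          (ContinuousLinearMap.proj j : (Fin n → ℝ) →L[ℝ] ℝ)) := by
     ext v
     simp only [FunLike.coe_sum, Finset.sum_apply, FunLike.coe_smul, Pi.smul_apply,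
       ContinuousLinearMap.proj_apply, FunLike.coe_add, Pi.add_apply, smul_eq_mul,
       Derivation.leibniz, pderiv_X, map_add, map_mul, eval_X]
     rw [Finset.mul_sum]
     have h5 : ∀ j : Fin n, (eval x p * eval x ((Pi.single j 1 : Fin n → MvPolynomial (Fin n) ℝ) i) +
         x i * eval x (pderiv j p)) * v j =
         (if j = i then eval x p * v j else 0) + x i * (eval x (pderiv j p) * v j) := by
       intro j
       by_cases hj : j = i
       · subst hj
         simp
         ring
       · have hj' : i ≠ j := fun h => hj h.symm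
         simp only [Pi.single_eq_of_ne hj', map_zero, mul_zero, zero_add, if_neg hj]
         ring
     rw [Finset.sum_congr rfl fun j _ => h5 j, Finset.sum_add_distrib]
     simp
    rw [h6]
    exact h4

/-- the degree of a partial derivative -/
theorem det_totalDegree_pderiv {n : ℕ} (P : MvPolynomial (Fin n) ℝ) (j : Fin n) :
    (pderiv j P).totalDegree ≤ P.totalDegree := by
  rw [totalDegree_eq, Finset.sup_le_iff]
  intro m hm
  have h1 : coeff m (pderiv j P) ≠ 0 := by
    rwa [mem_support_iff] at hm
  rw [coeff_pderiv] at h1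
  have h2 : coeff (m + Finsupp.single j 1) P ≠ 0 := by
    intro h
    rw [h] at h1
    simp at h1
  have h3 : m + Finsupp.single j 1 ∈ P.support := by
    rwa [mem_support_iff]
  have h4 := le_totalDegree h3
  refine le_trans ?_ h4
  rw [Finsupp.card_toMultiset]
  rw [Finsupp.sum_add_index' (fun _ => rfl) (fun _ _ _ => rfl)]
  exact Nat.le_add_right _ _

/-- the degree of a determinant -/
theorem det_totalDegree_det {n e : ℕ} (M : Matrix (Fin n) (Fin n) (MvPolynomial (Fin n) ℝ))
    (hM : ∀ i j, (M i j).totalDegree ≤ e) : M.det.totalDegree ≤ n * e := by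
  rw [Matrix.det_apply]
  refine totalDegree_finsetSum_le fun σ _ => ?_
  have h1 : (Equiv.Perm.sign σ • ∏ i, M (σ i) i).totalDegree ≤
      (∏ i, M (σ i) i).totalDegree := by
    rcases Int.units_eq_one_or (Equiv.Perm.sign σ) with h | h
    · rw [h, one_smul]
    · rw [h]
      simp
  refine h1.trans ((totalDegree_finsetProd _ _).trans ?_)
  calc ∑ i, (M (σ i) i).totalDegree ≤ ∑ _i : Fin n, e := Finset.sum_le_sum fun i _ => hM _ _
    _ = n * e := by simp

theorem det_poly {n D d : ℕ} {w : MvPolynomial (Fin n) ℝ} {F : Fin n → (Fin n → ℝ) → ℝ}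
    (S : Finset (Fin n)) (hS : ∀ i ∈ S, LogType w D (F i))
    (hS' : ∀ i, i ∉ S → PolyType d (F i)) :
    ∃ Q : MvPolynomial (Fin n) ℝ, Q.totalDegree ≤ n * (D + d) ∧
      ∀ x, eval x w ≠ 0 → eval x Q = eval x w ^ S.card * (jac F x).det := by
  classical
  have h1 : ∀ i : Fin n, ∃ r : Fin n → MvPolynomial (Fin n) ℝ, (∀ j, (r j).totalDegree ≤ D + d) ∧
      ∀ x, eval x w ≠ 0 → ∀ j, eval x (r j) =
        (if i ∈ S then eval x w else 1) * jac F x i j := by
    intro i
    by_cases hi : i ∈ S
    · obtain ⟨q, hq0, hq⟩ := hS i hi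
      refine ⟨q, fun j => (hq0 j).trans (Nat.le_add_right _ _), fun x hx j => ?_⟩
      rw [if_pos hi]
      unfold jac
      rw [Matrix.of_apply, (hq x hx).fderiv]
      simp only [FunLike.coe_sum, Finset.sum_apply, FunLike.coe_smul, Pi.smul_apply,
        ContinuousLinearMap.proj_apply, smul_eq_mul]
      rw [Finset.sum_eq_single j]
      · simp
        field_simp
      · intro k _ hk
        simp [hk]
      · intro h
        exact absurd (Finset.mem_univ j) h
    · obtain ⟨p, hp0, hp⟩ := hS' i hi
      refine ⟨fun j => pderiv j p, fun j => (det_totalDegree_pderiv p j).trans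
        (hp0.trans (Nat.le_add_left _ _)), fun x hx j => ?_⟩
      rw [if_neg hi]
      unfold jac
      have h2 : F i = fun y => eval y p := funext hp
      rw [Matrix.of_apply, h2, (det_hasFDerivAt_eval p x).fderiv]
      simp only [FunLike.coe_sum, Finset.sum_apply, FunLike.coe_smul, Pi.smul_apply,
        ContinuousLinearMap.proj_apply, smul_eq_mul]
      rw [Finset.sum_eq_single j]
      · simp
      · intro k _ hk
        simp [hk]
      · intro h
        exact absurd (Finset.mem_univ j) h
  choose r hr0 hr using h1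
  refine ⟨(Matrix.of r).det, det_totalDegree_det _ hr0, fun x hx => ?_⟩
  have h3 : eval x (Matrix.of r).det = ((eval x).mapMatrix (Matrix.of r)).det :=
    RingHom.map_det _ _
  have h4 : (eval x).mapMatrix (Matrix.of r) =
      Matrix.diagonal (fun i => if i ∈ S then eval x w else 1) * jac F x := by
    ext i j
    rw [Matrix.diagonal_mul, RingHom.mapMatrix_apply, Matrix.map_apply, Matrix.of_apply]
    exact hr i x hx j
  rw [h3, h4, Matrix.det_mul, Matrix.det_diagonal]
  congr 1
  rw [Finset.prod_ite]
  simp

end Pool.Agent.Lib.MP_641cb6_lc.KH
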