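import Pool.Agent.Lib.MP_641cb6_lc.KH.Defs

/-!
# LT (helper17): functions of logarithmic type and of polynomial type
-/

set_option autoImplicit false

namespace Pool.Agent.Lib.MP_641cb6_lc.KH

open Set MvPolynomial Topology

section LT

variable {n D d : ℕ} {w : MvPolynomial (Fin n) ℝ} {g : (Fin n → ℝ) → ℝ}

theorem lt_contDiff_eval (P : MvPolynomial (Fin n) ℝ) :
    ContDiff ℝ 1 fun x : Fin n → ℝ => eval x P := by
  induction P using MvPolynomial.induction_on with
  | C a => simpa using contDiff_const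
  | add p q hp hq => simpa using hp.add hq
  | mul_X p i hp => simpa using hp.mul (contDiff_apply ℝ ℝ i)

theorem isOpen_ne (w : MvPolynomial (Fin n) ℝ) : IsOpen {x : Fin n → ℝ | eval x w ≠ 0} :=
  isOpen_ne_fun (lt_contDiff_eval w).continuous continuous_const

theorem logType_contDiffOn (h : LogType w D g) : ContDiffOn ℝ 1 g {x | eval x w ≠ 0} := by
  obtain ⟨q, -, hq⟩ := h
  have hopen := isOpen_ne w
  have h1 : (1 : WithTop ℕ∞) = 0 + 1 := by simp
  rw [h1, contDiffOn_succ_iff_fderiv_of_isOpen hopen]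
  refine ⟨fun x hx => (hq x hx).differentiableAt.differentiableWithinAt, by simp, ?_⟩
  rw [contDiffOn_zero]
  have hc : ContinuousOn (fun x : Fin n → ℝ => ∑ j, (eval x (q j) / eval x w) •
      (ContinuousLinearMap.proj j : (Fin n → ℝ) →L[ℝ] ℝ)) {x | eval x w ≠ 0} := by
    refine continuousOn_finsetSum _ fun j _ => ?_
    have h2 : ContinuousOn (fun x : Fin n → ℝ => eval x (q j) / eval x w)
        {x | eval x w ≠ 0} :=
      ((lt_contDiff_eval (q j)).continuous.continuousOn).div
        (lt_contDiff_eval w).continuous.continuousOn fun x hx => hx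
    exact h2.smul continuousOn_const
  exact hc.congr fun x hx => (hq x hx).fderiv

theorem logType_sub_const (h : LogType w D g) (c : ℝ) : LogType w D fun x => g x - c := by
  obtain ⟨q, hq0, hq⟩ := h
  exact ⟨q, hq0, fun x hx => (hq x hx).sub_const c⟩

theorem polyType_contDiff (h : PolyType d g) : ContDiff ℝ 1 g := by
  obtain ⟨p, -, hp⟩ := h
  have h1 : g = fun x => eval x p := funext hp
  rw [h1]
  exact lt_contDiff_eval p

theorem polyType_sub_const (h : PolyType d g) (c : ℝ) : PolyType d fun x => g x - c := by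
  obtain ⟨p, hd, hp⟩ := h
  refine ⟨p - C c, (totalDegree_sub_C_le p c).trans hd, fun x => ?_⟩
  simp [hp x]

theorem polyType_mono {d' : ℕ} (h : PolyType d g) (hd : d ≤ d') : PolyType d' g := by
  obtain ⟨p, h1, hp⟩ := h
  exact ⟨p, h1.trans hd, hp⟩

end LT

end Pool.Agent.Lib.MP_641cb6_lc.KH
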