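import Pool.Agent.Lib.MP_641cb6_lc.KH.H57Aux

/-!
# LOC: the inverse function theorem for `n` functions of `n` variables (helper57)
-/

set_option autoImplicit false

namespace Pool.Agent.Lib.MP_641cb6_lc.KH

open Set Topology MeasureTheory

theorem H57.strictE {n : ℕ} {U : Set (Fin n → ℝ)} (hU : IsOpen U)
    {F : Fin n → (Fin n → ℝ) → ℝ} (hF : ∀ i, ContDiffOn ℝ 1 (F i) U) {x : Fin n → ℝ} (hx : x ∈ U)
    (hd : (jac F x).det ≠ 0) :
    ∃ E : (Fin n → ℝ) ≃L[ℝ] (Fin n → ℝ), (E : (Fin n → ℝ) →L[ℝ] (Fin n → ℝ)) = H57.D F x ∧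
      HasStrictFDerivAt (fun y i => F i y) (E : (Fin n → ℝ) →L[ℝ] (Fin n → ℝ)) x := by
  have h : (H57.D F x).det ≠ 0 := by
    rw [H57.det_D]
    exact hd
  refine ⟨(H57.D F x).toContinuousLinearEquivOfDetNeZero h, ?_, ?_⟩
  · ext v i
    simp
  · have e : (((H57.D F x).toContinuousLinearEquivOfDetNeZero h :
        (Fin n → ℝ) ≃L[ℝ] (Fin n → ℝ)) : (Fin n → ℝ) →L[ℝ] (Fin n → ℝ)) = H57.D F x := by
      ext v i
      simp
    rw [e]
    exact H57.strict hU hF hx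

theorem loc_inj {n : ℕ} {U : Set (Fin n → ℝ)} (hU : IsOpen U) {F : Fin n → (Fin n → ℝ) → ℝ}
    (hF : ∀ i, ContDiffOn ℝ 1 (F i) U) {x : Fin n → ℝ} (hx : x ∈ U) (hd : (jac F x).det ≠ 0) :
    ∃ V ∈ 𝓝 x, InjOn (fun y i => F i y) V := by
  obtain ⟨E, -, hE⟩ := H57.strictE hU hF hx hd
  refine ⟨(hE.toOpenPartialHomeomorph _).source,
    (hE.toOpenPartialHomeomorph _).open_source.mem_nhds hE.mem_toOpenPartialHomeomorph_source, ?_⟩
  have h := (hE.toOpenPartialHomeomorph _).injOn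
  rw [hE.toOpenPartialHomeomorph_coe] at h
  exact h

theorem loc_open {n : ℕ} {U : Set (Fin n → ℝ)} (hU : IsOpen U) {F : Fin n → (Fin n → ℝ) → ℝ}
    (hF : ∀ i, ContDiffOn ℝ 1 (F i) U) {x : Fin n → ℝ} (hx : x ∈ U) (hd : (jac F x).det ≠ 0)
    {V : Set (Fin n → ℝ)} (hV : V ∈ 𝓝 x) :
    ∃ r > 0, ∀ v : Fin n → ℝ, (∀ i, |v i - F i x| < r) → ∃ y ∈ V, ∀ i, F i y = v i := by
  obtain ⟨E, -, hE⟩ := H57.strictE hU hF hx hd
  have h1 : (fun y i => F i y) '' V ∈ 𝓝 (fun i => F i x) := by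
    have h2 := hE.map_nhds_eq_of_equiv
    rw [← h2]
    exact Filter.image_mem_map hV
  obtain ⟨r, hr, hball⟩ := Metric.mem_nhds_iff.1 h1
  refine ⟨r, hr, fun v hv => ?_⟩
  have h3 : v ∈ Metric.ball (fun i => F i x) r := by
    rw [Metric.mem_ball, dist_pi_lt_iff hr]
    intro i
    rw [Real.dist_eq]
    exact hv i
  obtain ⟨y, hy, hyv⟩ := hball h3
  exact ⟨y, hy, fun i => congrFun hyv i⟩

end Pool.Agent.Lib.MP_641cb6_lc.KH
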