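import Pool.Agent.Lib.MP_641cb6_lc.KH.H57Aux

/-!
# SARD: critical values in equal dimensions, generic parameters (helper57)
-/

set_option autoImplicit false

namespace Pool.Agent.Lib.MP_641cb6_lc.KH

open Set Topology MeasureTheory

theorem sard {n : ℕ} {U : Set (Fin n → ℝ)} (hU : IsOpen U) {G : Fin n → (Fin n → ℝ) → ℝ}
    (hG : ∀ i, ContDiffOn ℝ 1 (G i) U) :
    volume ((fun x i => G i x) '' {x | x ∈ U ∧ (jac G x).det = 0}) = 0 := by
  refine addHaar_image_eq_zero_of_det_fderivWithin_eq_zero volume (f' := H57.D G)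
    (fun x hx => ?_) (fun x hx => ?_)
  · exact (H57.strict hU hG hx.1).hasFDerivAt.hasFDerivWithinAt
  · rw [H57.det_D]
    exact hx.2

theorem generic {n : ℕ} (i₀ : Fin n) {K₁ K₂ K₃ : Set (Fin n → ℝ)} (h₁ : volume K₁ = 0)
    (h₂ : volume K₂ = 0) (h₃ : volume K₃ = 0) {δ : ℝ} (hδ : 0 < δ) :
    ∃ v : Fin n → ℝ, (∀ i, |v i| < δ) ∧ 0 < v i₀ ∧ v ∉ K₁ ∧
      Function.update v i₀ (-v i₀) ∉ K₂ ∧ v ∉ K₃ := by
  classical
  set L : (Fin n → ℝ) →ₗ[ℝ] (Fin n → ℝ) :=
    Matrix.toLin' (Matrix.diagonal fun i => if i = i₀ then (-1 : ℝ) else 1) with hL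
  have hdet : LinearMap.det L ≠ 0 := by
    rw [hL, LinearMap.det_toLin', Matrix.det_diagonal]
    refine Finset.prod_ne_zero_iff.2 fun i _ => ?_
    split_ifs <;> norm_num
  have hLv : ∀ v, L v = Function.update v i₀ (-v i₀) := by
    intro v
    ext i
    rw [hL, Matrix.toLin'_apply, Matrix.mulVec_diagonal]
    by_cases hi : i = i₀
    · subst hi
      simp
    · simp [hi]
  have h₂' : volume (L ⁻¹' K₂) = 0 := by
    rw [Measure.addHaar_preimage_linearMap volume hdet, h₂, mul_zero]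
  set O : Set (Fin n → ℝ) := {v | (∀ i, |v i| < δ) ∧ 0 < v i₀} with hO
  have hOo : IsOpen O := by
    rw [hO, Set.ofPred_and]
    refine IsOpen.inter ?_ ?_
    · rw [Set.ofPred_forall]
      exact isOpen_iInter_of_finite fun i => isOpen_lt (by fun_prop) continuous_const
    · exact isOpen_lt continuous_const (by fun_prop)
  have hOn : O.Nonempty := ⟨fun _ => δ / 2, fun _ => by
    rw [abs_of_pos (by linarith)]
    linarith, by
    show 0 < δ / 2
    linarith⟩
  have hpos := hOo.measure_pos volume hOn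
  by_contra hcon
  push Not at hcon
  have hsub : O ⊆ K₁ ∪ L ⁻¹' K₂ ∪ K₃ := by
    intro v hv
    by_cases a1 : v ∈ K₁
    · exact Or.inl (Or.inl a1)
    by_cases a2 : Function.update v i₀ (-v i₀) ∈ K₂
    · refine Or.inl (Or.inr ?_)
      rw [mem_preimage, hLv]
      exact a2
    · exact Or.inr (hcon v hv.1 hv.2 a1 a2)
  have hz : volume (K₁ ∪ L ⁻¹' K₂ ∪ K₃) = 0 :=
    measure_union_null (measure_union_null h₁ h₂') h₃
  exact absurd (measure_mono_null hsub hz) hpos.ne'

end Pool.Agent.Lib.MP_641cb6_lc.KH
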