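import Pool.Agent.Lib.MP_641cb6_lc.KH.Sweep
import Pool.Agent.Lib.MP_641cb6_lc.KH.Sard
import Pool.Agent.Lib.MP_641cb6_lc.KH.Loc

/-!
# RK: the lemma of Rolle and Khovanskii
-/

set_option autoImplicit false

namespace Pool.Agent.Lib.MP_641cb6_lc.KH

open Set Topology MeasureTheory

/-- subtracting constants and replacing a function does not change the other rows -/
theorem jac_update_sub {n : ℕ} {F : Fin n → (Fin n → ℝ) → ℝ} (i₀ : Fin n)
    (G : (Fin n → ℝ) → ℝ) (c : Fin n → ℝ) (t : ℝ) (x : Fin n → ℝ) :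
    jac (Function.update (fun i x => F i x - c i) i₀ fun x => G x - t) x =
      jac (Function.update F i₀ G) x := by
  ext i j
  simp only [jac, Matrix.of_apply]
  by_cases hi : i = i₀
  · subst hi
    rw [Function.update_self, Function.update_self, fderiv_sub_const]
  · rw [Function.update_of_ne hi, Function.update_of_ne hi, fderiv_sub_const]

/-- a solution of the system for a value that is not critical is nondegenerate -/
theorem mem_nz_of_not_crit {n : ℕ} {U : Set (Fin n → ℝ)} {F : Fin n → (Fin n → ℝ) → ℝ}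
    (i₀ : Fin n) {G : (Fin n → ℝ) → ℝ} {v c : Fin n → ℝ} {t : ℝ}
    (hc : ∀ i, i ≠ i₀ → c i = v i) (ht : v i₀ = t)
    (hv : v ∉ (fun x i => Function.update F i₀ G i x) ''
      {x | x ∈ U ∧ (jac (Function.update F i₀ G) x).det = 0}) {x : Fin n → ℝ} (hx : x ∈ U)
    (hF : ∀ i, i ≠ i₀ → F i x = c i) (hG : G x = t) :
    x ∈ nz U (Function.update (fun i x => F i x - c i) i₀ fun x => G x - t) := by
  refine ⟨hx, fun i => ?_, ?_⟩
  · by_cases hi : i = i₀
    · subst hi
      rw [Function.update_self, hG, sub_self]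
    · rw [Function.update_of_ne hi, hF i hi, sub_self]
  · rw [jac_update_sub]
    intro h0
    apply hv
    refine ⟨x, ⟨hx, h0⟩, ?_⟩
    funext i
    by_cases hi : i = i₀
    · subst hi
      simp only [Function.update_self]
      rw [hG, ht]
    · simp only [Function.update_of_ne hi]
      rw [hF i hi, hc i hi]

theorem rolle {n : ℕ} {U : Set (Fin n → ℝ)} (hU : IsOpen U) {F : Fin n → (Fin n → ℝ) → ℝ}
    (hF : ∀ i, ContDiffOn ℝ 1 (F i) U) (i₀ : Fin n)
    {J : (Fin n → ℝ) → ℝ} (hJ : ContDiffOn ℝ 1 J U) (hJ0 : ∀ x ∈ U, J x ≠ 0 ↔ (jac F x).det ≠ 0)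
    {β : (Fin n → ℝ) → ℝ} (hβ : ContDiffOn ℝ 1 β U) (hβ0 : ∀ x ∈ U, 0 < β x)
    (hβc : ∀ ε : ℝ, 0 < ε → IsCompact {x | x ∈ U ∧ ε ≤ β x})
    (Z : Finset (Fin n → ℝ)) (hZ : ↑Z ⊆ nz U F) :
    ∃ (c : Fin n → ℝ) (t : ℝ), 0 < t ∧ (Z.card : ℕ∞) ≤
      (nz U (Function.update (fun i x => F i x - c i) i₀ fun x => J x - t)).encard +
      (nz U (Function.update (fun i x => F i x - c i) i₀ fun x => J x + t)).encard +
      (nz U (Function.update (fun i x => F i x - c i) i₀ fun x => β x - t)).encard := by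
  classical
  -- disjoint neighbourhoods
  obtain ⟨W, hW, hWd⟩ := Z.finite_toSet.t2_separation
  -- local data at the zeros
  have hloc : ∀ z ∈ Z, ∃ r > 0, ∀ v : Fin n → ℝ, (∀ i, |v i| < r) →
      ∃ y ∈ U ∩ W z, (∀ i, F i y = v i) ∧ r ≤ |J y| ∧ r ≤ β y := by
    intro z hz
    obtain ⟨hzU, hz0, hzd⟩ := hZ (Finset.mem_coe.2 hz)
    have hJz : 0 < |J z| := abs_pos.2 ((hJ0 z hzU).2 hzd)
    have hβz := hβ0 z hzU
    have hUz := hU.mem_nhds hzU
    have hcJ : ContinuousAt (fun y => |J y|) z := (hJ.continuousOn.continuousAt hUz).abs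
    have hcβ : ContinuousAt β z := hβ.continuousOn.continuousAt hUz
    have hV : {y | y ∈ U ∩ W z ∧ |J z| / 2 < |J y| ∧ β z / 2 < β y} ∈ 𝓝 z := by
      have h1 : ∀ᶠ y in 𝓝 z, |J z| / 2 < |J y| := hcJ.eventually_const_lt (by linarith)
      have h2 : ∀ᶠ y in 𝓝 z, β z / 2 < β y := hcβ.eventually_const_lt (by linarith)
      filter_upwards [hUz, (hW z).2.mem_nhds (hW z).1, h1, h2] with y a b c d
      exact ⟨⟨a, b⟩, c, d⟩
    obtain ⟨r, hr, hr'⟩ := loc_open hU hF hzU hzd hV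
    refine ⟨min r (min (|J z| / 2) (β z / 2)), lt_min hr (lt_min (by linarith) (by linarith)),
      fun v hv => ?_⟩
    obtain ⟨y, ⟨hy1, hy2, hy3⟩, hy4⟩ := hr' v fun i => by
      rw [hz0 i, sub_zero]
      exact (hv i).trans_le (min_le_left _ _)
    refine ⟨y, hy1, hy4, ?_, ?_⟩
    · exact (min_le_right _ _).trans ((min_le_left _ _).trans hy2.le)
    · exact (min_le_right _ _).trans ((min_le_right _ _).trans hy3.le)
  choose! r hr hr' using hloc
  obtain ⟨δ, hδ, hδr⟩ : ∃ δ > 0, ∀ z ∈ Z, δ ≤ r z := by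
    rcases Z.eq_empty_or_nonempty with rfl | hne
    · exact ⟨1, one_pos, fun z hz => absurd hz (Finset.notMem_empty z)⟩
    · obtain ⟨z₀, hz₀, hmin⟩ := Z.exists_min_image r hne
      exact ⟨r z₀, hr z₀ hz₀, hmin⟩
  -- a generic value
  have hupd : ∀ G : (Fin n → ℝ) → ℝ, ContDiffOn ℝ 1 G U →
      ∀ i, ContDiffOn ℝ 1 (Function.update F i₀ G i) U := by
    intro G hG i
    by_cases hi : i = i₀
    · subst hi
      rw [Function.update_self]
      exact hG
    · rw [Function.update_of_ne hi]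
      exact hF i
  obtain ⟨v, hv1, hv2, hv3, hv4, hv5⟩ := generic i₀ (sard hU (hupd J hJ)) (sard hU (hupd J hJ))
    (sard hU (hupd β hβ)) hδ
  set t := v i₀ with ht
  have htδ : t < δ := (le_abs_self _).trans_lt (hv1 i₀)
  refine ⟨v, t, hv2, ?_⟩
  set A : Set (Fin n → ℝ) := {x | (x ∈ U ∧ t ≤ β x) ∧ t ≤ |J x| ∧ ∀ i, i ≠ i₀ → F i x = v i}
    with hA
  set B : Set (Fin n → ℝ) := {x | x ∈ A ∧ (|J x| = t ∨ β x = t)} with hB
  have hAU : A ⊆ U := fun x hx => hx.1.1
  have hAc : IsCompact A := by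
    have h1 := hβc t hv2
    have h2 : IsClosed ({x | x ∈ U ∧ t ≤ β x} ∩ (fun x => |J x|) ⁻¹' Ici t) :=
      ContinuousOn.preimage_isClosed_of_isClosed
        ((hJ.continuousOn.mono fun x hx => hx.1).abs) h1.isClosed isClosed_Ici
    have h3 : IsClosed (⋂ i : {i : Fin n // i ≠ i₀},
        ({x | x ∈ U ∧ t ≤ β x} ∩ (F i) ⁻¹' {v i})) :=
      isClosed_iInter fun i => ContinuousOn.preimage_isClosed_of_isClosed
        ((hF i).continuousOn.mono fun x hx => hx.1) h1.isClosed isClosed_singleton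
    refine h1.of_isClosed_subset (s := {x | x ∈ U ∧ t ≤ β x}) ?_ fun x hx => hx.1
    have h4 : A = ({x | x ∈ U ∧ t ≤ β x} ∩ (fun x => |J x|) ⁻¹' Ici t) ∩
        (⋂ i : {i : Fin n // i ≠ i₀}, (({x | x ∈ U ∧ t ≤ β x} ∩ (F i) ⁻¹' {v i}))) ∪
        ({x | x ∈ U ∧ t ≤ β x} ∩ (fun x => |J x|) ⁻¹' Ici t) ∩
        (⋂ i : {i : Fin n // i ≠ i₀}, (({x | x ∈ U ∧ t ≤ β x} ∩ (F i) ⁻¹' {v i}))) := by
      ext x
      simp only [hA, mem_union, or_self, mem_inter_iff, mem_iInter, mem_preimage, mem_Ici,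
        mem_singleton_iff, Set.mem_ofPred_eq, Subtype.forall]
      constructor
      · rintro ⟨a, b, c⟩
        exact ⟨⟨a, b⟩, fun i hi => ⟨a, c i hi⟩⟩
      · rintro ⟨⟨a, b⟩, c⟩
        exact ⟨a, b, fun i hi => (c i hi).2⟩
    rw [h4, union_self]
    exact h2.inter h3
  have hdet : ∀ x ∈ A, (jac F x).det ≠ 0 := by
    intro x hx
    refine (hJ0 x (hAU hx)).1 ?_
    have := hx.2.1
    exact abs_pos.1 (hv2.trans_le this)
  -- the sweeping lemma
  have hsw : {x | x ∈ A ∧ F i₀ x = 0}.encard ≤ B.encard := by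
    refine sweep hAc (fun x hx => hx.1) ((hF i₀).continuousOn.mono hAU) ?_ ?_
    · intro x hx
      obtain ⟨V, hV, hinj⟩ := loc_inj hU hF (hAU hx) (hdet x hx)
      refine ⟨V, hV, fun y hy y' hy' h => hinj hy.2 hy'.2 ?_⟩
      funext i
      by_cases hi : i = i₀
      · rw [hi]
        exact h
      · show F i y = F i y'
        rw [hy.1.2.2 i hi, hy'.1.2.2 i hi]
    · intro x hx hxB V hV
      have hJx : t < |J x| := lt_of_le_of_ne hx.2.1 fun h => hxB ⟨hx, Or.inl h.symm⟩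
      have hβx : t < β x := lt_of_le_of_ne hx.1.2 fun h => hxB ⟨hx, Or.inr h.symm⟩
      have hUx := hU.mem_nhds (hAU hx)
      have h1 : ∀ᶠ y in 𝓝 x, t < |J y| :=
        (hJ.continuousOn.continuousAt hUx).abs.eventually_const_lt hJx
      have h2 : ∀ᶠ y in 𝓝 x, t < β y :=
        (hβ.continuousOn.continuousAt hUx).eventually_const_lt hβx
      have hV' : {y | y ∈ U ∧ y ∈ V ∧ t < |J y| ∧ t < β y} ∈ 𝓝 x := by
        filter_upwards [hUx, hV, h1, h2] with y a b c d
        exact ⟨a, b, c, d⟩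
      obtain ⟨r', hr0, hr1⟩ := loc_open hU hF (hAU hx) (hdet x hx) hV'
      refine ⟨r', hr0, fun τ hτ => ?_⟩
      obtain ⟨y, ⟨hy1, hy2, hy3, hy4⟩, hy5⟩ := hr1 (Function.update (fun i => F i x) i₀ τ) fun i => by
        by_cases hi : i = i₀
        · subst hi
          rw [Function.update_self]
          exact hτ
        · rw [Function.update_of_ne hi, sub_self, abs_zero]
          exact hr0
      refine ⟨y, ⟨⟨⟨hy1, hy4.le⟩, hy3.le, fun i hi => ?_⟩, hy2⟩, ?_⟩
      · rw [hy5 i, Function.update_of_ne hi, hx.2.2 i hi]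
      · rw [hy5 i₀, Function.update_self]
  -- the zeros move into `A`
  have hZA : (Z.card : ℕ∞) ≤ {x | x ∈ A ∧ F i₀ x = 0}.encard := by
    have h1 : ∀ z ∈ Z, ∃ y, y ∈ W z ∧ y ∈ {x | x ∈ A ∧ F i₀ x = 0} := by
      intro z hz
      obtain ⟨y, hy1, hy2, hy3, hy4⟩ := hr' z hz (Function.update v i₀ 0) fun i => by
        by_cases hi : i = i₀
        · subst hi
          rw [Function.update_self, abs_zero]
          exact hr z hz
        · rw [Function.update_of_ne hi]
          exact (hv1 i).trans_le (hδr z hz)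
      have h2 : t ≤ r z := htδ.le.trans (hδr z hz)
      refine ⟨y, hy1.2, ⟨⟨hy1.1, h2.trans hy4⟩, h2.trans hy3, fun i hi => ?_⟩, ?_⟩
      · rw [hy2 i, Function.update_of_ne hi]
      · rw [hy2 i₀, Function.update_self]
    choose! y hy1 hy2 using h1
    rw [← Set.encard_coe_eq_coe_finsetCard]
    refine encard_le_encard_of_injOn (f := y) (fun z hz => hy2 z hz) ?_
    intro z hz z' hz' h
    by_contra hne
    exact Set.disjoint_left.1 (hWd hz hz' hne) (hy1 z hz) (h ▸ hy1 z' hz')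
  -- the boundary
  have hBS : B ⊆ nz U (Function.update (fun i x => F i x - v i) i₀ fun x => J x - t) ∪
      nz U (Function.update (fun i x => F i x - v i) i₀ fun x => J x + t) ∪
      nz U (Function.update (fun i x => F i x - v i) i₀ fun x => β x - t) := by
    rintro x ⟨hx, h | h⟩
    · rcases abs_choice (J x) with h' | h'
      · refine Or.inl (Or.inl ?_)
        exact mem_nz_of_not_crit i₀ (fun i _ => rfl) ht.symm hv3 (hAU hx) hx.2.2 (by rw [← h', h])
      · refine Or.inl (Or.inr ?_)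
        have h2 := mem_nz_of_not_crit (F := F) (U := U) i₀ (G := J)
          (v := Function.update v i₀ (-t)) (c := v) (t := -t)
          (fun i hi => by rw [Function.update_of_ne hi]) (Function.update_self _ _ _) hv4
          (hAU hx) hx.2.2 (by linarith)
        simpa only [sub_neg_eq_add] using h2
    · exact Or.inr (mem_nz_of_not_crit i₀ (fun i _ => rfl) ht.symm hv5 (hAU hx) hx.2.2 h)
  calc (Z.card : ℕ∞) ≤ {x | x ∈ A ∧ F i₀ x = 0}.encard := hZA
    _ ≤ B.encard := hsw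
    _ ≤ _ := encard_le_encard hBS
    _ ≤ _ := (encard_union_le _ _).trans (add_le_add (encard_union_le _ _) le_rfl)

end Pool.Agent.Lib.MP_641cb6_lc.KH
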