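import Pool.Agent.Lib.MP_641cb6_lc.KH.Defs
import Pool.Agent.Lib.MP_641cb6_lc.KH.Comp
import Pool.Agent.Lib.MP_641cb6_lc.KH.Bdry
import Pool.Agent.Lib.MP_641cb6_lc.KH.Rk
import Pool.Agent.Lib.MP_641cb6_lc.KH.Lt
import Pool.Agent.Lib.MP_641cb6_lc.KH.Base
import Pool.Agent.Lib.MP_641cb6_lc.KH.Det

/-!
# The main induction
-/

set_option autoImplicit false

namespace Pool.Agent.Lib.MP_641cb6_lc.KH

open Set MvPolynomial

theorem kh {n W D : ℕ} {w : MvPolynomial (Fin n) ℝ} (hW : w.totalDegree ≤ W) (k : ℕ) :
    ∀ (d : ℕ) (S : Finset (Fin n)) (F : Fin n → (Fin n → ℝ) → ℝ), S.card = k →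
      (∀ i ∈ S, LogType w D (F i)) → (∀ i, i ∉ S → PolyType d (F i)) →
      (nz {x | eval x w ≠ 0} F).encard ≤ bd n W D k d := by
  induction k with
  | zero =>
    intro d S F hS _ hP
    have hS0 : S = ∅ := Finset.card_eq_zero.mp hS
    subst hS0
    choose p hpd hp using fun i => hP i (by simp)
    have hF : F = fun i x => eval x (p i) := by
      funext i x
      exact hp i x
    rw [hF]
    have h := base {x | eval x w ≠ 0} p hpd
    simpa [bd] using h
  | succ k ih =>
    intro d S F hS hL hP
    obtain ⟨i₀, hi₀⟩ : S.Nonempty := Finset.card_pos.mp (by omega)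
    obtain ⟨Q, hQd, hQ⟩ := det_poly S hL hP
    have hn : 1 ≤ n := by
      have := i₀.isLt
      omega
    have hdn : d ≤ n * (D + d) + 2 * W + 2 := by
      have : 1 * (D + d) ≤ n * (D + d) := Nat.mul_le_mul_right _ hn
      omega
    -- each of the three systems
    have key : ∀ (c : Fin n → ℝ) (g : (Fin n → ℝ) → ℝ),
        PolyType (n * (D + d) + 2 * W + 2) g →
        (nz {x | eval x w ≠ 0} (Function.update (fun i x => F i x - c i) i₀ g)).encard ≤
          bd n W D k (n * (D + d) + 2 * W + 2) := by
      intro c g hg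
      refine ih _ (S.erase i₀) _ ?_ ?_ ?_
      · rw [Finset.card_erase_of_mem hi₀, hS]
        rfl
      · intro i hi
        rw [Finset.mem_erase] at hi
        rw [Function.update_of_ne hi.1]
        exact logType_sub_const (hL i hi.2) (c i)
      · intro i hi
        rcases eq_or_ne i i₀ with rfl | hne
        · rw [Function.update_self]
          exact hg
        · have hi' : i ∉ S := fun h => hi (Finset.mem_erase.mpr ⟨hne, h⟩)
          rw [Function.update_of_ne hne]
          exact polyType_mono (polyType_sub_const (hP i hi') (c i)) hdn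
    apply encard_le_of_finset
    intro Z hZ
    have hF : ∀ i, ContDiffOn ℝ 1 (F i) {x | eval x w ≠ 0} := by
      intro i
      by_cases hi : i ∈ S
      · exact logType_contDiffOn (hL i hi)
      · exact (polyType_contDiff (hP i hi)).contDiffOn
    have hQP : PolyType (n * (D + d)) fun x : Fin n → ℝ => eval x Q := ⟨Q, hQd, fun _ => rfl⟩
    obtain ⟨c, t, ht, hc⟩ := rolle (isOpen_ne w) hF i₀ (J := fun x => eval x Q)
      (polyType_contDiff hQP).contDiffOn
      (by
        intro x hx
        have hx' : eval x w ≠ 0 := hx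
        have h1 := hQ x hx'
        have h2 : eval x w ^ S.card ≠ 0 := pow_ne_zero _ hx'
        show eval x Q ≠ 0 ↔ _
        rw [h1]
        constructor
        · intro h h0
          exact h (by rw [h0, mul_zero])
        · intro h
          exact mul_ne_zero h2 h)
      (β := bdry w W) (bdry_contDiff w).contDiffOn
      (by
        intro x hx
        have hx' : eval x w ≠ 0 := hx
        have h1 : 0 < 1 + ∑ i, x i ^ 2 := by
          have : 0 ≤ ∑ i, x i ^ 2 := Finset.sum_nonneg fun i _ => sq_nonneg _
          linarith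
        unfold bdry
        positivity)
      (fun ε hε => bdry_compact w hW hε) Z hZ
    have h1 := key c (fun x => eval x Q - t)
      (polyType_mono (polyType_sub_const hQP t) (by omega))
    have h2 := key c (fun x => eval x Q + t) (by
      have := polyType_mono (d' := n * (D + d) + 2 * W + 2)
        (polyType_sub_const hQP (-t)) (by omega)
      simpa only [sub_neg_eq_add] using this)
    have h3 := (Set.encard_le_encard (bdry_nz w (fun i x => F i x - c i) i₀ t)).trans
      (key c _ (polyType_mono (bdry_poly w hW t) (by omega)))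
    have h4 : (Z.card : ℕ∞) ≤ ((3 * bd n W D k (n * (D + d) + 2 * W + 2) : ℕ) : ℕ∞) := by
      refine hc.trans ?_
      push_cast
      calc _ ≤ (bd n W D k (n * (D + d) + 2 * W + 2) : ℕ∞) +
            (bd n W D k (n * (D + d) + 2 * W + 2) : ℕ∞) +
            (bd n W D k (n * (D + d) + 2 * W + 2) : ℕ∞) := add_le_add (add_le_add h1 h2) h3
        _ = 3 * (bd n W D k (n * (D + d) + 2 * W + 2) : ℕ∞) := by ring
    exact_mod_cast h4

end Pool.Agent.Lib.MP_641cb6_lc.KH
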