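import Pool.Agent.Lib.MP_641cb6_lc.KH.Ind
import Pool.Agent.Lib.MP_641cb6_lc.KH.Bdn
import Pool.Agent.Lib.MP_641cb6_lc.KC.Clt

/-!
# RED: zeros of affine combinations of logarithms of a chain
-/

set_option autoImplicit false

namespace Pool.Agent.Lib.MP_641cb6_lc.KH

open MvPolynomial Set Topology Filter
open Pool.Agent.Lib.MP_641cb6_lc.KC (logType_const logType_add logType_smul logType_log)

namespace Red

variable {r : ℕ}

/-- one factor of the denominator -/
noncomputable def fac (i : Fin r) : MvPolynomial (Fin (r + 1)) ℝ :=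
  X i.succ * (C 1 - X i.succ)

/-- the denominator -/
noncomputable def w (r : ℕ) : MvPolynomial (Fin (r + 1)) ℝ := X 0 * ∏ i : Fin r, fac i

lemma deg_one_sub (i : Fin r) :
    (C 1 - X i.succ : MvPolynomial (Fin (r + 1)) ℝ).totalDegree ≤ 1 := by
  refine (totalDegree_sub _ _).trans ?_
  rw [totalDegree_X, totalDegree_C]
  exact max_le zero_le_one le_rfl

lemma deg_fac (i : Fin r) : (fac i : MvPolynomial (Fin (r + 1)) ℝ).totalDegree ≤ 2 := by
  unfold fac
  have h1 := totalDegree_mul (X i.succ : MvPolynomial (Fin (r + 1)) ℝ) (C 1 - X i.succ)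
  rw [totalDegree_X] at h1
  have := deg_one_sub i
  omega

lemma deg_prod (s : Finset (Fin r)) :
    (∏ i ∈ s, fac i : MvPolynomial (Fin (r + 1)) ℝ).totalDegree ≤ 2 * s.card := by
  refine (totalDegree_finsetProd _ _).trans ?_
  refine (Finset.sum_le_card_nsmul s _ 2 fun i _ => deg_fac i).trans ?_
  rw [smul_eq_mul, mul_comm]

lemma deg_w : (w r).totalDegree ≤ 2 * r + 1 := by
  unfold w
  refine (totalDegree_mul _ _).trans ?_
  have h := deg_prod (r := r) Finset.univ
  rw [Finset.card_univ, Fintype.card_fin] at h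
  rw [totalDegree_X]
  omega

lemma log0 : LogType (w r) (2 * r + 2) fun x => Real.log (x 0) := by
  refine logType_log (w' := ∏ i : Fin r, fac i) rfl ?_
  have h := deg_prod (r := r) Finset.univ
  rw [Finset.card_univ, Fintype.card_fin] at h
  omega

lemma split (i : Fin r) : w r = X 0 * (X i.succ * (C 1 - X i.succ) *
    ∏ j ∈ Finset.univ.erase i, fac j) := by
  rw [w, ← Finset.mul_prod_erase _ _ (Finset.mem_univ i)]
  rfl

lemma deg_rest (i : Fin r) :
    (∏ j ∈ Finset.univ.erase i, fac j : MvPolynomial (Fin (r + 1)) ℝ).totalDegree ≤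
      2 * (r - 1) := by
  have hd := deg_prod (Finset.univ.erase i)
  rwa [Finset.card_erase_of_mem (Finset.mem_univ i), Finset.card_univ, Fintype.card_fin] at hd

lemma logX (i : Fin r) : LogType (w r) (2 * r + 2) fun x => Real.log (x i.succ) := by
  refine logType_log (w' := X 0 * ((C 1 - X i.succ) * ∏ j ∈ Finset.univ.erase i, fac j)) ?_ ?_
  · rw [split i]
    ring
  · have h1 := totalDegree_mul (X 0 : MvPolynomial (Fin (r + 1)) ℝ)
      ((C 1 - X i.succ) * ∏ j ∈ Finset.univ.erase i, fac j)
    have h2 := totalDegree_mul (C 1 - X i.succ : MvPolynomial (Fin (r + 1)) ℝ)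
      (∏ j ∈ Finset.univ.erase i, fac j)
    have h3 := deg_rest i
    have h4 := deg_one_sub i
    rw [totalDegree_X] at h1
    have := i.isLt
    omega

lemma log1X (i : Fin r) : LogType (w r) (2 * r + 2) fun x => Real.log (1 - x i.succ) := by
  classical
  set w' : MvPolynomial (Fin (r + 1)) ℝ := X 0 * (X i.succ * ∏ j ∈ Finset.univ.erase i, fac j)
    with hw'
  have hw : w r = (C 1 - X i.succ) * w' := by
    rw [split i, hw']
    ring
  refine ⟨fun j => if j = i.succ then -w' else 0, ?_, ?_⟩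
  · intro j
    show (if j = i.succ then -w' else 0).totalDegree ≤ _
    split_ifs
    · rw [totalDegree_neg]
      have h1 := totalDegree_mul (X 0 : MvPolynomial (Fin (r + 1)) ℝ)
        (X i.succ * ∏ j ∈ Finset.univ.erase i, fac j)
      have h2 := totalDegree_mul (X i.succ : MvPolynomial (Fin (r + 1)) ℝ)
        (∏ j ∈ Finset.univ.erase i, fac j)
      have h3 := deg_rest i
      rw [totalDegree_X] at h1 h2
      rw [← hw'] at h1
      have := i.isLt
      omega
    · simp
  · intro x hx
    have hx1 : 1 - x i.succ ≠ 0 := by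
      intro h0
      apply hx
      rw [hw, map_mul]
      simp [h0]
    have hx2 : eval x w' ≠ 0 := by
      intro h0
      apply hx
      rw [hw, map_mul, h0, mul_zero]
    have h1 : HasFDerivAt (fun x : Fin (r + 1) → ℝ => 1 - x i.succ)
        (-(ContinuousLinearMap.proj i.succ : (Fin (r + 1) → ℝ) →L[ℝ] ℝ)) x :=
      (ContinuousLinearMap.proj (R := ℝ) (φ := fun _ : Fin (r + 1) => ℝ)
        i.succ).hasFDerivAt.const_sub 1
    have h2 := h1.log hx1
    refine h2.congr_fderiv ?_
    rw [Finset.sum_eq_single i.succ]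
    · have h5 : ((fun j => if j = i.succ then -w' else 0) i.succ :
          MvPolynomial (Fin (r + 1)) ℝ) = -w' := if_pos rfl
      rw [h5, hw, map_mul, map_neg, smul_neg, ← neg_smul]
      congr 1
      have : eval x (C 1 - X i.succ : MvPolynomial (Fin (r + 1)) ℝ) = 1 - x i.succ := by simp
      rw [this]
      field_simp
    · intro j _ hj
      have h5 : ((fun j => if j = i.succ then -w' else 0) j :
          MvPolynomial (Fin (r + 1)) ℝ) = 0 := if_neg hj
      rw [h5]
      simp
    · intro h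
      exact absurd (Finset.mem_univ _) h

lemma logSum {g : Fin r → (Fin (r + 1) → ℝ) → ℝ}
    (hg : ∀ i, LogType (w r) (2 * r + 2) (g i)) (s : Finset (Fin r)) :
    LogType (w r) (2 * r + 2) fun x => ∑ i ∈ s, g i x := by
  classical
  induction s using Finset.induction_on with
  | empty => simpa using logType_const (w r) (0 : ℝ)
  | insert i s hi ih =>
    have h := logType_add (hg i) ih
    convert h using 2 with x
    rw [Finset.sum_insert hi]

/-- an affine combination of logarithms -/
noncomputable def G (c a₀ : ℝ) (a : Fin r → ℝ) (x : Fin (r + 1) → ℝ) : ℝ :=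
  c + a₀ * Real.log (x 0) + ∑ j, a j * Real.log (x j.succ)

lemma logG (c a₀ : ℝ) (a : Fin r → ℝ) : LogType (w r) (2 * r + 2) (G c a₀ a) :=
  logType_add (logType_add (logType_const _ c) (logType_smul a₀ log0))
    (logSum (g := fun j x => a j * Real.log (x j.succ)) (fun j => logType_smul (a j) (logX j))
      Finset.univ)

/-- a relation -/
noncomputable def H (c a₀ : Fin r → ℝ) (A : Fin r → Fin r → ℝ) (i : Fin r)
    (x : Fin (r + 1) → ℝ) : ℝ :=
  (Real.log (x i.succ) + (-1) * Real.log (1 - x i.succ)) + (-1) * G (c i) (a₀ i) (A i) x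

lemma logH (c a₀ : Fin r → ℝ) (A : Fin r → Fin r → ℝ) (i : Fin r) :
    LogType (w r) (2 * r + 2) (H c a₀ A i) :=
  logType_add (logType_add (logX i) (logType_smul (-1) (log1X i))) (logType_smul (-1) (logG _ _ _))

lemma line0 (x v : Fin (r + 1) → ℝ) : x + (0 : ℝ) • v = x := by simp

lemma coord_line (x v : Fin (r + 1) → ℝ) (k : Fin (r + 1)) :
    HasDerivAt (fun t : ℝ => (x + t • v) k) (v k) 0 := by
  have h2 : (fun t : ℝ => (x + t • v) k) = fun t => x k + t * v k := by
    funext t
    simp
  rw [h2]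
  simpa using ((hasDerivAt_id (0 : ℝ)).mul_const (v k)).const_add (x k)

lemma log_line (x v : Fin (r + 1) → ℝ) (k : Fin (r + 1)) (h : x k ≠ 0) :
    HasDerivAt (fun t : ℝ => Real.log ((x + t • v) k)) (v k / x k) 0 := by
  have h3 := (coord_line x v k).log (by rw [line0]; exact h)
  rw [line0] at h3
  exact h3

lemma log1_line (x v : Fin (r + 1) → ℝ) (k : Fin (r + 1)) (h : 1 - x k ≠ 0) :
    HasDerivAt (fun t : ℝ => Real.log (1 - (x + t • v) k)) (-v k / (1 - x k)) 0 := by
  have h3 := ((coord_line x v k).const_sub 1).log (by rw [line0]; exact h)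
  rw [line0] at h3
  exact h3

lemma G_line (c a₀ : ℝ) (a : Fin r → ℝ) (x v : Fin (r + 1) → ℝ) (h : ∀ k, x k ≠ 0) :
    HasDerivAt (fun t : ℝ => G c a₀ a (x + t • v))
      (a₀ * (v 0 / x 0) + ∑ j : Fin r, a j * (v j.succ / x j.succ)) 0 :=
  ((((log_line x v 0 (h 0)).const_mul a₀).const_add c)).add
    (HasDerivAt.fun_sum fun (j : Fin r) _ => (log_line x v j.succ (h j.succ)).const_mul (a j))

lemma H_line (c a₀ : Fin r → ℝ) (A : Fin r → Fin r → ℝ) (i : Fin r) (x v : Fin (r + 1) → ℝ)
    (h : ∀ k, x k ≠ 0) (h' : ∀ j : Fin r, 1 - x j.succ ≠ 0) :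
    HasDerivAt (fun t : ℝ => H c a₀ A i (x + t • v))
      (v i.succ / x i.succ + (-1) * (-v i.succ / (1 - x i.succ)) +
        (-1) * (a₀ i * (v 0 / x 0) + ∑ j : Fin r, A i j * (v j.succ / x j.succ))) 0 :=
  ((log_line x v i.succ (h _)).add ((log1_line x v i.succ (h' i)).const_mul (-1))).add
    ((G_line (c i) (a₀ i) (A i) x v h).const_mul (-1))

lemma jac_mulVec {n : ℕ} (F : Fin n → (Fin n → ℝ) → ℝ) (x v : Fin n → ℝ) (i : Fin n) :
    (jac F x).mulVec v i = fderiv ℝ (F i) x v := by
  have hv : v = ∑ j, v j • (Pi.single j (1 : ℝ) : Fin n → ℝ) := by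
    funext k
    simp [Finset.sum_apply, Pi.single_apply]
  conv_rhs => rw [hv]
  rw [map_sum]
  simp only [map_smul, smul_eq_mul]
  unfold jac Matrix.mulVec dotProduct
  simp only [Matrix.of_apply]
  exact Finset.sum_congr rfl fun j _ => mul_comm _ _

lemma line_eq {n : ℕ} {w : MvPolynomial (Fin n) ℝ} {D : ℕ} {g : (Fin n → ℝ) → ℝ}
    (hg : LogType w D g) {x : Fin n → ℝ} (hx : eval x w ≠ 0) (v : Fin n → ℝ) {d : ℝ}
    (h : HasDerivAt (fun t : ℝ => g (x + t • v)) d 0) : fderiv ℝ g x v = d := by
  obtain ⟨q, _, hq⟩ := hg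
  have h1 := (hq x hx)
  have h2 : HasFDerivAt g (fderiv ℝ g x) x := h1.differentiableAt.hasFDerivAt
  have h3 : HasDerivAt (fun t : ℝ => g (x + t • v)) (fderiv ℝ g x v) 0 := h2.hasLineDerivAt v
  exact h3.unique h

end Red

open Red in
theorem red {r : ℕ} {V : Set ℝ} (hV : IsOpen V) (hV0 : ∀ b ∈ V, b ≠ 0) {p : Fin r → ℝ → ℝ}
    (hp : RChain r V p) (c a₀ : ℝ) (a : Fin r → ℝ) :
    {b | b ∈ V ∧ lam p c a₀ a b = 0 ∧ deriv (lam p c a₀ a) b ≠ 0}.encard ≤
      (2 * (r + 1) + 4) ^ (r + 2) ^ 2 := by
  choose c' a' A hA hrel using hp.rel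
  set F : Fin (r + 1) → (Fin (r + 1) → ℝ) → ℝ :=
    Fin.cons (G c a₀ a) (fun i => H c' a' A i) with hF
  have hlog : ∀ i, LogType (w r) (2 * r + 2) (F i) := by
    intro i
    refine Fin.cases ?_ (fun i => ?_) i
    · rw [hF, Fin.cons_zero]
      exact logG c a₀ a
    · rw [hF, Fin.cons_succ]
      exact logH c' a' A i
  have hkh := kh (deg_w (r := r)) (r + 1) 0 Finset.univ F (by simp)
    (fun i _ => hlog i) (fun i hi => absurd (Finset.mem_univ i) hi)
  have hbd : bd (r + 1) (2 * r + 1) (2 * r + 2) (r + 1) 0 ≤ (2 * (r + 1) + 4) ^ (r + 2) ^ 2 :=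
    bd_le (by omega) (by omega) (by omega)
  -- the curve
  set γ : ℝ → (Fin (r + 1) → ℝ) := fun b => Fin.cons b (fun i => p i b) with hγ
  have hγ0 : ∀ b, γ b 0 = b := fun b => rfl
  have hγs : ∀ b (i : Fin r), γ b i.succ = p i b := fun b i => rfl
  have hinj : Function.Injective γ := by
    intro b b' hb
    rw [← hγ0 b, hb, hγ0]
  rw [← hinj.encard_image]
  refine (Set.encard_le_encard ?_).trans (hkh.trans (by exact_mod_cast hbd))
  rintro _ ⟨b, ⟨hb, hb0, hbd⟩, rfl⟩
  have hbne := hV0 b hb
  have hne : ∀ k, γ b k ≠ 0 := by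
    intro k
    refine Fin.cases ?_ (fun i => ?_) k
    · exact hbne
    · exact hp.ne_zero i b hb
  have hne1 : ∀ j : Fin r, 1 - γ b j.succ ≠ 0 := fun j =>
    sub_ne_zero.2 (Ne.symm (hp.ne_one j b hb))
  have hw : eval (γ b) (w r) ≠ 0 := by
    rw [w, map_mul, eval_X, map_prod]
    refine mul_ne_zero (hne 0) (Finset.prod_ne_zero_iff.mpr fun i _ => ?_)
    rw [fac, map_mul, eval_X]
    refine mul_ne_zero (hne _) ?_
    simpa using hne1 i
  have hG : ∀ (c a₀ : ℝ) (a : Fin r → ℝ), G c a₀ a (γ b) = lam p c a₀ a b := fun _ _ _ => rfl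
  refine ⟨hw, ?_, ?_⟩
  · intro i
    refine Fin.cases ?_ (fun i => ?_) i
    · rw [hF, Fin.cons_zero, hG]
      exact hb0
    · rw [hF, Fin.cons_succ, H, hG, hγs, lam, ← hrel i b hb]
      ring
  · intro hdet
    obtain ⟨v, hv0, hv⟩ := Matrix.exists_mulVec_eq_zero_iff.mpr hdet
    have hrow : ∀ i, fderiv ℝ (F i) (γ b) v = 0 := by
      intro i
      rw [← jac_mulVec, hv]
      rfl
    have hz : ∀ i, HasDerivAt (p i) (deriv (p i) b) b := fun i =>
      (((hp.smooth i).differentiableOn (by norm_num)).differentiableAt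
        (hV.mem_nhds hb)).hasDerivAt
    have hlogz : ∀ j, HasDerivAt (fun b => Real.log (p j b)) (deriv (p j) b / p j b) b :=
      fun j => (hz j).log (hp.ne_zero j b hb)
    have hlogz' : ∀ j, HasDerivAt (fun b => Real.log (1 - p j b))
        (-deriv (p j) b / (1 - p j b)) b := fun j => ((hz j).const_sub 1).log (hne1 j)
    have hlam : ∀ (c a₀ : ℝ) (a : Fin r → ℝ), HasDerivAt (lam p c a₀ a)
        (a₀ * (1 / b) + ∑ j, a j * (deriv (p j) b / p j b)) b := by
      intro c a₀ a
      have h1 : HasDerivAt (fun b : ℝ => Real.log b) (1 / b) b := by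
        have h2 := Real.hasDerivAt_log hbne
        rwa [inv_eq_one_div] at h2
      exact ((h1.const_mul a₀).const_add c).add
        (HasDerivAt.fun_sum fun j _ => (hlogz j).const_mul (a j))
    have hder : ∀ i, deriv (p i) b / p i b - -deriv (p i) b / (1 - p i b) =
        a' i * (1 / b) + ∑ j, A i j * (deriv (p j) b / p j b) := by
      intro i
      have h1 := hlam (c' i) (a' i) (A i)
      have h2 : (fun b => Real.log (p i b) - Real.log (1 - p i b)) =ᶠ[𝓝 b]
          lam p (c' i) (a' i) (A i) := by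
        filter_upwards [hV.mem_nhds hb] with s hs
        exact hrel i s hs
      exact (((hlogz i).sub (hlogz' i)).congr_of_eventuallyEq h2.symm).unique h1
    have hrel' : ∀ i : Fin r, v i.succ / p i b - -v i.succ / (1 - p i b) =
        a' i * (v 0 / b) + ∑ j : Fin r, A i j * (v j.succ / p j b) := by
      intro i
      have h3 := hrow i.succ
      rw [hF, Fin.cons_succ, line_eq (logH c' a' A i) hw v
        (H_line c' a' A i (γ b) v hne hne1), hγ0] at h3
      simp only [hγs] at h3
      linarith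
    have hind : ∀ n : ℕ, ∀ i : Fin r, (i : ℕ) = n → v i.succ = v 0 * deriv (p i) b := by
      intro n
      induction n using Nat.strong_induction_on with
      | _ n ih =>
        intro i hi
        have hp0 := hp.ne_zero i b hb
        have hp1 : 1 - p i b ≠ 0 := hne1 i
        have h1 : ∑ j : Fin r, A i j * (v j.succ / p j b) =
            v 0 * ∑ j, A i j * (deriv (p j) b / p j b) := by
          rw [Finset.mul_sum]
          refine Finset.sum_congr rfl fun j _ => ?_
          by_cases hj : i ≤ j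
          · rw [hA i j hj]
            simp
          · have hj' : (j : ℕ) < n := by
              rw [← hi]
              exact not_le.mp hj
            rw [ih j hj' j rfl]
            ring
        have h2 : v i.succ / p i b - -v i.succ / (1 - p i b) =
            v 0 * (deriv (p i) b / p i b - -deriv (p i) b / (1 - p i b)) := by
          rw [hrel' i, h1, hder i]
          ring
        field_simp at h2
        linarith
    have hd : deriv (lam p c a₀ a) b = a₀ * (1 / b) + ∑ j, a j * (deriv (p j) b / p j b) :=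
      (hlam c a₀ a).deriv
    have h5 := hrow 0
    rw [hF, Fin.cons_zero, line_eq (logG c a₀ a) hw v (G_line c a₀ a (γ b) v hne), hγ0] at h5
    have h7 : a₀ * (v 0 / b) + ∑ j : Fin r, a j * (v j.succ / γ b j.succ) =
        v 0 * deriv (lam p c a₀ a) b := by
      rw [hd, mul_add, Finset.mul_sum]
      congr 1
      · ring
      · refine Finset.sum_congr rfl fun j _ => ?_
        rw [hind j j rfl, hγs]
        ring
    rw [h7] at h5
    have hv00 : v 0 = 0 := by
      rcases mul_eq_zero.mp h5 with h8 | h8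
      · exact h8
      · exact absurd h8 hbd
    apply hv0
    funext j
    refine Fin.cases ?_ (fun i => ?_) j
    · exact hv00
    · rw [hind i i rfl, hv00, zero_mul]
      rfl

end Pool.Agent.Lib.MP_641cb6_lc.KH
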