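import Pool.Agent.Lib.MP_641cb6_lc.KH.Defs

/-!
# Board kh_modules, module REG

One variable: from regular values to all zeros.
-/

set_option autoImplicit false

namespace Pool.Agent.Lib.MP_641cb6_lc.KH

open Set MvPolynomial Topology MeasureTheory

namespace Reg

/-- One-dimensional Sard: the critical values form a null set. -/
theorem sard1 {V : Set ℝ} (hV : IsOpen V) {f : ℝ → ℝ} (hf : ContDiffOn ℝ 1 f V) :
    volume (f '' {x | x ∈ V ∧ deriv f x = 0}) = 0 := by
  refine addHaar_image_eq_zero_of_det_fderivWithin_eq_zero volume (f' := fun _ => 0) ?_ ?_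
  · rintro x ⟨hx, hx0⟩
    have hd : DifferentiableAt ℝ f x :=
      ((hf.differentiableOn one_ne_zero) x hx).differentiableAt (hV.mem_nhds hx)
    have h1 : HasDerivAt f 0 x := by
      have := hd.hasDerivAt
      rwa [hx0] at this
    have h2 := h1.hasFDerivAt.hasFDerivWithinAt (s := {x | x ∈ V ∧ deriv f x = 0})
    have e : ContinuousLinearMap.toSpanSingleton ℝ (0 : ℝ) = 0 := by
      ext
      simp
    rw [e] at h2
    exact h2
  · rintro x -
    simp [ContinuousLinearMap.det]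

/-- An intermediate value argument: a value between `0` and `f b'` is attained near `b`. -/
theorem ivt {f : ℝ → ℝ} {b b' ε δ : ℝ} (hc : ContinuousOn f (Metric.ball b ε))
    (hε : 0 < ε) (hb' : b' ∈ Metric.ball b ε) (h0 : f b = 0) (hδ : δ ∈ uIcc 0 (f b')) :
    ∃ c ∈ Metric.ball b ε, f c = δ := by
  have hsub : uIcc b b' ⊆ Metric.ball b ε := by
    have := (convex_ball b ε).segment_subset (Metric.mem_ball_self hε) hb'
    rwa [segment_eq_uIcc] at this
  have h1 := intermediate_value_uIcc (hc.mono hsub)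
  rw [h0] at h1
  obtain ⟨c, hc1, hc2⟩ := h1 hδ
  exact ⟨c, hsub hc1, hc2⟩

end Reg

theorem reg {V : Set ℝ} (hV : IsOpen V) {f : ℝ → ℝ} (hf : ContDiffOn ℝ 1 f V) {N : ℕ}
    (hN : ∀ δ : ℝ, {b | b ∈ V ∧ f b - δ = 0 ∧ deriv f b ≠ 0}.encard ≤ N)
    {Z : Set ℝ} (hZ : ∀ b ∈ Z, b ∈ V ∧ f b = 0) (hnz : ∀ b ∈ Z, ∀ O ∈ 𝓝 b, ∃ b' ∈ O, f b' ≠ 0) :
    Z.encard ≤ 2 * N := by
  classical
  -- finite subsets
  have key : ∀ Z' : Finset ℝ, (Z' : Set ℝ) ⊆ Z → Z'.card ≤ 2 * N := by
    intro Z' hZ'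
    obtain ⟨U, hU, hdisj⟩ := (Z'.finite_toSet).t2_separation
    have hball : ∀ b ∈ Z', ∃ ε > 0, Metric.ball b ε ⊆ U b ∩ V := fun b hb =>
      Metric.isOpen_iff.1 ((hU b).2.inter hV) b ⟨(hU b).1, (hZ b (hZ' hb)).1⟩
    choose! ε hε hεU using hball
    have hb' : ∀ b ∈ Z', ∃ b' ∈ Metric.ball b (ε b), f b' ≠ 0 := fun b hb =>
      hnz b (hZ' hb) _ (Metric.ball_mem_nhds b (hε b hb))
    choose! b' hb'1 hb'2 using hb'
    -- the minimum
    obtain ⟨m, hm0, hm⟩ : ∃ m : ℝ, 0 < m ∧ ∀ b ∈ Z', m ≤ |f (b' b)| := by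
      rcases Z'.eq_empty_or_nonempty with h | h
      · exact ⟨1, one_pos, by simp [h]⟩
      · obtain ⟨b₀, hb₀, hmin⟩ := Z'.exists_min_image (fun b => |f (b' b)|) h
        exact ⟨|f (b' b₀)|, abs_pos.2 (hb'2 b₀ hb₀), fun b hb => hmin b hb⟩
    set CV : Set ℝ := f '' {x | x ∈ V ∧ deriv f x = 0} with hCV
    have hnull : volume CV = 0 := Reg.sard1 hV hf
    have hnull2 : volume ((fun x : ℝ => (-1) * x) ⁻¹' CV) = 0 := by
      rw [Real.volume_preimage_mul_left (by norm_num : (-1 : ℝ) ≠ 0), hnull, mul_zero]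
    obtain ⟨δ, hδ1, hδ2, hδ3⟩ : ∃ δ ∈ Ioo (0 : ℝ) m, δ ∉ CV ∧ -δ ∉ CV := by
      by_contra hcon
      push Not at hcon
      have hsub : Ioo (0 : ℝ) m ⊆ CV ∪ (fun x : ℝ => (-1) * x) ⁻¹' CV := by
        intro x hx
        by_cases hx1 : x ∈ CV
        · exact Or.inl hx1
        · right
          have := hcon x hx hx1
          simpa using this
      have h1 := measure_mono (μ := volume) hsub
      have h2 := measure_union_le (μ := volume) CV ((fun x : ℝ => (-1) * x) ⁻¹' CV)
      rw [hnull, hnull2, add_zero] at h2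
      have h3 : volume (Ioo (0 : ℝ) m) = 0 := nonpos_iff_eq_zero.1 (h1.trans h2)
      rw [Real.volume_Ioo, ENNReal.ofReal_eq_zero] at h3
      linarith
    -- injections
    have count : ∀ (P : ℝ → Prop) [DecidablePred P] (η : ℝ), η ∉ CV →
        (∀ b ∈ Z', P b → η ∈ uIcc 0 (f (b' b))) → (Z'.filter P).card ≤ N := by
      intro P _ η hη hP
      have h1 : ∀ b ∈ Z'.filter P, ∃ c ∈ Metric.ball b (ε b), f c = η := by
        intro b hb
        rw [Finset.mem_filter] at hb
        refine Reg.ivt ?_ (hε b hb.1) (hb'1 b hb.1) (hZ b (hZ' hb.1)).2 (hP b hb.1 hb.2)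
        exact hf.continuousOn.mono fun x hx => (hεU b hb.1 hx).2
      choose! c hc1 hc2 using h1
      have h2 : MapsTo c (Z'.filter P : Set ℝ) {b | b ∈ V ∧ f b - η = 0 ∧ deriv f b ≠ 0} := by
        intro b hb
        have hbf : b ∈ Z'.filter P := hb
        have hbZ : b ∈ Z' := (Finset.mem_filter.1 hbf).1
        have hcV : c b ∈ V := (hεU b hbZ (hc1 b hbf)).2
        refine ⟨hcV, by rw [hc2 b hbf, sub_self], fun hd => hη ⟨c b, ⟨hcV, hd⟩, hc2 b hbf⟩⟩
      have h3 : InjOn c (Z'.filter P : Set ℝ) := by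
        intro x hx y hy hxy
        have hxf : x ∈ Z'.filter P := hx
        have hyf : y ∈ Z'.filter P := hy
        have hxZ : x ∈ Z' := (Finset.mem_filter.1 hxf).1
        have hyZ : y ∈ Z' := (Finset.mem_filter.1 hyf).1
        by_contra hne
        have hd := hdisj (Finset.mem_coe.2 hxZ) (Finset.mem_coe.2 hyZ) hne
        have e1 : c x ∈ U x := (hεU x hxZ (hc1 x hxf)).1
        have e2 : c x ∈ U y := by
          rw [hxy]
          exact (hεU y hyZ (hc1 y hyf)).1
        exact (Set.disjoint_left.1 hd) e1 e2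
      have h4 : ((Z'.filter P : Finset ℝ) : Set ℝ).encard ≤ N :=
        (encard_le_encard_of_injOn h2 h3).trans (hN η)
      rw [encard_coe_eq_coe_finsetCard] at h4
      exact_mod_cast h4
    have hp := count (fun b => 0 < f (b' b)) δ hδ2 (by
      intro b hb hpos
      have := hm b hb
      rw [abs_of_pos hpos] at this
      rw [uIcc_of_le hpos.le]
      exact ⟨hδ1.1.le, hδ1.2.le.trans this⟩)
    have hq := count (fun b => ¬ 0 < f (b' b)) (-δ) hδ3 (by
      intro b hb hneg
      have h0 : f (b' b) < 0 := lt_of_le_of_ne (not_lt.1 hneg) (hb'2 b hb)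
      have := hm b hb
      rw [abs_of_neg h0] at this
      rw [uIcc_of_ge h0.le]
      have h5 := hδ1.2
      have h6 := hδ1.1
      exact ⟨by linarith, by linarith⟩)
    have hsum := Finset.card_filter_add_card_filter_not (s := Z') (fun b => 0 < f (b' b))
    omega
  by_contra hcon
  push Not at hcon
  have h1 : ((2 * N + 1 : ℕ) : ℕ∞) ≤ Z.encard := by
    have := Order.add_one_le_of_lt hcon
    exact_mod_cast this
  obtain ⟨t, ht1, ht2⟩ := exists_subset_encard_eq h1
  have hfin : t.Finite := by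
    apply finite_of_encard_eq_coe ht2
  have h2 := key hfin.toFinset (by simpa using ht1)
  have h3 : (hfin.toFinset.card : ℕ∞) = t.encard := by
    rw [← encard_coe_eq_coe_finsetCard, hfin.coe_toFinset]
  rw [ht2] at h3
  have h4 : hfin.toFinset.card = 2 * N + 1 := by exact_mod_cast h3
  omega

end Pool.Agent.Lib.MP_641cb6_lc.KH
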