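import Pool.Agent.Lib.MP_641cb6_lc.KH.Defs

/-!
# REP: logarithms of products along a chain of polynomials
-/

set_option autoImplicit false

namespace Pool.Agent.Lib.MP_641cb6_lc.KH

open Set

/-- `f` is on `V` an affine combination of `log |b|` and `log |p j|`, `j < m` -/
def RepAff {r : ℕ} (V : Set ℝ) (p : Fin r → ℝ → ℝ) (m : ℕ) (f : ℝ → ℝ) : Prop :=
  ∃ (c a₀ : ℝ) (a : Fin r → ℝ), (∀ j : Fin r, m ≤ j.val → a j = 0) ∧
    ∀ b ∈ V, f b = lam p c a₀ a b

section aff

variable {r : ℕ} {V : Set ℝ} {p : Fin r → ℝ → ℝ} {m : ℕ} {f g : ℝ → ℝ}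

theorem RepAff.congr (h : RepAff V p m f) (hfg : ∀ b ∈ V, g b = f b) : RepAff V p m g := by
  obtain ⟨c, a₀, a, ha, hb⟩ := h
  exact ⟨c, a₀, a, ha, fun b hbV => by rw [hfg b hbV, hb b hbV]⟩

theorem RepAff.mono {m' : ℕ} (h : RepAff V p m f) (hm : m ≤ m') : RepAff V p m' f := by
  obtain ⟨c, a₀, a, ha, hb⟩ := h
  exact ⟨c, a₀, a, fun j hj => ha j (hm.trans hj), hb⟩

theorem repAff_const (c : ℝ) : RepAff V p m (fun _ => c) :=
  ⟨c, 0, 0, fun _ _ => rfl, fun b _ => by simp [lam]⟩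

theorem repAff_log : RepAff V p m (fun b => Real.log b) :=
  ⟨0, 1, 0, fun _ _ => rfl, fun b _ => by simp [lam]⟩

theorem repAff_p (i : Fin r) (hi : i.val < m) : RepAff V p m (fun b => Real.log (p i b)) := by
  classical
  refine ⟨0, 0, Pi.single i 1, ?_, ?_⟩
  · intro j hj
    have hne : j ≠ i := by
      rintro rfl
      omega
    simp [hne]
  · intro b _
    simp only [lam, zero_add, zero_mul]
    rw [Finset.sum_eq_single i]
    · simp
    · intro j _ hj
      simp [hj]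
    · simp

theorem RepAff.add (hf : RepAff V p m f) (hg : RepAff V p m g) :
    RepAff V p m (fun b => f b + g b) := by
  obtain ⟨c, a₀, a, ha, hb⟩ := hf
  obtain ⟨c', a₀', a', ha', hb'⟩ := hg
  refine ⟨c + c', a₀ + a₀', fun j => a j + a' j, fun j hj => ?_, fun b hbV => ?_⟩
  · simp only [ha j hj, ha' j hj, add_zero]
  · simp only [hb b hbV, hb' b hbV, lam, add_mul, Finset.sum_add_distrib]
    ring

theorem RepAff.smul (t : ℝ) (hf : RepAff V p m f) : RepAff V p m (fun b => t * f b) := by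
  obtain ⟨c, a₀, a, ha, hb⟩ := hf
  refine ⟨t * c, t * a₀, fun j => t * a j, fun j hj => ?_, fun b hbV => ?_⟩
  · simp only [ha j hj, mul_zero]
  · simp only [hb b hbV, lam, mul_add, Finset.mul_sum, mul_assoc]

theorem RepAff.sub (hf : RepAff V p m f) (hg : RepAff V p m g) :
    RepAff V p m (fun b => f b - g b) :=
  (hf.add (hg.smul (-1))).congr fun b _ => by ring

theorem repAff_sum {ι : Type} (s : Finset ι) (F : ι → ℝ → ℝ)
    (h : ∀ i ∈ s, RepAff V p m (F i)) : RepAff V p m (fun b => ∑ i ∈ s, F i b) := by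
  classical
  induction s using Finset.induction_on with
  | empty => simpa using repAff_const (V := V) (p := p) (m := m) 0
  | insert i s hi ih =>
    have h1 := (h i (Finset.mem_insert_self i s)).add
      (ih fun j hj => h j (Finset.mem_insert_of_mem hj))
    exact h1.congr fun b _ => by rw [Finset.sum_insert hi]

end aff

/-- a nonzero product does not vanish on `good` -/
theorem rep_eval_ne {φ : ℕ → Polynomial ℝ} {l L : ℕ} (hlL : l ≤ L) {κ : ℝ} {α : ℕ → ℕ}
    (hκ : κ ≠ 0) (hα : ∀ j < l, α j ≠ 0 → φ j ≠ 0) {b : ℝ} (hb : b ∈ good φ L) :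
    κ * ∏ j ∈ Finset.range l, (φ j).eval b ^ α j ≠ 0 := by
  refine mul_ne_zero hκ (Finset.prod_ne_zero_iff.2 fun j hj => ?_)
  rw [Finset.mem_range] at hj
  by_cases h0 : α j = 0
  · simp [h0]
  · exact pow_ne_zero _ (hb j (by omega) (hα j hj h0))

theorem rep_supp {φ : ℕ → Polynomial ℝ} {l : ℕ} {κ : ℝ} {α : ℕ → ℕ}
    (h : Polynomial.C κ * ∏ j ∈ Finset.range l, φ j ^ α j ≠ 0) :
    κ ≠ 0 ∧ ∀ j < l, α j ≠ 0 → φ j ≠ 0 := by
  constructor
  · rintro rfl
    simp at h
  · intro j hj hα h0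
    apply h
    rw [Finset.prod_eq_zero (Finset.mem_range.2 hj) (by rw [h0, zero_pow hα]), mul_zero]

theorem rep_eval (φ : ℕ → Polynomial ℝ) (l : ℕ) (κ : ℝ) (α : ℕ → ℕ) (b : ℝ) :
    (Polynomial.C κ * ∏ j ∈ Finset.range l, φ j ^ α j).eval b =
      κ * ∏ j ∈ Finset.range l, (φ j).eval b ^ α j := by
  simp [Polynomial.eval_mul, Polynomial.eval_prod]

/-- the logarithm of a product of powers of functions whose logarithms are affine -/
theorem rep_prod {r : ℕ} {p : Fin r → ℝ → ℝ} {φ : ℕ → Polynomial ℝ} {L l m : ℕ} (hlL : l ≤ L)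
    (hφ : ∀ j < l, φ j ≠ 0 → RepAff (good φ L) p m (fun b => Real.log ((φ j).eval b)))
    {κ : ℝ} {α : ℕ → ℕ} (hκ : κ ≠ 0) (hα : ∀ j < l, α j ≠ 0 → φ j ≠ 0) :
    RepAff (good φ L) p m
      (fun b => Real.log (κ * ∏ j ∈ Finset.range l, (φ j).eval b ^ α j)) := by
  have h1 : RepAff (good φ L) p m (fun b => Real.log κ +
      ∑ j ∈ Finset.range l, (α j : ℝ) * Real.log ((φ j).eval b)) := by
    refine (repAff_const _).add (repAff_sum _ _ fun j hj => ?_)
    rw [Finset.mem_range] at hj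
    by_cases h0 : α j = 0
    · simpa [h0] using repAff_const (V := good φ L) (p := p) (m := m) 0
    · exact (hφ j hj (hα j hj h0)).smul _
  refine h1.congr fun b hb => ?_
  have hne := rep_eval_ne hlL hκ hα hb
  rw [Real.log_mul hκ (right_ne_zero_of_mul hne), Real.log_prod]
  · congr 1
    refine Finset.sum_congr rfl fun j _ => ?_
    rw [Real.log_pow]
  · intro j hj
    exact (Finset.prod_ne_zero_iff.1 (right_ne_zero_of_mul hne)) j hj

theorem rep {φ : ℕ → Polynomial ℝ} {s r : ℕ} (h : IsChain φ s) (hr : r ≤ s) :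
    ∃ p : Fin r → ℝ → ℝ, RChain r (good φ (r + 1)) p ∧
      ∀ (κ : ℝ) (α : ℕ → ℕ), κ ≠ 0 → (∀ j < r + 1, α j ≠ 0 → φ j ≠ 0) →
        ∃ (c a₀ : ℝ) (a : Fin r → ℝ), ∀ b ∈ good φ (r + 1),
          Real.log (κ * ∏ j ∈ Finset.range (r + 1), (φ j).eval b ^ α j) = lam p c a₀ a b := by
  classical
  obtain ⟨h0, hl⟩ := h
  have hl' : ∀ l, ∃ (κ κ' : ℝ) (α α' : ℕ → ℕ), 1 ≤ l → l ≤ s →
      φ l = Polynomial.C κ * ∏ j ∈ Finset.range l, φ j ^ α j +
        Polynomial.C κ' * ∏ j ∈ Finset.range l, φ j ^ α' j := by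
    intro l
    by_cases h1 : 1 ≤ l ∧ l ≤ s
    · obtain ⟨κ, κ', α, α', hh⟩ := hl l h1.1 h1.2
      exact ⟨κ, κ', α, α', fun _ _ => hh⟩
    · exact ⟨0, 0, 0, 0, fun h2 h3 => absurd ⟨h2, h3⟩ h1⟩
  choose κ κ' α α' hch using hl'
  -- the two monomials
  obtain ⟨T, hT⟩ : ∃ T : ℕ → Polynomial ℝ, ∀ l, T l =
      Polynomial.C (κ l) * ∏ j ∈ Finset.range l, φ j ^ α l j := ⟨_, fun _ => rfl⟩
  obtain ⟨T', hT'⟩ : ∃ T' : ℕ → Polynomial ℝ, ∀ l, T' l =
      Polynomial.C (κ' l) * ∏ j ∈ Finset.range l, φ j ^ α' l j := ⟨_, fun _ => rfl⟩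
  have hsum : ∀ l, 1 ≤ l → l ≤ s → φ l = T l + T' l := by
    intro l h1 h2
    rw [hT, hT']
    exact hch l h1 h2
  obtain ⟨V, hV⟩ : ∃ V, V = good φ (r + 1) := ⟨_, rfl⟩
  have hTne : ∀ l, l ≤ r + 1 → T l ≠ 0 → ∀ b ∈ V, (T l).eval b ≠ 0 := by
    intro l hlr hne b hb
    rw [hT] at hne ⊢
    obtain ⟨h1, h2⟩ := rep_supp hne
    rw [rep_eval]
    exact rep_eval_ne hlr h1 h2 (hV ▸ hb)
  have hTne' : ∀ l, l ≤ r + 1 → T' l ≠ 0 → ∀ b ∈ V, (T' l).eval b ≠ 0 := by
    intro l hlr hne b hb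
    rw [hT'] at hne ⊢
    obtain ⟨h1, h2⟩ := rep_supp hne
    rw [rep_eval]
    exact rep_eval_ne hlr h1 h2 (hV ▸ hb)
  have hφne : ∀ l, l < r + 1 → φ l ≠ 0 → ∀ b ∈ V, (φ l).eval b ≠ 0 := by
    intro l hlr hne b hb
    rw [hV] at hb
    exact hb l hlr hne
  -- the functions `p`
  obtain ⟨p, hp⟩ : ∃ p : Fin r → ℝ → ℝ, ∀ i b, p i b =
      if T (i.val + 1) ≠ 0 ∧ T' (i.val + 1) ≠ 0 ∧ φ (i.val + 1) ≠ 0 then
        (T (i.val + 1)).eval b / (φ (i.val + 1)).eval b else 2 := ⟨_, fun _ _ => rfl⟩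
  have hpN : ∀ i : Fin r, (T (i.val + 1) ≠ 0 ∧ T' (i.val + 1) ≠ 0 ∧ φ (i.val + 1) ≠ 0) →
      ∀ b, p i b = (T (i.val + 1)).eval b / (φ (i.val + 1)).eval b := by
    intro i hi b
    rw [hp, if_pos hi]
  have hpD : ∀ i : Fin r, ¬ (T (i.val + 1) ≠ 0 ∧ T' (i.val + 1) ≠ 0 ∧ φ (i.val + 1) ≠ 0) →
      ∀ b, p i b = 2 := by
    intro i hi b
    rw [hp, if_neg hi]
  have h1p : ∀ i : Fin r, (T (i.val + 1) ≠ 0 ∧ T' (i.val + 1) ≠ 0 ∧ φ (i.val + 1) ≠ 0) →
      ∀ b ∈ V, 1 - p i b = (T' (i.val + 1)).eval b / (φ (i.val + 1)).eval b := by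
    intro i hi b hb
    have hφb := hφne (i.val + 1) (by omega) hi.2.2 b hb
    rw [hpN i hi, eq_div_iff hφb, sub_mul, one_mul, div_mul_cancel₀ _ hφb]
    have := hsum (i.val + 1) (by omega) (by omega)
    rw [this, Polynomial.eval_add]
    ring
  -- the logarithms of the `φ j`
  have hind : ∀ l, l ≤ r → φ l ≠ 0 → RepAff V p l (fun b => Real.log ((φ l).eval b)) := by
    intro l
    induction l using Nat.strong_induction_on with
    | _ l ih =>
      intro hlr hne
      rcases Nat.eq_zero_or_pos l with rfl | hpos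
      · rw [h0]
        simpa using repAff_log (V := V) (p := p) (m := 0)
      · -- affine representation of a monomial
        have hmon : ∀ (κ₁ : ℝ) (α₁ : ℕ → ℕ),
            Polynomial.C κ₁ * ∏ j ∈ Finset.range l, φ j ^ α₁ j ≠ 0 →
            RepAff V p (l - 1) (fun b => Real.log
              ((Polynomial.C κ₁ * ∏ j ∈ Finset.range l, φ j ^ α₁ j).eval b)) := by
          intro κ₁ α₁ hne₁
          obtain ⟨h1, h2⟩ := rep_supp hne₁
          simp only [rep_eval]
          rw [hV]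
          refine rep_prod (by omega) ?_ h1 h2
          intro j hj hj0
          rw [← hV]
          exact (ih j hj (by omega) hj0).mono (by omega)
        have hs := hsum l hpos (by omega)
        by_cases hTz : T l = 0
        · have hT'ne : T' l ≠ 0 := by
            intro h
            apply hne
            rw [hs, hTz, h, add_zero]
          have : φ l = T' l := by rw [hs, hTz, zero_add]
          rw [this]
          rw [hT'] at hT'ne ⊢
          exact (hmon _ _ hT'ne).mono (by omega)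
        · by_cases hTz' : T' l = 0
          · have : φ l = T l := by rw [hs, hTz', add_zero]
            rw [this]
            rw [hT] at hTz ⊢
            exact (hmon _ _ hTz).mono (by omega)
          · -- nondegenerate
            have hi : l - 1 < r := by omega
            obtain ⟨i, hival⟩ : ∃ i : Fin r, i.val = l - 1 := ⟨⟨l - 1, hi⟩, rfl⟩
            have hil : i.val + 1 = l := by omega
            have hcond : T (i.val + 1) ≠ 0 ∧ T' (i.val + 1) ≠ 0 ∧ φ (i.val + 1) ≠ 0 := by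
              rw [hil]
              exact ⟨hTz, hTz', hne⟩
            have hTa : RepAff V p l (fun b => Real.log ((T l).eval b)) := by
              have := hTz
              rw [hT] at this ⊢
              exact (hmon _ _ this).mono (by omega)
            refine (hTa.sub (repAff_p i (by omega))).congr fun b hb => ?_
            have hTb := hTne l (by omega) hTz b hb
            have hφb := hφne l (by omega) hne b hb
            rw [hpN i hcond, hil, Real.log_div hTb hφb]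
            ring
  -- monomials in `φ 0, ..., φ (l - 1)`
  have hmonom : ∀ l, l ≤ r + 1 → ∀ (κ₁ : ℝ) (α₁ : ℕ → ℕ), κ₁ ≠ 0 →
      (∀ j < l, α₁ j ≠ 0 → φ j ≠ 0) → RepAff V p (l - 1)
        (fun b => Real.log (κ₁ * ∏ j ∈ Finset.range l, (φ j).eval b ^ α₁ j)) := by
    intro l hlr κ₁ α₁ h1 h2
    rw [hV]
    refine rep_prod hlr ?_ h1 h2
    intro j hj hj0
    rw [← hV]
    exact (hind j (by omega) hj0).mono (by omega)
  refine ⟨p, ⟨?_, ?_, ?_, ?_⟩, ?_⟩
  · -- smoothness
    intro i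
    rw [← hV]
    by_cases hi : T (i.val + 1) ≠ 0 ∧ T' (i.val + 1) ≠ 0 ∧ φ (i.val + 1) ≠ 0
    · have hfun : p i = fun b => (T (i.val + 1)).eval b / (φ (i.val + 1)).eval b :=
        funext (hpN i hi)
      rw [hfun]
      refine ContDiffOn.div ?_ ?_ ?_
      · exact ((T (i.val + 1)).contDiff_aeval 1).contDiffOn
      · exact ((φ (i.val + 1)).contDiff_aeval 1).contDiffOn
      · intro b hb
        exact hφne (i.val + 1) (by omega) hi.2.2 b hb
    · have hfun : p i = fun _ => 2 := funext (hpD i hi)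
      rw [hfun]
      exact contDiffOn_const
  · intro i b hb
    rw [← hV] at hb
    by_cases hi : T (i.val + 1) ≠ 0 ∧ T' (i.val + 1) ≠ 0 ∧ φ (i.val + 1) ≠ 0
    · rw [hpN i hi]
      exact div_ne_zero (hTne _ (by omega) hi.1 b hb) (hφne _ (by omega) hi.2.2 b hb)
    · rw [hpD i hi]
      norm_num
  · intro i b hb
    rw [← hV] at hb
    by_cases hi : T (i.val + 1) ≠ 0 ∧ T' (i.val + 1) ≠ 0 ∧ φ (i.val + 1) ≠ 0
    · intro h1
      have h2 := h1p i hi b hb
      rw [h1, sub_self] at h2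
      exact (div_ne_zero (hTne' _ (by omega) hi.2.1 b hb) (hφne _ (by omega) hi.2.2 b hb)) h2.symm
    · rw [hpD i hi]
      norm_num
  · intro i
    rw [← hV]
    by_cases hi : T (i.val + 1) ≠ 0 ∧ T' (i.val + 1) ≠ 0 ∧ φ (i.val + 1) ≠ 0
    · have hA : RepAff V p i.val (fun b => Real.log ((T (i.val + 1)).eval b) -
          Real.log ((T' (i.val + 1)).eval b)) := by
        have hn1 := hi.1
        have hn2 := hi.2.1
        rw [hT] at hn1
        rw [hT'] at hn2
        obtain ⟨k1, k2⟩ := rep_supp hn1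
        obtain ⟨k1', k2'⟩ := rep_supp hn2
        have e1 := hmonom (i.val + 1) (by omega) _ _ k1 k2
        have e2 := hmonom (i.val + 1) (by omega) _ _ k1' k2'
        refine (e1.sub e2).congr fun b _ => ?_
        rw [hT, hT', rep_eval, rep_eval]
      obtain ⟨c, a₀, a, ha, hb⟩ := hA
      refine ⟨c, a₀, a, fun j hj => ha j hj, fun b hbV => ?_⟩
      have hTb := hTne (i.val + 1) (by omega) hi.1 b hbV
      have hTb' := hTne' (i.val + 1) (by omega) hi.2.1 b hbV
      have hφb := hφne (i.val + 1) (by omega) hi.2.2 b hbV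
      have := hb b hbV
      rw [h1p i hi b hbV, hpN i hi, Real.log_div hTb hφb, Real.log_div hTb' hφb]
      rw [lam] at this
      linarith
    · refine ⟨Real.log 2, 0, 0, fun _ _ => rfl, fun b _ => ?_⟩
      rw [hpD i hi]
      have : (1 : ℝ) - 2 = -1 := by norm_num
      rw [this, Real.log_neg_eq_log, Real.log_one]
      simp
  · intro κ₁ α₁ h1 h2
    obtain ⟨c, a₀, a, -, hb⟩ := hmonom (r + 1) le_rfl κ₁ α₁ h1 h2
    exact ⟨c, a₀, a, fun b hbV => hb b (hV ▸ hbV)⟩

end Pool.Agent.Lib.MP_641cb6_lc.KH
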