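import Pool.Agent.Lib.MP_641cb6_lc.KH.Defs
import Pool.Agent.Lib.MP_641cb6_lc.KH.Comp
import Pool.Agent.Lib.MP_641cb6_lc.KH.Red
import Pool.Agent.Lib.MP_641cb6_lc.KH.Reg
import Pool.Agent.Lib.MP_641cb6_lc.KH.Rep

/-!
# Zeros of a chain of polynomials (CHAIN, helper50)
-/

set_option autoImplicit false

namespace Pool.Agent.Lib.MP_641cb6_lc.KH

open Set Topology

theorem chain_isOpen_good (φ : ℕ → Polynomial ℝ) (l : ℕ) : IsOpen (good φ l) := by
  have h : good φ l = ⋂ j ∈ Finset.range l, {b : ℝ | φ j ≠ 0 → (φ j).eval b ≠ 0} := by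
    ext b
    simp [good]
  rw [h]
  refine isOpen_biInter_finset fun j _ => ?_
  by_cases hj : φ j = 0
  · simp [hj]
  · have : {b : ℝ | φ j ≠ 0 → (φ j).eval b ≠ 0} = {b : ℝ | (φ j).eval b ≠ 0} := by
      ext b
      simp [hj]
    rw [this]
    exact isOpen_ne_fun (φ j).continuous continuous_const

theorem chain_lam_contDiffOn {r : ℕ} {V : Set ℝ} (hV0 : ∀ b ∈ V, b ≠ 0) {p : Fin r → ℝ → ℝ}
    (hp : RChain r V p) (c a₀ : ℝ) (a : Fin r → ℝ) : ContDiffOn ℝ 1 (lam p c a₀ a) V := by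
  unfold lam
  refine (contDiffOn_const.add (contDiffOn_const.mul ?_)).add ?_
  · exact contDiffOn_id.log hV0
  · refine ContDiffOn.sum fun j _ => contDiffOn_const.mul ?_
    exact (hp.smooth j).log (hp.ne_zero j)

/-- A nonzero multiple of a product of powers does not vanish at good points. -/
theorem chain_mono_ne_zero {φ : ℕ → Polynomial ℝ} {l : ℕ} {κ : ℝ} {α : ℕ → ℕ}
    (h : Polynomial.C κ * ∏ j ∈ Finset.range l, φ j ^ α j ≠ 0) :
    κ ≠ 0 ∧ (∀ j < l, α j ≠ 0 → φ j ≠ 0) ∧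
      ∀ b ∈ good φ l, κ * ∏ j ∈ Finset.range l, (φ j).eval b ^ α j ≠ 0 := by
  have h1 : κ ≠ 0 := by
    rintro rfl
    simp at h
  have h2 : ∀ j < l, α j ≠ 0 → φ j ≠ 0 := by
    intro j hj ha h0
    apply h
    rw [Finset.prod_eq_zero (Finset.mem_range.2 hj) (by rw [h0, zero_pow ha]), mul_zero]
  refine ⟨h1, h2, fun b hb => mul_ne_zero h1 ?_⟩
  rw [Finset.prod_ne_zero_iff]
  intro j hj
  have hj' := Finset.mem_range.1 hj
  by_cases ha : α j = 0
  · rw [ha, pow_zero]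
    exact one_ne_zero
  · exact pow_ne_zero _ (hb j hj' (h2 j hj' ha))

theorem chain_mono_eval (φ : ℕ → Polynomial ℝ) (l : ℕ) (κ : ℝ) (α : ℕ → ℕ) (b : ℝ) :
    (Polynomial.C κ * ∏ j ∈ Finset.range l, φ j ^ α j).eval b =
      κ * ∏ j ∈ Finset.range l, (φ j).eval b ^ α j := by
  rw [Polynomial.eval_mul, Polynomial.eval_C, Polynomial.eval_prod]
  simp

/-- The zeros of `φ (r + 1)` at good points. -/
theorem chain_step {φ : ℕ → Polynomial ℝ} {s r : ℕ} (h : IsChain φ s) (hr : r + 1 ≤ s) :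
    {b : ℝ | b ∈ good φ (r + 1) ∧ φ (r + 1) ≠ 0 ∧ (φ (r + 1)).eval b = 0}.encard ≤
      2 * ((2 * (r + 1) + 4) ^ (r + 2) ^ 2 : ℕ) := by
  obtain ⟨κ, κ', α, α', he⟩ := h.2 (r + 1) (by omega) hr
  set T : Polynomial ℝ := Polynomial.C κ * ∏ j ∈ Finset.range (r + 1), φ j ^ α j with hT
  set T' : Polynomial ℝ := Polynomial.C κ' * ∏ j ∈ Finset.range (r + 1), φ j ^ α' j with hT'
  by_cases hT0 : T = 0
  · have : {b : ℝ | b ∈ good φ (r + 1) ∧ φ (r + 1) ≠ 0 ∧ (φ (r + 1)).eval b = 0} = ∅ := by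
      rw [eq_empty_iff_forall_notMem]
      rintro b ⟨hb, h0, hz⟩
      rw [he, hT0, zero_add] at h0 hz
      have h1 := (chain_mono_ne_zero h0).2.2 b hb
      rw [hT', chain_mono_eval] at hz
      exact h1 hz
    rw [this, encard_empty]
    exact bot_le
  by_cases hT'0 : T' = 0
  · have : {b : ℝ | b ∈ good φ (r + 1) ∧ φ (r + 1) ≠ 0 ∧ (φ (r + 1)).eval b = 0} = ∅ := by
      rw [eq_empty_iff_forall_notMem]
      rintro b ⟨hb, h0, hz⟩
      rw [he, hT'0, add_zero] at h0 hz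
      have h1 := (chain_mono_ne_zero h0).2.2 b hb
      rw [hT, chain_mono_eval] at hz
      exact h1 hz
    rw [this, encard_empty]
    exact bot_le
  obtain ⟨k1, k2, k3⟩ := chain_mono_ne_zero hT0
  obtain ⟨k1', k2', k3'⟩ := chain_mono_ne_zero hT'0
  obtain ⟨p, hp, hrep⟩ := rep h (by omega : r ≤ s)
  obtain ⟨c, a₀, a, h1⟩ := hrep κ α k1 k2
  obtain ⟨c', a₀', a', h1'⟩ := hrep κ' α' k1' k2'
  set V : Set ℝ := good φ (r + 1) with hV
  have hVo : IsOpen V := chain_isOpen_good φ (r + 1)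
  have hV0 : ∀ b ∈ V, b ≠ 0 := by
    intro b hb
    have := hb 0 (by omega) (by rw [h.1]; exact Polynomial.X_ne_zero)
    rwa [h.1, Polynomial.eval_X] at this
  set f : ℝ → ℝ := lam p (c - c') (a₀ - a₀') (a - a') with hf
  have hfV : ∀ b ∈ V, f b = Real.log (T.eval b) - Real.log (T'.eval b) := by
    intro b hb
    rw [hT, hT', chain_mono_eval, chain_mono_eval, h1 b hb, h1' b hb, hf]
    simp only [lam, Pi.sub_apply, sub_mul, Finset.sum_sub_distrib]
    ring
  have hfc : ContDiffOn ℝ 1 f V := chain_lam_contDiffOn hV0 hp _ _ _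
  have hTV : ∀ b ∈ V, T.eval b ≠ 0 := by
    intro b hb
    rw [hT, chain_mono_eval]
    exact k3 b hb
  have hTV' : ∀ b ∈ V, T'.eval b ≠ 0 := by
    intro b hb
    rw [hT', chain_mono_eval]
    exact k3' b hb
  have hN : ∀ δ : ℝ, {b | b ∈ V ∧ f b - δ = 0 ∧ deriv f b ≠ 0}.encard ≤
      (((2 * (r + 1) + 4) ^ (r + 2) ^ 2 : ℕ) : ℕ∞) := by
    intro δ
    have e1 : lam p (c - c' - δ) (a₀ - a₀') (a - a') = fun b => f b - δ := by
      funext b
      rw [hf]
      simp only [lam]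
      ring
    have e2 := red hVo hV0 hp (c - c' - δ) (a₀ - a₀') (a - a')
    rw [e1] at e2
    have e3 : deriv (fun b => f b - δ) = deriv f := by
      funext b
      exact deriv_sub_const δ
    rw [e3] at e2
    push_cast
    exact e2
  refine reg hVo hfc hN ?_ ?_
  · rintro b ⟨hb, -, hz⟩
    refine ⟨hb, ?_⟩
    rw [hfV b hb]
    rw [he, Polynomial.eval_add] at hz
    have : T.eval b = -T'.eval b := by linarith
    rw [this, Real.log_neg_eq_log, sub_self]
  · rintro b ⟨hb, h0, hz⟩ O hO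
    by_contra hcon
    push Not at hcon
    have hnb : O ∩ V ∈ 𝓝 b := Filter.inter_mem hO (hVo.mem_nhds hb)
    have hinf : (O ∩ V).Infinite := infinite_of_mem_nhds b hnb
    have hsq : (T - T') * (T + T') = 0 := by
      refine Polynomial.eq_zero_of_infinite_isRoot _ (hinf.mono ?_)
      rintro x ⟨hxO, hxV⟩
      have e1 := hcon x hxO
      rw [hfV x hxV, sub_eq_zero] at e1
      have e2 := Real.log_abs (T.eval x)
      have e3 := Real.log_abs (T'.eval x)
      have e4 : |T.eval x| = |T'.eval x| := by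
        apply Real.log_injOn_pos
        · exact abs_pos.2 (hTV x hxV)
        · exact abs_pos.2 (hTV' x hxV)
        · rw [e2, e3, e1]
      show Polynomial.IsRoot _ x
      rw [Polynomial.IsRoot.def, Polynomial.eval_mul, Polynomial.eval_sub, Polynomial.eval_add]
      have e5 : T.eval x ^ 2 = T'.eval x ^ 2 := (sq_eq_sq_iff_abs_eq_abs _ _).2 e4
      linear_combination e5
    rw [he] at h0 hz
    rcases mul_eq_zero.1 hsq with h3 | h3
    · rw [sub_eq_zero] at h3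
      rw [Polynomial.eval_add, ← h3] at hz
      exact hTV b hb (by linarith)
    · exact h0 h3

theorem chain_bound {φ : ℕ → Polynomial ℝ} {s : ℕ} (h : IsChain φ s) :
    {b : ℝ | ∃ l ≤ s, φ l ≠ 0 ∧ (φ l).eval b = 0}.encard ≤ (2 * s + 4) ^ (s + 2) ^ 2 := by
  have key : ∀ t ≤ s, {b : ℝ | ∃ l ≤ t, φ l ≠ 0 ∧ (φ l).eval b = 0}.encard ≤
      (((2 * t + 4) ^ (t + 2) ^ 2 : ℕ) : ℕ∞) := by
    intro t
    induction t with
    | zero =>
      intro _
      have hs : {b : ℝ | ∃ l ≤ 0, φ l ≠ 0 ∧ (φ l).eval b = 0} ⊆ {0} := by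
        rintro b ⟨l, hl, -, hz⟩
        obtain rfl : l = 0 := by omega
        rw [h.1, Polynomial.eval_X] at hz
        exact hz
      refine (encard_le_encard hs).trans ?_
      rw [encard_singleton]
      exact_mod_cast (by norm_num : 1 ≤ (2 * 0 + 4) ^ (0 + 2) ^ 2)
    | succ t ih =>
      intro ht
      have hs : {b : ℝ | ∃ l ≤ t + 1, φ l ≠ 0 ∧ (φ l).eval b = 0} ⊆
          {b : ℝ | ∃ l ≤ t, φ l ≠ 0 ∧ (φ l).eval b = 0} ∪
          {b : ℝ | b ∈ good φ (t + 1) ∧ φ (t + 1) ≠ 0 ∧ (φ (t + 1)).eval b = 0} := by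
        rintro b ⟨l, hl, h0, hz⟩
        by_cases hb : ∃ l ≤ t, φ l ≠ 0 ∧ (φ l).eval b = 0
        · exact Or.inl hb
        · right
          have hl' : l = t + 1 := by
            by_contra hne
            exact hb ⟨l, by omega, h0, hz⟩
          subst hl'
          refine ⟨fun j hj h0' hz' => hb ⟨j, by omega, h0', hz'⟩, h0, hz⟩
      refine (encard_le_encard hs).trans ((encard_union_le _ _).trans ?_)
      refine (add_le_add (ih (by omega)) (chain_step h ht)).trans ?_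
      have e1 : (2 * t + 4) ^ (t + 2) ^ 2 ≤ (2 * (t + 1) + 4) ^ (t + 2) ^ 2 :=
        Nat.pow_le_pow_left (by omega) _
      have e2 : (2 * (t + 1) + 4) ^ (t + 2) ^ 2 * 3 ≤ (2 * (t + 1) + 4) ^ (t + 1 + 2) ^ 2 := by
        calc (2 * (t + 1) + 4) ^ (t + 2) ^ 2 * 3
            ≤ (2 * (t + 1) + 4) ^ (t + 2) ^ 2 * (2 * (t + 1) + 4) :=
              Nat.mul_le_mul_left _ (by omega)
          _ = (2 * (t + 1) + 4) ^ ((t + 2) ^ 2 + 1) := (pow_succ _ _).symm
          _ ≤ (2 * (t + 1) + 4) ^ (t + 1 + 2) ^ 2 :=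
              Nat.pow_le_pow_right (by omega) (by nlinarith)
      have e3 : (2 * t + 4) ^ (t + 2) ^ 2 + 2 * (2 * (t + 1) + 4) ^ (t + 2) ^ 2 ≤
          (2 * (t + 1) + 4) ^ (t + 1 + 2) ^ 2 := by omega
      exact_mod_cast e3
  have := key s le_rfl
  push_cast at this
  exact this

end Pool.Agent.Lib.MP_641cb6_lc.KH
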