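import Pool.Agent.Lib.MP_641cb6_lc.KH.Defs
import Pool.Agent.Lib.MP_641cb6_lc.KH.Comp
import Pool.Agent.Lib.MP_641cb6_lc.KH.SymDefs
import Pool.Agent.Lib.MP_641cb6_lc.KH.Chain
import Pool.Agent.Lib.MP_641cb6_lc.KH.SymC

/-!
# LINE (helper45): the zeros of atoms on a line
-/

set_option autoImplicit false

namespace Pool.Agent.Lib.MP_641cb6_lc.KH

open Set

/-- the atoms restricted to a line, starting with `b` -/
noncomputable def lineChain {n : ℕ} (s : SSt n) (a : Fin n → ℝ) (j : ℕ) : Polynomial ℝ :=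
  (s.atom (n + j)).map (MvPolynomial.eval a)

theorem map_atom_lt {n : ℕ} (s : SSt n) (a : Fin n → ℝ) {j : ℕ} (hj : j < n) :
    (s.atom j).map (MvPolynomial.eval a) = Polynomial.C (a ⟨j, hj⟩) := by
  rw [SSt.atom, dif_pos hj, Polynomial.map_C, MvPolynomial.eval_X]

theorem map_term {n : ℕ} (s : SSt n) (a : Fin n → ℝ) (κ : ℝ) (α : ℕ → ℕ) (l : ℕ) :
    ∃ κ₁ : ℝ, (Polynomial.C (MvPolynomial.C κ) *
        ∏ j ∈ Finset.range (n + l), s.atom j ^ α j).map (MvPolynomial.eval a) =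
      Polynomial.C κ₁ * ∏ j ∈ Finset.range l, lineChain s a j ^ α (n + j) := by
  refine ⟨κ * ∏ j ∈ Finset.range n, (if h : j < n then a ⟨j, h⟩ else 1) ^ α j, ?_⟩
  rw [Polynomial.map_mul, Polynomial.map_C, MvPolynomial.eval_C, Polynomial.map_prod,
    Finset.prod_range_add, Polynomial.C_mul, map_prod, mul_assoc]
  congr 1
  congr 1
  · refine Finset.prod_congr rfl fun j hj => ?_
    have hj' := Finset.mem_range.1 hj
    rw [Polynomial.map_pow, map_atom_lt s a hj', dif_pos hj', Polynomial.C_pow]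
  · refine Finset.prod_congr rfl fun j _ => ?_
    rw [Polynomial.map_pow, lineChain]

theorem lineChain_isChain {n : ℕ} (T : CompTree ℝ) (h : List Bool) (a : Fin n → ℝ) :
    IsChain (lineChain (sym n T h) a) (sym n T h).atoms.length := by
  constructor
  · rw [lineChain, SSt.atom, dif_neg (by omega), if_pos (by omega), Polynomial.map_X]
  · intro l hl hls
    obtain ⟨κ, κ', α, α', he⟩ := sym_chain (n := n) T h (l - 1) (by omega)
    rw [show n + 1 + (l - 1) = n + l by omega] at he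
    obtain ⟨κ₁, h1⟩ := map_term (sym n T h) a κ α l
    obtain ⟨κ₂, h2⟩ := map_term (sym n T h) a κ' α' l
    refine ⟨κ₁, κ₂, fun j => α (n + j), fun j => α' (n + j), ?_⟩
    rw [lineChain, he, Polynomial.map_add, h1, h2]

theorem line_bound {n : ℕ} (T : CompTree ℝ) (h : List Bool) (a : Fin n → ℝ) :
    {b : ℝ | ∃ l, n ≤ l ∧ l < n + 1 + (sym n T h).atoms.length ∧
      (∃ b', (sym n T h).ev (a, b') l ≠ 0) ∧ (sym n T h).ev (a, b) l = 0}.encard ≤
      (2 * (sym n T h).atoms.length + 4) ^ ((sym n T h).atoms.length + 2) ^ 2 := by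
  refine le_trans (Set.encard_le_encard ?_) (chain_bound (lineChain_isChain T h a))
  rintro b ⟨l, hnl, hl, ⟨b', hb'⟩, hb⟩
  refine ⟨l - n, by omega, ?_, ?_⟩
  · intro h0
    apply hb'
    rw [SSt.ev, polyFun]
    rw [lineChain, Nat.add_sub_cancel' hnl] at h0
    show Polynomial.eval b' _ = 0
    rw [show ((a, b') : (Fin n → ℝ) × ℝ).1 = a from rfl, h0, Polynomial.eval_zero]
  · rw [lineChain, Nat.add_sub_cancel' hnl]
    exact hb

end Pool.Agent.Lib.MP_641cb6_lc.KH
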