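import Pool.Agent.Lib.MP_641cb6_lc.KH.SymDefs

/-!
# The symbolic execution agrees with the run (module SIM)
-/

set_option autoImplicit false

namespace Pool.Agent.Lib.MP_641cb6_lc.KH

open Set

namespace Sim

/-- the invariant that relates a state and a symbolic state -/
structure Inv {n : ℕ} (x : (Fin n → ℝ) × ℝ) (s : State ℝ) (σ : SSt n) : Prop where
  cost : s.cost = σ.atoms.length
  len : s.vals.length = σ.vals.length
  supp : ∀ i l, (σ.val i).2 l ≠ 0 → l < n + 1 + σ.atoms.length
  val : ∀ i, s.val i = (σ.val i).1 *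
    ∏ l ∈ Finset.range (n + 1 + σ.atoms.length), σ.ev x l ^ (σ.val i).2 l
  neg : ∀ i l, (σ.val i).2 l < 0 → σ.ev x l ≠ 0

theorem getD_append_lt {α : Type} (L : List α) (a d : α) {i : ℕ} (h : i < L.length) :
    (L ++ [a]).getD i d = L.getD i d := by
  rw [List.getD_append _ _ _ _ h]

theorem getD_append_eq {α : Type} (L : List α) (a d : α) :
    (L ++ [a]).getD L.length d = a := by
  rw [List.getD_append_right _ _ _ _ le_rfl]
  simp

theorem getD_append_gt {α : Type} (L : List α) (a d : α) {i : ℕ} (h : L.length < i) :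
    (L ++ [a]).getD i d = d := by
  rw [List.getD_append_right _ _ _ _ h.le, List.getD_eq_default]
  simp
  omega

/-- append a value -/
theorem Inv.append {n : ℕ} {x : (Fin n → ℝ) × ℝ} {s : State ℝ} {σ : SSt n} (H : Inv x s σ)
    (h' : List Bool) (v c : ℝ) (e : ℕ →₀ ℤ)
    (he : ∀ l, e l ≠ 0 → l < n + 1 + σ.atoms.length)
    (hv : v = c * ∏ l ∈ Finset.range (n + 1 + σ.atoms.length), σ.ev x l ^ e l)
    (hneg : ∀ l, e l < 0 → σ.ev x l ≠ 0) :
    Inv x ⟨h', s.vals ++ [v], s.cost⟩ (⟨σ.atoms, σ.vals ++ [(c, e)]⟩ : SSt n) := by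
  have hev : ∀ l, (⟨σ.atoms, σ.vals ++ [(c, e)]⟩ : SSt n).ev x l = σ.ev x l := fun l => rfl
  have hval : ∀ i, (i < σ.vals.length ∧
      (⟨σ.atoms, σ.vals ++ [(c, e)]⟩ : SSt n).val i = σ.val i ∧
      (⟨h', s.vals ++ [v], s.cost⟩ : State ℝ).val i = s.val i) ∨
      (i = σ.vals.length ∧ (⟨σ.atoms, σ.vals ++ [(c, e)]⟩ : SSt n).val i = (c, e) ∧
      (⟨h', s.vals ++ [v], s.cost⟩ : State ℝ).val i = v) ∨
      (σ.vals.length < i ∧ (⟨σ.atoms, σ.vals ++ [(c, e)]⟩ : SSt n).val i = (0, 0) ∧
      (⟨h', s.vals ++ [v], s.cost⟩ : State ℝ).val i = 0) := by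
    intro i
    rcases lt_trichotomy i σ.vals.length with hi | hi | hi
    · exact Or.inl ⟨hi, getD_append_lt _ _ _ hi, getD_append_lt _ _ _ (by rw [H.len]; exact hi)⟩
    · refine Or.inr (Or.inl ⟨hi, ?_, ?_⟩)
      · rw [hi]; exact getD_append_eq _ _ _
      · rw [hi, ← H.len]; exact getD_append_eq _ _ _
    · exact Or.inr (Or.inr ⟨hi, getD_append_gt _ _ _ hi,
        getD_append_gt _ _ _ (by rw [H.len]; exact hi)⟩)
  refine ⟨H.cost, by simp [H.len], ?_, ?_, ?_⟩
  · intro i l
    rcases hval i with ⟨-, h1, -⟩ | ⟨-, h1, -⟩ | ⟨-, h1, -⟩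
    · rw [h1]; exact H.supp i l
    · rw [h1]; exact he l
    · rw [h1]; intro h; exact absurd rfl h
  · intro i
    rcases hval i with ⟨-, h1, h2⟩ | ⟨-, h1, h2⟩ | ⟨-, h1, h2⟩
    · rw [h1, h2]; exact H.val i
    · rw [h1, h2]; exact hv
    · rw [h1, h2]; simp
  · intro i l
    rcases hval i with ⟨-, h1, -⟩ | ⟨-, h1, -⟩ | ⟨-, h1, -⟩
    · rw [h1]; exact H.neg i l
    · rw [h1]; exact hneg l
    · rw [h1]; intro h; exact absurd h (lt_irrefl _)

/-- only the cost and the values matter -/
theorem Inv.hist {n : ℕ} {x : (Fin n → ℝ) × ℝ} {s : State ℝ} {σ : SSt n} (H : Inv x s σ)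
    (h' : List Bool) : Inv x ⟨h', s.vals, s.cost⟩ σ :=
  ⟨H.cost, H.len, H.supp, H.val, H.neg⟩

/-- append an atom -/
theorem Inv.atom {n : ℕ} {x : (Fin n → ℝ) × ℝ} {s : State ℝ} {σ : SSt n} (H : Inv x s σ)
    (p : Pol n) : Inv x ⟨s.hist, s.vals, s.cost + 1⟩ (⟨σ.atoms ++ [p], σ.vals⟩ : SSt n) := by
  have hev : ∀ l, l < n + 1 + σ.atoms.length →
      (⟨σ.atoms ++ [p], σ.vals⟩ : SSt n).ev x l = σ.ev x l := by
    intro l hl
    unfold SSt.ev SSt.atom
    by_cases h1 : l < n
    · simp [h1]
    · by_cases h2 : l = n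
      · simp [h2]
      · simp only [h1, h2, dif_neg, not_false_eq_true, if_neg]
        rw [getD_append_lt _ _ _ (by omega)]
  refine ⟨by simp [H.cost], H.len, ?_, ?_, ?_⟩
  · intro i l hl
    have h1 : l < n + 1 + σ.atoms.length := H.supp i l hl
    have h2 : (σ.atoms ++ [p]).length = σ.atoms.length + 1 := by simp
    show l < n + 1 + (σ.atoms ++ [p]).length
    omega
  · intro i
    have h0 := H.val i
    have h2 : n + 1 + (σ.atoms ++ [p]).length = (n + 1 + σ.atoms.length) + 1 := by simp; omega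
    show s.val i = (σ.val i).1 * ∏ l ∈ Finset.range (n + 1 + (σ.atoms ++ [p]).length),
      (⟨σ.atoms ++ [p], σ.vals⟩ : SSt n).ev x l ^ (σ.val i).2 l
    rw [h2, Finset.prod_range_succ]
    have h3 : (σ.val i).2 (n + 1 + σ.atoms.length) = 0 := by
      by_contra h
      exact absurd (H.supp i _ h) (lt_irrefl _)
    rw [h3, zpow_zero, mul_one, h0]
    congr 1
    refine Finset.prod_congr rfl fun l hl => ?_
    rw [hev l (Finset.mem_range.1 hl)]
  · intro i l hl
    have h1 : l < n + 1 + σ.atoms.length := H.supp i l (ne_of_lt hl)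
    rw [hev l h1]
    exact H.neg i l hl

theorem ev_new {n : ℕ} (x : (Fin n → ℝ) × ℝ) (σ : SSt n) (p : Pol n) :
    (⟨σ.atoms ++ [p], σ.vals⟩ : SSt n).ev x (n + 1 + σ.atoms.length) = polyFun p x := by
  unfold SSt.ev SSt.atom
  have h1 : ¬ (n + 1 + σ.atoms.length < n) := by omega
  have h2 : ¬ (n + 1 + σ.atoms.length = n) := by omega
  have h3 : n + 1 + σ.atoms.length - n - 1 = σ.atoms.length := by omega
  simp only [h1, h2, dif_neg, not_false_eq_true, if_neg, h3]
  rw [getD_append_eq]

theorem ev_old {n : ℕ} (x : (Fin n → ℝ) × ℝ) (σ : SSt n) (p : Pol n) (l : ℕ)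
    (hl : l < n + 1 + σ.atoms.length) :
    (⟨σ.atoms ++ [p], σ.vals⟩ : SSt n).ev x l = σ.ev x l := by
  unfold SSt.ev SSt.atom
  by_cases h1 : l < n
  · simp [h1]
  · by_cases h2 : l = n
    · simp [h2]
    · simp only [h1, h2, dif_neg, not_false_eq_true, if_neg]
      rw [getD_append_lt _ _ _ (by omega)]

theorem polyFun_mono {n : ℕ} (x : (Fin n → ℝ) × ℝ) (σ : SSt n) (e : ℕ → ℕ) :
    polyFun (σ.mono e) x =
      ∏ l ∈ Finset.range (n + 1 + σ.atoms.length), σ.ev x l ^ e l := by
  unfold polyFun SSt.mono SSt.ev polyFun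
  simp only [Polynomial.map_prod, Polynomial.map_pow, Polynomial.eval_prod, Polynomial.eval_pow]

theorem polyFun_comb {n : ℕ} (x : (Fin n → ℝ) × ℝ) (p q : Pol n) (c d : ℝ) :
    polyFun (Polynomial.C (MvPolynomial.C c) * p + Polynomial.C (MvPolynomial.C d) * q) x =
      c * polyFun p x + d * polyFun q x := by
  unfold polyFun
  simp

/-- powers of a number that is only raised to nonnegative powers if it is zero -/
theorem zpow_add' {a : ℝ} {p q : ℤ} (hp : p < 0 → a ≠ 0) (hq : q < 0 → a ≠ 0) :
    a ^ (p + q) = a ^ p * a ^ q := by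
  by_cases ha : a = 0
  · have hp' : 0 ≤ p := by
      by_contra h
      exact hp (not_le.1 h) ha
    have hq' : 0 ≤ q := by
      by_contra h
      exact hq (not_le.1 h) ha
    obtain ⟨p', rfl⟩ := Int.eq_ofNat_of_zero_le hp'
    obtain ⟨q', rfl⟩ := Int.eq_ofNat_of_zero_le hq'
    have : ((p' : ℤ) + (q' : ℤ)) = ((p' + q' : ℕ) : ℤ) := by push_cast; rfl
    rw [this, zpow_natCast, zpow_natCast, zpow_natCast, pow_add]
  · exact zpow_add₀ ha p q


/-- one step -/
theorem Inv.step {n : ℕ} {x : (Fin n → ℝ) × ℝ} {s : State ℝ} {σ : SSt n} (H : Inv x s σ)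
    (P : ℝ → Prop) (T : CompTree ℝ) (hσ : σ = sym n T s.hist) :
    Inv x (T.step P s) (sym n T (T.step P s).hist) := by
  classical
  cases hins : T s.hist with
  | const c =>
    have h1 : T.step P s = ⟨true :: s.hist, s.vals ++ [c], s.cost⟩ := by
      unfold CompTree.step
      rw [hins]
      simp
    have h2 : sym n T (true :: s.hist) = ⟨σ.atoms, σ.vals ++ [(c, 0)]⟩ := by
      rw [hσ]
      show sstep (T s.hist) true (sym n T s.hist) = _
      rw [hins]
      rfl
    rw [h1]
    show Inv x _ (sym n T (true :: s.hist))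
    rw [h2]
    exact H.append _ _ _ _ (fun l h => absurd rfl h) (by simp)
      (fun l h => absurd h (lt_irrefl _))
  | mul i j =>
    have h1 : T.step P s = ⟨true :: s.hist, s.vals ++ [s.val i * s.val j], s.cost⟩ := by
      unfold CompTree.step
      rw [hins]
    have h2 : sym n T (true :: s.hist) = ⟨σ.atoms, σ.vals ++
        [((σ.val i).1 * (σ.val j).1, (σ.val i).2 + (σ.val j).2)]⟩ := by
      rw [hσ]
      show sstep (T s.hist) true (sym n T s.hist) = _
      rw [hins]
      rfl
    rw [h1]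
    show Inv x _ (sym n T (true :: s.hist))
    rw [h2]
    refine H.append _ _ _ _ ?_ ?_ ?_
    · intro l hl
      by_cases h3 : (σ.val i).2 l = 0
      · refine H.supp j l fun h4 => hl ?_
        simp [h3, h4]
      · exact H.supp i l h3
    · rw [H.val i, H.val j]
      have h3 : ∏ l ∈ Finset.range (n + 1 + σ.atoms.length),
          σ.ev x l ^ ((σ.val i).2 + (σ.val j).2) l =
          (∏ l ∈ Finset.range (n + 1 + σ.atoms.length), σ.ev x l ^ (σ.val i).2 l) *
          ∏ l ∈ Finset.range (n + 1 + σ.atoms.length), σ.ev x l ^ (σ.val j).2 l := by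
        rw [← Finset.prod_mul_distrib]
        refine Finset.prod_congr rfl fun l _ => ?_
        rw [Finsupp.add_apply]
        exact zpow_add' (H.neg i l) (H.neg j l)
      rw [h3]
      ring
    · intro l hl
      rw [Finsupp.add_apply] at hl
      by_cases h3 : (σ.val i).2 l < 0
      · exact H.neg i l h3
      · exact H.neg j l (by omega)
  | div i j =>
    have h1 : T.step P s = ⟨decide (s.val j = 0) :: s.hist, s.vals ++ [s.val i / s.val j],
        s.cost⟩ := by
      unfold CompTree.step
      rw [hins]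
    have h2 : ∀ o : Bool, sym n T (o :: s.hist) = ⟨σ.atoms, σ.vals ++ [if o then (0, 0) else
        ((σ.val i).1 / (σ.val j).1, (σ.val i).2 - (σ.val j).2)]⟩ := by
      intro o
      rw [hσ]
      show sstep (T s.hist) o (sym n T s.hist) = _
      rw [hins]
      rfl
    rw [h1]
    show Inv x _ (sym n T (decide (s.val j = 0) :: s.hist))
    rw [h2]
    by_cases hj : s.val j = 0
    · rw [if_pos (by simp [hj])]
      exact H.append _ _ _ _ (fun l h => absurd rfl h) (by simp [hj])
        (fun l h => absurd h (lt_irrefl _))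
    · rw [if_neg (by simp [hj])]
      have hj2 := H.val j
      have hc : (σ.val j).1 ≠ 0 := by
        intro h
        rw [h, zero_mul] at hj2
        exact hj hj2
      have hp : ∏ l ∈ Finset.range (n + 1 + σ.atoms.length), σ.ev x l ^ (σ.val j).2 l ≠ 0 := by
        intro h
        rw [h, mul_zero] at hj2
        exact hj hj2
      have hpos : ∀ l, (σ.val j).2 l ≠ 0 → σ.ev x l ≠ 0 := by
        intro l hl h0
        have h3 := Finset.prod_ne_zero_iff.1 hp l (Finset.mem_range.2 (H.supp j l hl))
        rw [h0, zero_zpow _ hl] at h3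
        exact h3 rfl
      refine H.append _ _ _ _ ?_ ?_ ?_
      · intro l hl
        by_cases h3 : (σ.val i).2 l = 0
        · refine H.supp j l fun h4 => hl ?_
          simp [h3, h4]
        · exact H.supp i l h3
      · have h3 : ∏ l ∈ Finset.range (n + 1 + σ.atoms.length),
            σ.ev x l ^ ((σ.val i).2 - (σ.val j).2) l =
            (∏ l ∈ Finset.range (n + 1 + σ.atoms.length), σ.ev x l ^ (σ.val i).2 l) /
            ∏ l ∈ Finset.range (n + 1 + σ.atoms.length), σ.ev x l ^ (σ.val j).2 l := by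
          rw [← Finset.prod_div_distrib]
          refine Finset.prod_congr rfl fun l _ => ?_
          rw [Finsupp.sub_apply]
          by_cases h4 : (σ.val j).2 l = 0
          · simp [h4]
          · exact zpow_sub₀ (hpos l h4) _ _
        rw [h3, H.val i, H.val j]
        field_simp
      · intro l hl
        rw [Finsupp.sub_apply] at hl
        by_cases h3 : (σ.val i).2 l < 0
        · exact H.neg i l h3
        · exact hpos l (by omega)
  | add c d i j =>
    set e := (σ.val i).2 ⊓ (σ.val j).2 with he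
    set p : Pol n := Polynomial.C (MvPolynomial.C (c * (σ.val i).1)) *
          σ.mono (fun l => ((σ.val i).2 l - e l).toNat) +
        Polynomial.C (MvPolynomial.C (d * (σ.val j).1)) *
          σ.mono (fun l => ((σ.val j).2 l - e l).toNat) with hp
    have h1 : T.step P s = ⟨true :: s.hist, s.vals ++ [c • s.val i + d • s.val j],
        s.cost + 1⟩ := by
      unfold CompTree.step
      rw [hins]
    have h2 : sym n T (true :: s.hist) = ⟨σ.atoms ++ [p], σ.vals ++
        [(1, e + Finsupp.single (n + 1 + σ.atoms.length) 1)]⟩ := by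
      rw [hp, he, hσ]
      show sstep (T s.hist) true (sym n T s.hist) = _
      rw [hins]
      rfl
    rw [h1]
    show Inv x _ (sym n T (true :: s.hist))
    rw [h2]
    have hmin : ∀ l, e l = min ((σ.val i).2 l) ((σ.val j).2 l) := fun l => by
      rw [he, Finsupp.inf_apply]
    have he0 : ∀ l, e l ≠ 0 → l < n + 1 + σ.atoms.length := by
      intro l hl
      by_cases h3 : (σ.val i).2 l = 0
      · refine H.supp j l fun h4 => hl ?_
        rw [hmin, h3, h4, min_self]
      · exact H.supp i l h3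
    have heN : e (n + 1 + σ.atoms.length) = 0 := by
      by_contra h
      exact absurd (he0 _ h) (lt_irrefl _)
    have heneg : ∀ l, e l < 0 → σ.ev x l ≠ 0 := by
      intro l hl
      rw [hmin] at hl
      rcases min_lt_iff.1 hl with h3 | h3
      · exact H.neg i l h3
      · exact H.neg j l h3
    have hlen : (σ.atoms ++ [p]).length = σ.atoms.length + 1 := by simp
    refine (H.atom p).append _ _ _ _ ?_ ?_ ?_
    · intro l hl
      show l < n + 1 + (σ.atoms ++ [p]).length
      rw [Finsupp.add_apply] at hl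
      by_cases h3 : l = n + 1 + σ.atoms.length
      · omega
      · rw [Finsupp.single_eq_of_ne h3, add_zero] at hl
        have := he0 l hl
        omega
    · show c • s.val i + d • s.val j = 1 *
        ∏ l ∈ Finset.range (n + 1 + (σ.atoms ++ [p]).length),
          (⟨σ.atoms ++ [p], σ.vals⟩ : SSt n).ev x l ^
            (e + Finsupp.single (n + 1 + σ.atoms.length) (1 : ℤ)) l
      have h3 : n + 1 + (σ.atoms ++ [p]).length = (n + 1 + σ.atoms.length) + 1 := by omega
      rw [h3, Finset.prod_range_succ, ev_new, Finsupp.add_apply, heN, Finsupp.single_eq_same,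
        zero_add, zpow_one]
      have h4 : ∏ l ∈ Finset.range (n + 1 + σ.atoms.length),
          (⟨σ.atoms ++ [p], σ.vals⟩ : SSt n).ev x l ^
            (e + Finsupp.single (n + 1 + σ.atoms.length) (1 : ℤ)) l =
          ∏ l ∈ Finset.range (n + 1 + σ.atoms.length), σ.ev x l ^ e l := by
        refine Finset.prod_congr rfl fun l hl => ?_
        have h5 := Finset.mem_range.1 hl
        rw [ev_old x σ p l h5, Finsupp.add_apply, Finsupp.single_eq_of_ne (by omega), add_zero]
      rw [h4, hp, polyFun_comb, polyFun_mono, polyFun_mono]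
      have h6 : ∀ q : ℕ →₀ ℤ, (∀ l, e l ≤ q l) → (∀ l, q l < 0 → σ.ev x l ≠ 0) →
          (∏ l ∈ Finset.range (n + 1 + σ.atoms.length), σ.ev x l ^ e l) *
          ∏ l ∈ Finset.range (n + 1 + σ.atoms.length), σ.ev x l ^ (q l - e l).toNat =
          ∏ l ∈ Finset.range (n + 1 + σ.atoms.length), σ.ev x l ^ q l := by
        intro q hq hq'
        rw [← Finset.prod_mul_distrib]
        refine Finset.prod_congr rfl fun l _ => ?_
        have h7 : ((q l - e l).toNat : ℤ) = q l - e l := Int.toNat_of_nonneg (by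
          have := hq l
          omega)
        rw [← zpow_natCast, h7, ← zpow_add' (heneg l) (fun h => absurd (hq l) (by omega))]
        congr 1
        ring
      have h8 := h6 (σ.val i).2 (fun l => by rw [hmin]; exact min_le_left _ _) (H.neg i)
      have h9 := h6 (σ.val j).2 (fun l => by rw [hmin]; exact min_le_right _ _) (H.neg j)
      rw [H.val i, H.val j, ← h8, ← h9, smul_eq_mul, smul_eq_mul]
      ring
    · intro l hl
      rw [Finsupp.add_apply] at hl
      by_cases h3 : l = n + 1 + σ.atoms.length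
      · rw [h3, heN, Finsupp.single_eq_same] at hl
        omega
      · rw [Finsupp.single_eq_of_ne h3, add_zero] at hl
        rw [ev_old x σ p l (he0 l (ne_of_lt hl))]
        exact heneg l hl
  | test i =>
    have h1 : T.step P s = ⟨decide (P (s.val i)) :: s.hist, s.vals, s.cost⟩ := by
      unfold CompTree.step
      rw [hins]
    have h2 : ∀ o : Bool, sym n T (o :: s.hist) = σ := by
      intro o
      rw [hσ]
      show sstep (T s.hist) o (sym n T s.hist) = _
      rw [hins]
      rfl
    rw [h1]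
    show Inv x _ (sym n T (decide (P (s.val i)) :: s.hist))
    rw [h2]
    exact H.hist _
  | answer b =>
    have h1 : T.step P s = s := by
      unfold CompTree.step
      rw [hins]
    rw [h1, ← hσ]
    exact H

/-- the start -/
theorem start {n : ℕ} (P : ℝ → Prop) (T : CompTree ℝ) (x : (Fin n → ℝ) × ℝ) :
    Inv x (T.run P x 0) (sym n T (T.run P x 0).hist) := by
  have h0 : T.run P x 0 = ⟨[], List.ofFn x.1 ++ [x.2], 0⟩ := rfl
  rw [h0]
  show Inv x _ (sym n T [])
  set σ : SSt n := sym n T [] with hσ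
  have hatoms : σ.atoms = [] := rfl
  have hvals : σ.vals = List.ofFn (fun i : Fin n => ((1 : ℝ), Finsupp.single (i : ℕ) (1 : ℤ))) ++
      [((1 : ℝ), Finsupp.single n (1 : ℤ))] := rfl
  have hv : ∀ i, (i ≤ n ∧ σ.val i = (1, Finsupp.single i 1)) ∨ (n < i ∧ σ.val i = (0, 0)) := by
    intro i
    unfold SSt.val
    rw [hvals]
    rcases lt_trichotomy i n with hi | hi | hi
    · left
      refine ⟨hi.le, ?_⟩
      rw [getD_append_lt _ _ _ (by simpa using hi)]
      rw [List.getD_eq_getElem _ _ (by simpa using hi)]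
      simp
    · left
      refine ⟨hi.le, ?_⟩
      have := getD_append_eq (List.ofFn (fun i : Fin n => ((1 : ℝ), Finsupp.single (i : ℕ) (1 : ℤ))))
        ((1 : ℝ), Finsupp.single n (1 : ℤ)) (0, 0)
      rw [List.length_ofFn] at this
      rw [hi, this]
    · right
      refine ⟨hi, ?_⟩
      rw [getD_append_gt _ _ _ (by simpa using hi)]
  have hev : ∀ (i : ℕ) (hi : i < n), σ.ev x i = x.1 ⟨i, hi⟩ := by
    intro i hi
    unfold SSt.ev SSt.atom polyFun
    simp [hi]
  have hevn : σ.ev x n = x.2 := by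
    unfold SSt.ev SSt.atom polyFun
    simp
  have hsv : ∀ i, (⟨[], List.ofFn x.1 ++ [x.2], 0⟩ : State ℝ).val i =
      if i ≤ n then σ.ev x i else 0 := by
    intro i
    show (List.ofFn x.1 ++ [x.2]).getD i 0 = _
    rcases lt_trichotomy i n with hi | hi | hi
    · rw [if_pos hi.le, hev i hi, getD_append_lt _ _ _ (by simpa using hi),
        List.getD_eq_getElem _ _ (by simpa using hi)]
      simp
    · rw [if_pos hi.le, hi, hevn]
      have := getD_append_eq (List.ofFn x.1) x.2 0
      rwa [List.length_ofFn] at this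
    · rw [if_neg (by omega), getD_append_gt _ _ _ (by simpa using hi)]
  refine ⟨by rw [hatoms]; rfl, by rw [hvals]; simp, ?_, ?_, ?_⟩
  · intro i l hl
    rcases hv i with ⟨h1, h2⟩ | ⟨h1, h2⟩
    · rw [h2] at hl
      by_cases h3 : l = i
      · omega
      · exact absurd (Finsupp.single_eq_of_ne h3) hl
    · rw [h2] at hl
      exact absurd rfl hl
  · intro i
    rw [hsv]
    rcases hv i with ⟨h1, h2⟩ | ⟨h1, h2⟩
    · rw [h2, if_pos h1, one_mul, Finset.prod_eq_single i]
      · simp
      · intro l _ hl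
        rw [Finsupp.single_eq_of_ne hl, zpow_zero]
      · intro h
        exact absurd (Finset.mem_range.2 (by omega)) h
    · rw [h2, if_neg (by omega)]
      simp
  · intro i l hl
    rcases hv i with ⟨h1, h2⟩ | ⟨h1, h2⟩
    · rw [h2] at hl
      by_cases h3 : l = i
      · rw [h3] at hl
        simp at hl
      · have := Finsupp.single_eq_of_ne (b := (1 : ℤ)) h3
        exact absurd hl (by
          show ¬ ((Finsupp.single i (1 : ℤ)) l < 0)
          rw [this]
          exact lt_irrefl _)
    · rw [h2] at hl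
      exact absurd hl (lt_irrefl _)

theorem inv {n : ℕ} (P : ℝ → Prop) (T : CompTree ℝ) (x : (Fin n → ℝ) × ℝ) (k : ℕ) :
    Inv x (T.run P x k) (sym n T (T.run P x k).hist) := by
  induction k with
  | zero => exact start P T x
  | succ k ih => exact ih.step P T rfl

end Sim

theorem sim_cost {n : ℕ} (P : ℝ → Prop) (T : CompTree ℝ) (x : (Fin n → ℝ) × ℝ) (k : ℕ) :
    (T.run P x k).cost = (sym n T (T.run P x k).hist).atoms.length :=
  (Sim.inv P T x k).cost

theorem sim_val {n : ℕ} (P : ℝ → Prop) (T : CompTree ℝ) (x : (Fin n → ℝ) × ℝ) (k i : ℕ) :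
    (T.run P x k).val i = ((sym n T (T.run P x k).hist).val i).1 *
      ((sym n T (T.run P x k).hist).val i).2.prod
        fun l m => (sym n T (T.run P x k).hist).ev x l ^ m := by
  have H := Sim.inv P T x k
  rw [H.val i]
  congr 1
  rw [Finsupp.prod]
  symm
  refine Finset.prod_subset ?_ ?_
  · intro l hl
    exact Finset.mem_range.2 (H.supp i l (Finsupp.mem_support_iff.1 hl))
  · intro l _ hl
    rw [Finsupp.notMem_support_iff.1 hl, zpow_zero]

theorem sim_neg {n : ℕ} (P : ℝ → Prop) (T : CompTree ℝ) (x : (Fin n → ℝ) × ℝ) (k i l : ℕ)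
    (hl : ((sym n T (T.run P x k).hist).val i).2 l < 0) :
    (sym n T (T.run P x k).hist).ev x l ≠ 0 :=
  (Sim.inv P T x k).neg i l hl

end Pool.Agent.Lib.MP_641cb6_lc.KH
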