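import Pool.Agent.Lib.MP_641cb6_lc.KH.Defs
import Pool.Agent.Lib.MP_641cb6_lc.KH.Comp
import Pool.Agent.Lib.MP_641cb6_lc.KH.SymDefs
import Pool.Agent.Lib.MP_641cb6_lc.KH.SymC
import Pool.Agent.Lib.MP_641cb6_lc.KH.Sim

/-!
# TPOL: test polynomials (helper32)
-/

set_option autoImplicit false

namespace Pool.Agent.Lib.MP_641cb6_lc.KH

open Set

theorem polyFun_mul {n : ℕ} (P Q : Pol n) (x : (Fin n → ℝ) × ℝ) :
    polyFun (P * Q) x = polyFun P x * polyFun Q x := by
  unfold polyFun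
  rw [Polynomial.map_mul, Polynomial.eval_mul]

theorem polyFun_C {n : ℕ} (c : ℝ) (x : (Fin n → ℝ) × ℝ) :
    polyFun (Polynomial.C (MvPolynomial.C c) : Pol n) x = c := by
  unfold polyFun
  simp

theorem polyFun_prod_pow {n : ℕ} (t : Finset ℕ) (f : ℕ → Pol n) (e : ℕ → ℕ)
    (x : (Fin n → ℝ) × ℝ) :
    polyFun (∏ l ∈ t, f l ^ e l) x = ∏ l ∈ t, polyFun (f l) x ^ e l := by
  unfold polyFun
  rw [Polynomial.map_prod, Polynomial.eval_prod]
  refine Finset.prod_congr rfl fun l _ => ?_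
  rw [Polynomial.map_pow, Polynomial.eval_pow]

/-- the function of a test polynomial -/
theorem polyFun_tpol {n : ℕ} (s : SSt n) (i : ℕ) (x : (Fin n → ℝ) × ℝ) :
    polyFun (s.tpol i) x = (s.val i).1 *
      ∏ l ∈ Finset.range (n + 1 + s.atoms.length), s.ev x l ^ ((s.val i).2 l).natAbs := by
  unfold SSt.tpol SSt.mono SSt.ev
  rw [polyFun_mul, polyFun_C, polyFun_prod_pow]

theorem sign_inv_real (a : ℝ) : SignType.sign a⁻¹ = SignType.sign a := by
  rcases lt_trichotomy a 0 with h | h | h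
  · rw [sign_neg h, sign_neg (inv_lt_zero.2 h)]
  · rw [h, inv_zero]
  · rw [sign_pos h, sign_pos (inv_pos.2 h)]

theorem sign_zpow_natAbs (a : ℝ) (m : ℤ) :
    SignType.sign (a ^ m) = SignType.sign (a ^ m.natAbs) := by
  rcases Int.natAbs_eq m with h | h
  · conv_lhs => rw [h]
    rw [zpow_natCast]
  · conv_lhs => rw [h]
    rw [zpow_neg, zpow_natCast, sign_inv_real]

theorem sign_prod {t : Finset ℕ} (f : ℕ → ℝ) :
    SignType.sign (∏ l ∈ t, f l) = ∏ l ∈ t, SignType.sign (f l) :=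
  map_prod signHom f t

/-- the sign of a value is the sign of its test polynomial -/
theorem sign_val {n : ℕ} (P : ℝ → Prop) (T : CompTree ℝ) (x : (Fin n → ℝ) × ℝ) (k i : ℕ) :
    SignType.sign ((T.run P x k).val i) =
      SignType.sign (polyFun ((sym n T (T.run P x k).hist).tpol i) x) := by
  rw [sim_val, polyFun_tpol, sign_mul, sign_mul]
  congr 1
  set s := sym n T (T.run P x k).hist with hs
  rw [Finsupp.prod_of_support_subset (s := Finset.range (n + 1 + s.atoms.length)) _ ?_ _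
    (fun l _ => zpow_zero _), sign_prod, sign_prod]
  · exact Finset.prod_congr rfl fun l _ => sign_zpow_natAbs _ _
  · intro l hl
    rw [Finset.mem_range]
    exact sym_supp T _ i l (Finsupp.mem_support_iff.1 hl)

theorem tpol_zero {n : ℕ} (P : ℝ → Prop) (T : CompTree ℝ) (x : (Fin n → ℝ) × ℝ) (k i : ℕ) :
    (T.run P x k).val i = 0 ↔ polyFun ((sym n T (T.run P x k).hist).tpol i) x = 0 := by
  rw [← sign_eq_zero_iff, sign_val, sign_eq_zero_iff]

theorem tpol_nonneg {n : ℕ} (P : ℝ → Prop) (T : CompTree ℝ) (x : (Fin n → ℝ) × ℝ) (k i : ℕ) :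
    0 ≤ (T.run P x k).val i ↔ 0 ≤ polyFun ((sym n T (T.run P x k).hist).tpol i) x := by
  rw [← sign_nonneg_iff, sign_val, sign_nonneg_iff]

/-- if a test polynomial vanishes at one point of a line but not on the line, then so does an
atom -/
theorem tpol_atom {n : ℕ} (T : CompTree ℝ) (h : List Bool) (i : ℕ) (a : Fin n → ℝ) (b b' : ℝ)
    (h0 : polyFun ((sym n T h).tpol i) (a, b) = 0)
    (h1 : polyFun ((sym n T h).tpol i) (a, b') ≠ 0) :
    ∃ l, n ≤ l ∧ l < n + 1 + (sym n T h).atoms.length ∧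
      (sym n T h).ev (a, b') l ≠ 0 ∧ (sym n T h).ev (a, b) l = 0 := by
  rw [polyFun_tpol] at h0 h1
  obtain ⟨hc, hp⟩ := mul_ne_zero_iff.1 h1
  have h2 := (mul_eq_zero.1 h0).resolve_left hc
  obtain ⟨l, hl, h3⟩ := Finset.prod_eq_zero_iff.1 h2
  have h4 := (Finset.prod_ne_zero_iff.1 hp) l hl
  have h5 : (sym n T h).ev (a, b) l = 0 := eq_zero_of_pow_eq_zero h3
  have h9 : (((sym n T h).val i).2 l).natAbs ≠ 0 := by
    intro h9
    rw [h9, pow_zero] at h3
    exact one_ne_zero h3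
  have h6 : (sym n T h).ev (a, b') l ≠ 0 := by
    intro h7
    apply h4
    rw [h7]
    exact zero_pow h9
  refine ⟨l, ?_, Finset.mem_range.1 hl, h6, h5⟩
  by_contra hcon
  push Not at hcon
  apply h6
  have h8 : (sym n T h).ev (a, b') l = (sym n T h).ev (a, b) l := by
    unfold SSt.ev SSt.atom polyFun
    rw [dif_pos hcon]
    simp
  rw [h8, h5]

end Pool.Agent.Lib.MP_641cb6_lc.KH
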