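import Pool.Agent.Lib.MP_641cb6_lc.KH.Defs
import Pool.Agent.Lib.MP_641cb6_lc.KH.Comp
import Pool.Agent.Lib.MP_641cb6_lc.KH.SymDefs
import Pool.Agent.Lib.MP_641cb6_lc.KH.Tpol
import Pool.Agent.Lib.MP_641cb6_lc.KH.Sim
import Pool.Agent.Lib.MP_641cb6_lc.KH.Line

/-!
# RTR: computation trees with order branching
-/

set_option autoImplicit false

namespace Pool.Agent.Lib.MP_641cb6_lc.KH

open Set

/-- the node of the decision tree that belongs to an instruction -/
noncomputable def rnode {n : ℕ} (T : CompTree ℝ) (h : List Bool) :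
    Instr ℝ → Node ((Fin n → ℝ) × ℝ)
  | .const _ => .test fun _ => 0
  | .mul _ _ => .test fun _ => 0
  | .div _ j => .test fun x => -(polyFun ((sym n T h).tpol j) x) ^ 2
  | .add _ _ _ _ => .test fun _ => 0
  | .test i => .test (polyFun ((sym n T h).tpol i))
  | .answer b => .answer b

/-- the decision tree of a computation tree -/
noncomputable def rtree (n : ℕ) (T : CompTree ℝ) : DecTree ((Fin n → ℝ) × ℝ) :=
  fun h => rnode T h (T h)

theorem rtree_analytic {n : ℕ} (T : CompTree ℝ) (h : List Bool) (g : (Fin n → ℝ) × ℝ → ℝ)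
    (hg : rtree n T h = .test g) : AnalyticOnNhd ℝ g univ := by
  unfold rtree at hg
  cases hT : T h with
  | const c =>
    rw [hT] at hg
    simp only [rnode, Node.test.injEq] at hg
    subst hg
    exact analyticOnNhd_const
  | mul i j =>
    rw [hT] at hg
    simp only [rnode, Node.test.injEq] at hg
    subst hg
    exact analyticOnNhd_const
  | div i j =>
    rw [hT] at hg
    simp only [rnode, Node.test.injEq] at hg
    subst hg
    exact ((polyFun_analytic _).pow 2).neg
  | add c d i j =>
    rw [hT] at hg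
    simp only [rnode, Node.test.injEq] at hg
    subst hg
    exact analyticOnNhd_const
  | test i =>
    rw [hT] at hg
    simp only [rnode, Node.test.injEq] at hg
    subst hg
    exact polyFun_analytic _
  | answer b =>
    rw [hT] at hg
    simp [rnode] at hg

theorem dec_run_test {X : Type} {D : DecTree X} {x : X} {k : ℕ} {g : X → ℝ}
    (h : D (D.run x k) = .test g) : D.run x (k + 1) = decide (0 ≤ g x) :: D.run x k := by
  rw [DecTree.run, h]

theorem dec_run_answer {X : Type} {D : DecTree X} {x : X} {k : ℕ} {b : Bool}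
    (h : D (D.run x k) = .answer b) : D.run x (k + 1) = D.run x k := by
  rw [DecTree.run, h]

theorem rtree_run {n : ℕ} (T : CompTree ℝ) (x : (Fin n → ℝ) × ℝ) (k : ℕ) :
    (rtree n T).run x k = (T.run (fun v : ℝ => 0 ≤ v) x k).hist := by
  induction k with
  | zero => rfl
  | succ k ih =>
    have e2 : T.run (fun v : ℝ => 0 ≤ v) x (k + 1) =
      T.step (fun v : ℝ => 0 ≤ v) (T.run (fun v : ℝ => 0 ≤ v) x k) := rfl
    rw [e2]
    have h0 := tpol_zero (fun v : ℝ => 0 ≤ v) T x k
    have h1 := tpol_nonneg (fun v : ℝ => 0 ≤ v) T x k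
    generalize T.run (fun v : ℝ => 0 ≤ v) x k = s at h0 h1 ih ⊢
    have e3 : rtree n T ((rtree n T).run x k) = rnode T s.hist (T s.hist) := by
      rw [ih]
      rfl
    unfold CompTree.step
    cases hT : T s.hist with
    | const c =>
      rw [hT] at e3
      rw [dec_run_test e3, ih]
      simp
    | mul i j =>
      rw [hT] at e3
      rw [dec_run_test e3, ih]
      simp
    | div i j =>
      rw [hT] at e3
      rw [dec_run_test e3, ih]
      simp only [List.cons.injEq, and_true]
      rw [decide_eq_decide, h0 j]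
      constructor
      · intro h
        have h2 := sq_nonneg (polyFun ((sym n T s.hist).tpol j) x)
        exact pow_eq_zero_iff (two_ne_zero) |>.1 (by linarith)
      · intro h
        rw [h]
        norm_num
    | add c d i j =>
      rw [hT] at e3
      rw [dec_run_test e3, ih]
      simp
    | test i =>
      rw [hT] at e3
      rw [dec_run_test e3, ih]
      simp only [List.cons.injEq, and_true]
      rw [decide_eq_decide]
      exact (h1 i).symm
    | answer b =>
      rw [hT] at e3
      rw [dec_run_answer e3, ih]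

theorem rtree_decides {n m : ℕ} (T : CompTree ℝ)
    (hdec : T.Decides (fun v : ℝ => 0 ≤ v) (RootSum n m)) :
    (rtree n T).Decides (RootSum n m) := by
  intro x
  obtain ⟨k, b, hk, hb⟩ := hdec x
  refine ⟨k, b, ?_, hb⟩
  rw [rtree_run]
  unfold rtree
  rw [hk]
  rfl

theorem line_le {n : ℕ} (T : CompTree ℝ) (h : List Bool) (i : ℕ) (a : Fin n → ℝ) {b' : ℝ}
    (hb : polyFun ((sym n T h).tpol i) (a, b') ≠ 0) :
    {b | polyFun ((sym n T h).tpol i) (a, b) = 0}.encard ≤
      (2 * (sym n T h).atoms.length + 4) ^ ((sym n T h).atoms.length + 2) ^ 2 := by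
  refine le_trans (encard_le_encard ?_) (line_bound T h a)
  intro b hb0
  obtain ⟨l, h1, h2, h3, h4⟩ := tpol_atom T h i a b b' hb0 hb
  exact ⟨l, h1, h2, ⟨b', h3⟩, h4⟩

theorem real_trees {n m : ℕ} (T : CompTree ℝ)
    (hdec : T.Decides (fun v : ℝ => 0 ≤ v) (RootSum n m)) :
    ∃ x k, 2 ^ (m * n) ≤ (2 * (T.run (fun v : ℝ => 0 ≤ v) x k).cost + 4) ^
      ((T.run (fun v : ℝ => 0 ≤ v) (n := n) x k).cost + 2) ^ 2 := by
  obtain ⟨x, k, g, hg, a, ⟨b', hb'⟩, hcard⟩ :=
    real_main (T := rtree n T) (rtree_analytic T) (rtree_decides T hdec)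
  refine ⟨x, k, ?_⟩
  rw [rtree_run] at hg
  have hc := sim_cost (fun v : ℝ => 0 ≤ v) T x k
  generalize T.run (fun v : ℝ => 0 ≤ v) x k = s at hg hc ⊢
  rw [hc]
  have key : ∀ i, (∀ b, g (a, b) = 0 ↔ polyFun ((sym n T s.hist).tpol i) (a, b) = 0) →
      2 ^ (m * n) ≤ (2 * (sym n T s.hist).atoms.length + 4) ^
        ((sym n T s.hist).atoms.length + 2) ^ 2 := by
    intro i hi
    have h1 : {b | g (a, b) = 0} = {b | polyFun ((sym n T s.hist).tpol i) (a, b) = 0} := by
      ext b
      exact hi b
    have h2 := line_le T s.hist i a (b' := b') (fun h => hb' ((hi b').2 h))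
    rw [← h1] at h2
    have h3 := hcard.trans h2
    exact_mod_cast h3
  unfold rtree at hg
  cases hT : T s.hist with
  | const c =>
    rw [hT] at hg
    simp only [rnode, Node.test.injEq] at hg
    subst hg
    exact absurd rfl hb'
  | mul i j =>
    rw [hT] at hg
    simp only [rnode, Node.test.injEq] at hg
    subst hg
    exact absurd rfl hb'
  | div i j =>
    rw [hT] at hg
    simp only [rnode, Node.test.injEq] at hg
    subst hg
    exact key j fun b => by simp
  | add c d i j =>
    rw [hT] at hg
    simp only [rnode, Node.test.injEq] at hg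
    subst hg
    exact absurd rfl hb'
  | test i =>
    rw [hT] at hg
    simp only [rnode, Node.test.injEq] at hg
    subst hg
    exact key i fun b => Iff.rfl
  | answer b =>
    rw [hT] at hg
    simp [rnode] at hg

end Pool.Agent.Lib.MP_641cb6_lc.KH
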