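import Pool.Agent.Lib.MP_641cb6_lc.KH.Fam
import Pool.Agent.Lib.MP_641cb6_lc.KH.Rtr
import Pool.Agent.Lib.MP_641cb6_lc.KH.Sim

/-!
# Families of trees with order branching
-/

set_option autoImplicit false

namespace Pool.Agent.Lib.MP_641cb6_lc.KH

open Set

/-- many zeros of a test polynomial on a line give many additions -/
theorem cost_of_zeros {n m : ℕ} (T : CompTree ℝ) (P : ℝ → Prop) (x : (Fin n → ℝ) × ℝ) (k : ℕ)
    {g : (Fin n → ℝ) × ℝ → ℝ} {i : ℕ}
    (hi : ∀ y, g y = 0 ↔ polyFun ((sym n T (T.run P x k).hist).tpol i) y = 0)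
    {a : Fin n → ℝ} {b' : ℝ} (hb' : g (a, b') ≠ 0)
    (hcard : 2 ^ (m * n) ≤ {b | g (a, b) = 0}.encard) :
    2 ^ (m * n) ≤ (2 * (T.run P x k).cost + 4) ^ ((T.run P x k).cost + 2) ^ 2 := by
  rw [sim_cost P T x k]
  generalize (T.run P x k).hist = h at hi ⊢
  have h1 : {b | g (a, b) = 0} = {b | polyFun ((sym n T h).tpol i) (a, b) = 0} := by
    ext b
    exact hi (a, b)
  have h2 := line_le T h i a (b' := b') (fun h0 => hb' ((hi (a, b')).2 h0))
  rw [← h1] at h2
  have h3 := hcard.trans h2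
  exact_mod_cast h3

theorem real_fam {n m N : ℕ} (T : Fin N → CompTree ℝ) (Φ : (Fin N → Bool) → Prop)
    (hdec : DecidesJointly (fun v : ℝ => 0 ≤ v) T Φ (RootSum n m)) :
    ∃ w x k, 2 ^ (m * n) ≤ (2 * ((T w).run (fun v : ℝ => 0 ≤ v) x k).cost + 4) ^
      (((T w).run (fun v : ℝ => 0 ≤ v) (n := n) x k).cost + 2) ^ 2 := by
  have hdec' : ∀ x, ∃ (k : Fin N → ℕ) (b : Fin N → Bool),
      (∀ w, rtree n (T w) ((rtree n (T w)).run x (k w)) = .answer (b w)) ∧
        (Φ b ↔ x ∈ RootSum n m) := by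
    intro x
    obtain ⟨k, b, hk, hb⟩ := hdec x
    refine ⟨k, b, fun w => ?_, hb⟩
    rw [rtree_run]
    unfold rtree
    rw [hk w]
    rfl
  obtain ⟨w, x, k, g, hg, hne, hvan⟩ := exists_test_fam (T := fun w => rtree n (T w))
    (fun w h g hg => rtree_analytic (T w) h g hg) (pset_open n m) (pset_nonempty n m)
    (fun t _ => par_mem t) (fun t ht => rootSum_above t ht) hdec'
  have hg' : rtree n (T w) ((rtree n (T w)).run x k) = .test g := hg
  obtain ⟨a, ⟨b', hb'⟩, hcard⟩ := line_of_vanish (rtree_analytic (T w) _ g hg') hne hvan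
  refine ⟨w, x, k, ?_⟩
  rw [rtree_run] at hg'
  unfold rtree at hg'
  cases hT : (T w) ((T w).run (fun v : ℝ => 0 ≤ v) x k).hist with
  | const c =>
    rw [hT] at hg'
    simp only [rnode, Node.test.injEq] at hg'
    subst hg'
    exact absurd rfl hb'
  | mul i j =>
    rw [hT] at hg'
    simp only [rnode, Node.test.injEq] at hg'
    subst hg'
    exact absurd rfl hb'
  | div i j =>
    rw [hT] at hg'
    simp only [rnode, Node.test.injEq] at hg'
    exact cost_of_zeros (i := j) (T w) _ x k (fun y => by rw [← hg']; simp) hb' hcard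
  | add c d i j =>
    rw [hT] at hg'
    simp only [rnode, Node.test.injEq] at hg'
    subst hg'
    exact absurd rfl hb'
  | test i =>
    rw [hT] at hg'
    simp only [rnode, Node.test.injEq] at hg'
    exact cost_of_zeros (i := i) (T w) _ x k (fun y => by rw [← hg']) hb' hcard
  | answer b =>
    rw [hT] at hg'
    simp [rnode] at hg'

end Pool.Agent.Lib.MP_641cb6_lc.KH
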