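import Pool.Agent.Lib.MP_641cb6_lc.KH.Defs

/-!
# Auxiliary facts on `n` functions of `n` variables (helper57)
-/

set_option autoImplicit false

namespace Pool.Agent.Lib.MP_641cb6_lc.KH.H57

open Pool.Agent.Lib.MP_641cb6_lc.KH
open Set Topology MeasureTheory

/-- the derivative of the map with components `F i` -/
noncomputable def D {n : ℕ} (F : Fin n → (Fin n → ℝ) → ℝ) (x : Fin n → ℝ) :
    (Fin n → ℝ) →L[ℝ] (Fin n → ℝ) :=
  ContinuousLinearMap.pi fun i => fderiv ℝ (F i) x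

theorem det_D {n : ℕ} (F : Fin n → (Fin n → ℝ) → ℝ) (x : Fin n → ℝ) :
    (D F x).det = (jac F x).det := by
  have h : LinearMap.toMatrix' ((D F x : (Fin n → ℝ) →L[ℝ] (Fin n → ℝ)) :
      (Fin n → ℝ) →ₗ[ℝ] (Fin n → ℝ)) = jac F x := by
    ext i j
    rw [LinearMap.toMatrix'_apply]
    simp only [jac, Matrix.of_apply, D, ContinuousLinearMap.coe_coe, ContinuousLinearMap.coe_pi']
  rw [ContinuousLinearMap.det, ← LinearMap.det_toMatrix', h]

theorem strict {n : ℕ} {U : Set (Fin n → ℝ)} (hU : IsOpen U) {F : Fin n → (Fin n → ℝ) → ℝ}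
    (hF : ∀ i, ContDiffOn ℝ 1 (F i) U) {x : Fin n → ℝ} (hx : x ∈ U) :
    HasStrictFDerivAt (fun y i => F i y) (D F x) x := by
  rw [hasStrictFDerivAt_pi']
  intro i
  have h := ((hF i).contDiffAt (hU.mem_nhds hx)).hasStrictFDerivAt (by norm_num)
  exact h

end Pool.Agent.Lib.MP_641cb6_lc.KH.H57
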