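import Mathlib

/-!
# Module SWEEP: a sweeping lemma

`A` compact, `h : A → ℝ` continuous and locally injective, `B ⊆ A`, and at the points of `A \ B`
every neighbourhood contains points of `A` on all nearby levels. Then the zero level of `h` has at
most `#B` points.
-/

set_option autoImplicit false

namespace Pool.Agent.Lib.MP_641cb6_lc.KH

open Set Topology

/-- The number of points on a level is upper semicontinuous. -/
theorem sweep_usc {X : Type} [TopologicalSpace X] [T2Space X] {A : Set X} (hA : IsCompact A)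
    {h : X → ℝ} (hc : ContinuousOn h A)
    (hinj : ∀ x ∈ A, ∃ V ∈ 𝓝 x, InjOn h (A ∩ V)) (s : ℝ) :
    ∃ ε > 0, ∀ t : ℝ, |t - s| < ε →
      {x | x ∈ A ∧ h x = t}.encard ≤ {x | x ∈ A ∧ h x = s}.encard := by
  classical
  have hinj' : ∀ x : X, ∃ V : Set X, IsOpen V ∧ (x ∈ A → x ∈ V ∧ InjOn h (A ∩ V)) := by
    intro x
    by_cases hx : x ∈ A
    · obtain ⟨V, hV, hVi⟩ := hinj x hx
      obtain ⟨W, hWV, hWo, hxW⟩ := mem_nhds_iff.1 hV
      exact ⟨W, hWo, fun _ => ⟨hxW, hVi.mono (inter_subset_inter_right A hWV)⟩⟩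
    · exact ⟨∅, isOpen_empty, fun hh => absurd hh hx⟩
  choose V hVo hV using hinj'
  set L : Set X := {x | x ∈ A ∧ h x = s} with hL
  have hOpen : IsOpen (⋃ x ∈ L, V x) := isOpen_biUnion fun x _ => hVo x
  have hC : IsCompact (A \ ⋃ x ∈ L, V x) := hA.diff hOpen
  have hcC : ContinuousOn h (A \ ⋃ x ∈ L, V x) := hc.mono sdiff_subset
  have himg : IsClosed (h '' (A \ ⋃ x ∈ L, V x)) := (hC.image_of_continuousOn hcC).isClosed
  have hs : s ∉ h '' (A \ ⋃ x ∈ L, V x) := by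
    rintro ⟨x, ⟨hxA, hxV⟩, hxs⟩
    exact hxV (mem_biUnion (show x ∈ L from ⟨hxA, hxs⟩) (hV x hxA).1)
  obtain ⟨ε, hε, hball⟩ := Metric.isOpen_iff.1 himg.isOpen_compl s hs
  refine ⟨ε, hε, fun t ht => ?_⟩
  have hcov : ∀ y, y ∈ A → h y = t → ∃ x ∈ L, y ∈ V x := by
    intro y hyA hyt
    by_contra hcon
    push Not at hcon
    have : t ∈ h '' (A \ ⋃ x ∈ L, V x) := by
      refine ⟨y, ⟨hyA, ?_⟩, hyt⟩
      simp only [mem_iUnion, not_exists]
      exact fun x hx => hcon x hx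
    exact hball (show t ∈ Metric.ball s ε from by rwa [Metric.mem_ball, Real.dist_eq]) this
  choose! g hgL hgV using hcov
  refine encard_le_encard_of_injOn (f := g) ?_ ?_
  · rintro y ⟨hyA, hyt⟩
    exact hgL y hyA hyt
  · rintro y ⟨hyA, hyt⟩ z ⟨hzA, hzt⟩ hyz
    have hgA : g y ∈ A := (hgL y hyA hyt).1
    have hI := (hV (g y) hgA).2
    exact hI ⟨hyA, hgV y hyA hyt⟩ ⟨hzA, hyz ▸ hgV z hzA hzt⟩ (hyt.trans hzt.symm)

/-- Levels are finite. -/
theorem sweep_fin {X : Type} [TopologicalSpace X] [T2Space X] {A : Set X} (hA : IsCompact A)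
    {h : X → ℝ} (hc : ContinuousOn h A)
    (hinj : ∀ x ∈ A, ∃ V ∈ 𝓝 x, InjOn h (A ∩ V)) (s : ℝ) :
    {x | x ∈ A ∧ h x = s}.Finite := by
  have hcl : IsClosed {x | x ∈ A ∧ h x = s} := by
    have := hc.preimage_isClosed_of_isClosed hA.isClosed (isClosed_singleton (x := s))
    convert this using 1
    ext x
    simp
  have hcomp : IsCompact {x | x ∈ A ∧ h x = s} := hA.of_isClosed_subset hcl fun x hx => hx.1
  have hdisc : IsDiscrete {x | x ∈ A ∧ h x = s} := by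
    rw [isDiscrete_iff_nhdsWithin]
    rintro x ⟨hxA, hxs⟩
    obtain ⟨V, hV, hVi⟩ := hinj x hxA
    apply le_antisymm
    · rw [Filter.le_pure_iff, mem_nhdsWithin]
      obtain ⟨W, hWV, hWo, hxW⟩ := mem_nhds_iff.1 hV
      refine ⟨W, hWo, hxW, ?_⟩
      rintro y ⟨hyW, hyA, hys⟩
      exact hVi ⟨hyA, hWV hyW⟩ ⟨hxA, hWV hxW⟩ (hys.trans hxs.symm)
    · exact pure_le_nhdsWithin ⟨hxA, hxs⟩
  exact hcomp.finite hdisc

/-- Points outside `B` survive on nearby levels. -/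
theorem sweep_lsc {X : Type} [TopologicalSpace X] [T2Space X] {A B : Set X} (hA : IsCompact A)
    {h : X → ℝ} (hc : ContinuousOn h A)
    (hinj : ∀ x ∈ A, ∃ V ∈ 𝓝 x, InjOn h (A ∩ V))
    (hext : ∀ x ∈ A, x ∉ B → ∀ V ∈ 𝓝 x, ∃ r > 0, ∀ τ : ℝ, |τ - h x| < r →
      ∃ y ∈ A ∩ V, h y = τ) (s : ℝ) :
    ∃ ε > 0, ∀ t : ℝ, |t - s| < ε →
      {x | (x ∈ A ∧ h x = s) ∧ x ∉ B}.encard ≤ {x | x ∈ A ∧ h x = t}.encard := by
  classical
  have hfin : {x | (x ∈ A ∧ h x = s) ∧ x ∉ B}.Finite :=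
    (sweep_fin hA hc hinj s).subset fun x hx => hx.1
  obtain ⟨U, hU, hUd⟩ := hfin.t2_separation
  have hr : ∀ x : X, ∃ r : ℝ, 0 < r ∧ ((x ∈ A ∧ h x = s) ∧ x ∉ B → ∀ τ : ℝ, |τ - s| < r →
      ∃ y ∈ A ∩ U x, h y = τ) := by
    intro x
    by_cases hx : (x ∈ A ∧ h x = s) ∧ x ∉ B
    · obtain ⟨r, hr, hr'⟩ := hext x hx.1.1 hx.2 (U x) ((hU x).2.mem_nhds (hU x).1)
      rw [hx.1.2] at hr'
      exact ⟨r, hr, fun _ => hr'⟩
    · exact ⟨1, one_pos, fun hh => absurd hh hx⟩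
  choose r hr0 hr using hr
  obtain ⟨ε, hε, hεr⟩ : ∃ ε > 0, ∀ x ∈ hfin.toFinset, ε ≤ r x := by
    by_cases hne : hfin.toFinset.Nonempty
    · obtain ⟨x₀, hx₀, hmin⟩ := hfin.toFinset.exists_min_image r hne
      exact ⟨r x₀, hr0 x₀, hmin⟩
    · rw [Finset.not_nonempty_iff_eq_empty] at hne
      exact ⟨1, one_pos, fun x hx => by rw [hne] at hx; simp at hx⟩
  refine ⟨ε, hε, fun t ht => ?_⟩
  have hy : ∀ x, ((x ∈ A ∧ h x = s) ∧ x ∉ B) → ∃ y ∈ A ∩ U x, h y = t := by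
    intro x hx
    exact hr x hx t (ht.trans_le (hεr x (hfin.mem_toFinset.2 hx)))
  choose! g hgA hgt using hy
  refine encard_le_encard_of_injOn (f := g) ?_ ?_
  · intro x hx
    exact ⟨(hgA x hx).1, hgt x hx⟩
  · intro x hx y hy hxy
    by_contra hne
    have hd := hUd hx hy hne
    exact Set.disjoint_left.1 hd (hgA x hx).2 (hxy ▸ (hgA y hy).2)

theorem sweep {X : Type} [TopologicalSpace X] [T2Space X] {A B : Set X} (hA : IsCompact A)
    (hBA : B ⊆ A) {h : X → ℝ} (hc : ContinuousOn h A)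
    (hinj : ∀ x ∈ A, ∃ V ∈ 𝓝 x, InjOn h (A ∩ V))
    (hext : ∀ x ∈ A, x ∉ B → ∀ V ∈ 𝓝 x, ∃ r > 0, ∀ τ : ℝ, |τ - h x| < r →
      ∃ y ∈ A ∩ V, h y = τ) :
    {x | x ∈ A ∧ h x = 0}.encard ≤ B.encard := by
  classical
  obtain ⟨R, hR0, hR⟩ : ∃ R : ℝ, 0 < R ∧ ∀ x ∈ A, h x < R := by
    obtain ⟨M, hM⟩ := hA.bddAbove_image hc
    refine ⟨max M 0 + 1, by positivity, fun x hx => ?_⟩
    have h1 : h x ≤ M := hM (mem_image_of_mem h hx)
    have h2 : M ≤ max M 0 := le_max_left _ _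
    linarith
  set N : ℝ → ℕ∞ := fun t => {x | x ∈ A ∧ h x = t}.encard with hN
  set Bt : ℝ → Set X := fun t => {x | x ∈ B ∧ 0 ≤ h x ∧ h x < t} with hBt
  set S : Set ℝ := {t | t ∈ Icc 0 R ∧ N 0 ≤ N t + (Bt t).encard} with hS
  have h0S : (0 : ℝ) ∈ S := ⟨⟨le_rfl, hR0.le⟩, le_self_add⟩
  have hSne : S.Nonempty := ⟨0, h0S⟩
  have hSb : BddAbove S := ⟨R, fun t ht => ht.1.2⟩
  set s := sSup S with hs
  have hs0 : 0 ≤ s := le_csSup hSb h0S
  have hsR : s ≤ R := csSup_le hSne fun t ht => ht.1.2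
  have hsS : s ∈ S := by
    obtain ⟨ε, hε, hus⟩ := sweep_usc hA hc hinj s
    obtain ⟨t, htS, hts⟩ := exists_lt_of_lt_csSup hSne (show s - ε < sSup S by rw [← hs]; linarith)
    have hts' : t ≤ s := le_csSup hSb htS
    refine ⟨⟨hs0, hsR⟩, htS.2.trans ?_⟩
    refine add_le_add (hus t ?_) (encard_le_encard ?_)
    · rw [abs_lt]; constructor <;> linarith
    · rintro x ⟨hxB, hx0, hxt⟩
      exact ⟨hxB, hx0, hxt.trans_le hts'⟩
  have hsR' : s = R := by
    by_contra hne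
    have hlt : s < R := lt_of_le_of_ne hsR hne
    obtain ⟨ε, hε, hls⟩ := sweep_lsc hA hc hinj hext s
    set t := min R (s + ε / 2) with ht
    have hst : s < t := lt_min hlt (by linarith)
    have htε : t ≤ s + ε / 2 := min_le_right _ _
    have htS : t ∈ S := by
      refine ⟨⟨hs0.trans hst.le, min_le_left _ _⟩, hsS.2.trans ?_⟩
      have h1 : N s ≤ {x | (x ∈ A ∧ h x = s) ∧ x ∉ B}.encard + {x | x ∈ B ∧ h x = s}.encard := by
        refine (encard_le_encard ?_).trans (encard_union_le _ _)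
        rintro x ⟨hxA, hxs⟩
        by_cases hxB : x ∈ B
        · exact Or.inr ⟨hxB, hxs⟩
        · exact Or.inl ⟨⟨hxA, hxs⟩, hxB⟩
      have h2 : {x | (x ∈ A ∧ h x = s) ∧ x ∉ B}.encard ≤ N t :=
        hls t (by rw [abs_lt]; constructor <;> linarith)
      have h3 : {x | x ∈ B ∧ h x = s}.encard + (Bt s).encard ≤ (Bt t).encard := by
        rw [← encard_union_eq]
        · refine encard_le_encard ?_
          rintro x (⟨hxB, hxs⟩ | ⟨hxB, hx0, hxs⟩)
          · exact ⟨hxB, by rw [hxs]; exact hs0, by rw [hxs]; exact hst⟩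
          · exact ⟨hxB, hx0, hxs.trans hst⟩
        · rw [Set.disjoint_left]
          rintro x ⟨_, hxs⟩ ⟨_, _, hxs'⟩
          exact hxs'.ne hxs
      calc N s + (Bt s).encard
          ≤ ({x | (x ∈ A ∧ h x = s) ∧ x ∉ B}.encard + {x | x ∈ B ∧ h x = s}.encard)
            + (Bt s).encard := by gcongr
        _ = {x | (x ∈ A ∧ h x = s) ∧ x ∉ B}.encard
            + ({x | x ∈ B ∧ h x = s}.encard + (Bt s).encard) := add_assoc _ _ _
        _ ≤ N t + (Bt t).encard := add_le_add h2 h3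
    exact absurd (le_csSup hSb htS) (not_le.2 hst)
  have hNR : N R = 0 := by
    rw [hN]
    simp only [encard_eq_zero]
    ext x
    simp only [mem_ofPred_eq, mem_empty_iff_false, iff_false, not_and]
    intro hx
    exact (hR x hx).ne
  have hfinal := hsS.2
  rw [hsR', hNR, zero_add] at hfinal
  exact hfinal.trans (encard_le_encard fun x hx => hx.1)

end Pool.Agent.Lib.MP_641cb6_lc.KH
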